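import Pool.Agent.Lib.MP_1a91b9_ntH.A.LocDef

/-!
# TwistDensity, part A, file Loc3: the place above `3` if `√-3` divides `δ_S`

`δ_S = √-3 d` with `d ≡ ± 1` modulo `√-3`; the substitution `x = (√-3)² x' - δ_S`, `y = (√-3)³ y'` gives the model
`y² = x³ + δ_S x² - d² x` of discriminant `16 d⁶`, whose reduction is `y² = x³ - x` over the field of three elements:
the points are `(x, 0)` for the three `x`, and the point at infinity.
-/

set_option autoImplicit false

namespace Pool.Agent.Lib.MP_1a91b9_ntH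

open NumberField IsDedekindDomain Polynomial Pool.Agent.Lib.MP_1a91b9_ntT
  Pool.Agent.Lib.MP_1a91b9_ntG Pool.Agent.Lib.MP_1a91b9_nt

noncomputable section

private theorem loc3_s3 (v : HeightOneSpectrum (𝓞 K)) (h : s3 ∈ v.asIdeal) :
    v.asIdeal = Ideal.span {s3} := by
  have h1 : ∀ x c : 𝓞 K, x ∈ v.asIdeal → x - 1 = s3 * c → False := by
    intro x c hx hc
    have h1 : (1 : 𝓞 K) ∈ v.asIdeal := by
      have e : (1 : 𝓞 K) = x - s3 * c := by linear_combination -hc
      rw [e]
      exact Ideal.sub_mem _ hx (Ideal.mul_mem_right _ _ h)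
    exact v.isPrime.ne_top ((Ideal.eq_top_iff_one _).2 h1)
  refine le_antisymm (fun x hx => ?_) ((Ideal.span_singleton_le_iff_mem _).2 h)
  rw [Ideal.mem_span_singleton]
  rcases exists_mod_s3 x with h2 | ⟨c, h2⟩ | ⟨c, h2⟩
  · exact h2
  · exact (h1 x c hx h2).elim
  · exact (h1 (-x) (-c) ((Ideal.neg_mem_iff _).2 hx) (by linear_combination -h2)).elim

private theorem loc3_nrm (v : HeightOneSpectrum (𝓞 K)) (h : v.asIdeal = Ideal.span {s3}) :
    nrm v = 3 := by
  rw [nrm_eq, h, Ideal.absNorm_span_singleton]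
  have e : s3 = ((1 : ℤ) : 𝓞 K) + ((2 : ℤ) : 𝓞 K) * wO := by
    rw [s3]
    push_cast
    ring
  have h1 := Nz_coords 1 2
  rw [← e] at h1
  change Nz s3 = 3
  have h2 : (Nz s3 : ℤ) = 3 := by
    rw [h1]
    norm_num
  exact_mod_cast h2

private theorem loc3_card {k : Type*} [Field k] [Finite k] (hk : Nat.card k = 3) :
    Nat.card (WeierstrassCurve.toAffine (⟨0, 0, 0, -1, 0⟩ : WeierstrassCurve k)).Point = 4 := by
  classical
  have := Fintype.ofFinite k
  have hk' : Fintype.card k = 3 := by rw [← Nat.card_eq_fintype_card, hk]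
  have h3 : (3 : k) = 0 := by
    have h := FiniteField.cast_card_eq_zero k
    rw [hk'] at h
    exact_mod_cast h
  have hx : ∀ x : k, x ^ 3 = x := by
    intro x
    have h := FiniteField.pow_card x
    rwa [hk'] at h
  set W : WeierstrassCurve k := ⟨0, 0, 0, -1, 0⟩ with hW
  have hD : W.Δ ≠ 0 := by
    have e : W.Δ = 1 := by
      simp only [hW, WeierstrassCurve.Δ, WeierstrassCurve.b₂, WeierstrassCurve.b₄,
        WeierstrassCurve.b₆, WeierstrassCurve.b₈]
      linear_combination 21 * h3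
    rw [e]
    exact one_ne_zero
  have hE : W.IsElliptic := ⟨isUnit_iff_ne_zero.mpr hD⟩
  have hns : ∀ p : k × k, W.toAffine.Nonsingular p.1 p.2 ↔ p.2 = 0 := by
    intro p
    rw [← WeierstrassCurve.Affine.equation_iff_nonsingular, WeierstrassCurve.Affine.equation_iff]
    simp only [hW, WeierstrassCurve.toAffine]
    have h1 := hx p.1
    constructor
    · intro h
      have h2 : p.2 ^ 2 = 0 := by linear_combination h + h1
      exact pow_eq_zero_iff two_ne_zero |>.1 h2
    · intro h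
      rw [h]
      linear_combination -h1
  rw [Nat.card_congr (pointEquivOption _), Finite.card_option]
  have e2 : Nat.card {p : k × k // W.toAffine.Nonsingular p.1 p.2} = 3 := by
    rw [← hk]
    refine Nat.card_congr ⟨fun p => p.1.1, fun x => ⟨(x, 0), (hns _).2 rfl⟩, ?_, fun _ => rfl⟩
    rintro ⟨⟨a, b⟩, h⟩
    have h1 : b = 0 := (hns _).1 h
    subst h1
    rfl
  rw [e2]

/-- the place above `3` if `√-3` divides `δ_S` -/
theorem loc_three (S : Finset Pq) (v : HeightOneSpectrum (𝓞 K)) (h : s3 ∈ v.asIdeal)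
    (h' : (qd.A S).b ≠ 0) (x : ℂ) : aeval x (locPoly (Wd S) v) = 1 + 3 * x ^ 2 := by
  have hv := loc3_s3 v h
  have hn := loc3_nrm v hv
  obtain ⟨D, hD, hD2⟩ : ∃ D : 𝓞 K, dl S = s3 * D ∧ D ^ 2 - 1 ∈ v.asIdeal := by
    refine ⟨(if (qd.A S).a = 0 then 1 else -1) * DD S, ?_, ?_⟩
    · rw [dl, if_neg h', mul_assoc]
    · obtain ⟨c, hc⟩ := DD_f0 S
      have e0 : ((if (qd.A S).a = 0 then (1 : 𝓞 K) else -1)) ^ 2 = 1 := by
        split_ifs <;> ring
      have e : ((if (qd.A S).a = 0 then (1 : 𝓞 K) else -1) * DD S) ^ 2 - 1 =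
          s3 * (2 * c * (DD S + 1)) := by
        rw [mul_pow, e0, one_mul]
        rw [f0] at hc
        linear_combination (DD S + 1) * hc
      rw [e]
      exact Ideal.mul_mem_right _ _ h
  have hD0 : D ∉ v.asIdeal := by
    intro hm
    apply v.isPrime.ne_top
    rw [Ideal.eq_top_iff_one]
    have e : (1 : 𝓞 K) = D ^ 2 - (D ^ 2 - 1) := by ring
    rw [e]
    exact Ideal.sub_mem _ (Ideal.pow_mem_of_mem _ hm 2 (by norm_num)) hD2
  have h2 : (2 : 𝓞 K) ∉ v.asIdeal := by
    intro hm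
    apply v.isPrime.ne_top
    rw [Ideal.eq_top_iff_one]
    have e : (1 : 𝓞 K) = -1 * 2 + s3 * (-s3) := by linear_combination s3_sq
    rw [e]
    exact Ideal.add_mem _ (Ideal.mul_mem_left _ _ hm) (Ideal.mul_mem_right _ _ h)
  set σ : K := algebraMap (𝓞 K) K s3 with hσ
  set d : K := algebraMap (𝓞 K) K D with hd
  have hσ2 : σ ^ 2 = -3 := by
    rw [hσ, ← map_pow, s3_sq, map_neg, map_ofNat]
  have hσ0 : σ ≠ 0 := by
    intro h0
    rw [h0] at hσ2
    norm_num at hσ2
  have hdl : ((dl S : 𝓞 K) : K) = σ * d := by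
    rw [hD, hσ, hd, ← map_mul]
  let C : WeierstrassCurve.VariableChange K := ⟨Units.mk0 σ hσ0, -(σ * d), 0, 0⟩
  let W₀ : WeierstrassCurve (𝓞 K) := ⟨0, s3 * D, 0, -D ^ 2, 0⟩
  have h3 : (3 : K) = -σ ^ 2 := by linear_combination hσ2
  have hC : C • Wd S = W₀.map (algebraMap (𝓞 K) K) := by
    rw [WeierstrassCurve.variableChange_def]
    have e1 : (C.u⁻¹ : Kˣ).val = σ⁻¹ := rfl
    ext
    · simp [C, W₀, Wd]
    · simp only [C, W₀, Wd, WeierstrassCurve.map, map_mul, ← hσ, ← hd, Units.val_inv_eq_inv_val,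
        Units.val_mk0, h3]
      field_simp
      ring
    · simp [C, W₀, Wd]
    · simp only [C, W₀, Wd, WeierstrassCurve.map, map_mul, map_neg, map_pow, ← hd,
        Units.val_inv_eq_inv_val, Units.val_mk0, h3]
      field_simp
      ring
    · simp only [C, W₀, Wd, WeierstrassCurve.map, map_zero, hdl]
      ring
  have hΔ : W₀.Δ = 16 * D ^ 6 := by
    simp only [W₀, WeierstrassCurve.Δ, WeierstrassCurve.b₂, WeierstrassCurve.b₄,
      WeierstrassCurve.b₆, WeierstrassCurve.b₈]
    linear_combination (16 * D ^ 6) * s3_sq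
  have hmodel : locPoly ((Wd S).baseChange K) v = _ :=
    locPoly_of_model (F := K) (K := K) (Wd S) C W₀ hC v (by
      rw [hΔ]
      intro hmem
      change algebraMap (𝓞 K) (𝓞 K) (16 * D ^ 6) ∈ v.asIdeal at hmem
      rw [Algebra.algebraMap_self, RingHom.id_apply] at hmem
      rcases v.isPrime.mem_or_mem hmem with h4 | h4
      · have e : (16 : 𝓞 K) = 2 ^ 4 := by norm_num
        rw [e] at h4
        exact h2 (v.isPrime.mem_of_pow_mem _ h4)
      · exact hD0 (v.isPrime.mem_of_pow_mem _ h4))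
  have hbc : (Wd S).baseChange K = Wd S := WeierstrassCurve.map_id _
  rw [hbc] at hmodel
  have hker : ∀ y : 𝓞 K, y ∈ v.asIdeal → redMap K v y = 0 := by
    intro y hy
    rw [← RingHom.mem_ker, redMap_ker]
    exact hy
  have hred : W₀.map (redMap K v) = ⟨0, 0, 0, -1, 0⟩ := by
    have r1 : redMap K v (s3 * D) = 0 := hker _ (Ideal.mul_mem_right _ _ h)
    have r2 : redMap K v (-D ^ 2) = -1 := by
      have r3 := hker _ hD2
      rw [map_sub, map_one] at r3
      rw [map_neg, sub_eq_zero.1 r3]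
    simp only [W₀, WeierstrassCurve.map, map_zero, r1, r2]
  have hfin : Finite (IsLocalRing.ResidueField (v.adicCompletionIntegers K)) := finite_residue v
  have hcard : Nat.card (W₀.map (redMap K v)).toAffine.Point = 4 := by
    rw [hred]
    exact loc3_card hn
  have e : (((3 : ℕ) : ℤ) + 1 - ((4 : ℕ) : ℤ)) = 0 := by norm_num
  rw [hmodel, hcard, hn, e, Polynomial.C_0, zero_mul, sub_zero, map_add, map_one, map_mul, map_pow,
    aeval_C, aeval_X]
  norm_num

end

end Pool.Agent.Lib.MP_1a91b9_ntH
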