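import Pool.Agent.Lib.MP_1a91b9_ntH.A.Base
import Pool.Agent.Lib.MP_1a91b9_ntX.LF.Chi
import Pool.Agent.Lib.MP_1a91b9_ntX.LF.CntA

/-!
# TwistDensity, part A, file ChiQ: the cubic character and the Jacobi sum at a primary prime
-/

set_option autoImplicit false

namespace Pool.Agent.Lib.MP_1a91b9_ntH

open NumberField IsDedekindDomain Polynomial Pool.Agent.Lib.MP_1a91b9_nt
  Pool.Agent.Lib.MP_1a91b9_ntT Pool.Agent.Lib.MP_1a91b9_ntG
open Pool.Agent.Lib.MP_1a91b9_ntX.LF (crv etaC exists_chi card_crv_of_one)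

/-- an element of even norm is divisible by `2` -/
theorem two_dvd_of_Nz {x : 𝓞 K} (h : 2 ∣ Nz x) : (2 : 𝓞 K) ∣ x := by
  obtain ⟨p, q, rfl⟩ := coord x
  have h1 : ((2 : ℕ) : ℤ) ∣ (Nz ((p : 𝓞 K) + (q : 𝓞 K) * wO) : ℤ) := Int.natCast_dvd_natCast.2 h
  rw [Nz_coords] at h1
  obtain ⟨c, hc⟩ := h1
  have h2 : (2 : ℤ) ∣ p ∧ (2 : ℤ) ∣ q := by
    rcases Int.even_or_odd' p with ⟨a, ha | ha⟩ <;> rcases Int.even_or_odd' q with ⟨b, hb | hb⟩
    · exact ⟨⟨a, ha⟩, ⟨b, hb⟩⟩
    · exfalso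
      subst ha hb
      have : 2 * (2 * a ^ 2 - a * (2 * b + 1) + 2 * b ^ 2 + 2 * b - c) = -1 := by
        push_cast at hc
        linarith
      omega
    · exfalso
      subst ha hb
      have : 2 * (2 * a ^ 2 + 2 * a - (2 * a + 1) * b + 2 * b ^ 2 - c) = -1 := by
        push_cast at hc
        linarith
      omega
    · exfalso
      subst ha hb
      have : 2 * (2 * a ^ 2 + 2 * a - 2 * a * b - a - b + 2 * b ^ 2 + 2 * b - c) = -1 := by
        push_cast at hc
        linarith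
      omega
  obtain ⟨⟨a, rfl⟩, ⟨b, rfl⟩⟩ := h2
  exact ⟨(a : 𝓞 K) + (b : 𝓞 K) * wO, by push_cast; ring⟩

/-- the number of points of `y² = x³ + 1` over a finite field of odd characteristic is even -/
theorem even_card_crv {k : Type*} [Field k] [Finite k] (_ : (2 : k) ≠ 0) (h3 : (3 : k) ≠ 0) :
    2 ∣ Nat.card (crv (1 : k)).toAffine.Point := by
  classical
  have hns : (crv (1 : k)).toAffine.Nonsingular (-1) 0 := by
    rw [WeierstrassCurve.Affine.nonsingular_iff, WeierstrassCurve.Affine.equation_iff]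
    refine ⟨?_, Or.inl ?_⟩
    · simp only [crv, WeierstrassCurve.toAffine]
      ring
    · simp only [crv, WeierstrassCurve.toAffine]
      intro h
      apply h3
      linear_combination -h
  set P : (crv (1 : k)).toAffine.Point := WeierstrassCurve.Affine.Point.some _ _ hns with hP
  have hneg : -P = P := by
    rw [hP, WeierstrassCurve.Affine.Point.neg_some]
    congr 1
    simp [WeierstrassCurve.Affine.negY, crv, WeierstrassCurve.toAffine]
  have h2P : 2 • P = 0 := by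
    rw [two_nsmul]
    nth_rewrite 1 [← hneg]
    exact neg_add_cancel P
  have hP0 : P ≠ 0 := by
    rw [hP]
    exact WeierstrassCurve.Affine.Point.some_ne_zero hns
  have hord : addOrderOf P = 2 := addOrderOf_eq_prime h2P hP0
  rw [← hord]
  exact addOrderOf_dvd_natCard P

/-- a cube root of unity is congruent to `1` modulo `√-3` -/
theorem s3_dvd_root {c : 𝓞 K} (hc : c ^ 3 = 1) : s3 ∣ c - 1 := by
  rcases exists_mod_s3 c with h | h | h
  · exfalso
    apply s3_not_isUnit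
    refine isUnit_of_dvd_one ?_
    rw [← hc]
    exact dvd_pow h (by norm_num)
  · exact h
  · exfalso
    have h1 : s3 ∣ c ^ 3 + 1 := by
      have e : c ^ 3 + 1 = (c + 1) * (c ^ 2 - c + 1) := by ring
      rw [e]
      exact h.mul_right _
    rw [hc] at h1
    have h2 : s3 ∣ (2 : 𝓞 K) := by
      have e : (1 : 𝓞 K) + 1 = 2 := by norm_num
      rwa [e] at h1
    exact s3_not_isUnit (s3_odd.symm.isUnit_of_dvd' dvd_rfl h2)

theorem psi_self (I : Ideal (𝓞 K)) : S4.psi K I = S4.psiK I := by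
  obtain ⟨g, hg⟩ := (IsPrincipalIdealRing.principal I).principal
  have hg' : I = Ideal.span {g} := hg
  subst hg'
  have h1 : (S4.nK (F := K) g : 𝓞 K) = g := by
    apply RingOfIntegers.ext
    rw [S4.nK_coe, Algebra.norm_self]
    rfl
  rw [S4.psi, S4.relNorm_span, h1]

theorem exists_chi_q (q : Pq)
    [Fintype (IsLocalRing.ResidueField ((plc q).adicCompletionIntegers K))] :
    ∃ χ : MulChar (IsLocalRing.ResidueField ((plc q).adicCompletionIntegers K)) (𝓞 K),
      χ ^ 3 = 1 ∧ χ ≠ 1 ∧ 3 ∣ nrm (plc q) - 1 ∧ q.1 = -(χ 4 * jacobiSum χ χ) ∧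
      (starRingEnd ℂ) (em (jacobiSum χ χ)) = em (jacobiSum (χ ^ 2) (χ ^ 2)) ∧
      jacobiSum χ χ * jacobiSum (χ ^ 2) (χ ^ 2) = (nrm (plc q) : 𝓞 K) := by
  classical
  have h6 := six_notMem q
  have hdv : ∀ a b : 𝓞 K, a * b = 6 → a ∉ (plc q).asIdeal := by
    intro a b hab h
    apply h6
    rw [← hab]
    exact Ideal.mul_mem_right _ _ h
  have h2w : (2 : 𝓞 K) ∉ (plc q).asIdeal := hdv 2 3 (by norm_num)
  have h3w : (3 : 𝓞 K) ∉ (plc q).asIdeal := hdv 3 2 (by norm_num)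
  obtain ⟨χ, hχ3, hχ1, hχρ, hdvd, hψ, hconj, hJJ⟩ := exists_chi (plc q) h3w
  have hcard : Fintype.card (IsLocalRing.ResidueField ((plc q).adicCompletionIntegers K)) =
      nrm (plc q) := by
    rw [nrm, Nat.card_eq_fintype_card]
  have hz : ∀ x : 𝓞 K, redMap K (plc q) x = 0 → x ∈ (plc q).asIdeal := by
    intro x hx
    have h4 : x ∈ RingHom.ker (redMap K (plc q)) := hx
    rw [redMap_ker] at h4
    exact h4
  have h2k : (2 : IsLocalRing.ResidueField ((plc q).adicCompletionIntegers K)) ≠ 0 := fun h =>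
    h2w (hz 2 (by rw [map_ofNat]; exact h))
  have h3k : (3 : IsLocalRing.ResidueField ((plc q).adicCompletionIntegers K)) ≠ 0 := fun h =>
    h3w (hz 3 (by rw [map_ofNat]; exact h))
  have h4k : (4 : IsLocalRing.ResidueField ((plc q).adicCompletionIntegers K)) ≠ 0 := by
    have h4 : (4 : IsLocalRing.ResidueField ((plc q).adicCompletionIntegers K)) = 2 ^ 2 := by norm_num
    rw [h4]
    exact pow_ne_zero 2 h2k
  obtain ⟨J, hJ⟩ : ∃ J, J = jacobiSum χ χ := ⟨_, rfl⟩
  obtain ⟨J', hJ'⟩ : ∃ J', J' = jacobiSum (χ ^ 2) (χ ^ 2) := ⟨_, rfl⟩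
  rw [← hJ] at hψ hconj hJJ
  rw [← hJ'] at hconj hJJ
  -- the generator `-J`
  have hpsi : S4.psi K (plc q).asIdeal = S4.psiK (plc q).asIdeal := psi_self _
  have hcop : IsCoprime (plc q).asIdeal (Ideal.span {(3 : 𝓞 K)}) := by
    rw [Ideal.isCoprime_iff_sup_eq]
    by_contra hc
    have h1 : (plc q).asIdeal = (plc q).asIdeal ⊔ Ideal.span {(3 : 𝓞 K)} :=
      (plc q).isMaximal.eq_of_le hc le_sup_left
    apply h3w
    rw [h1]
    exact Ideal.mem_sup_right (Ideal.mem_span_singleton_self _)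
  obtain ⟨hJ3, hJspan⟩ := S4.psiK_of_coprime _ hcop
  rw [← hpsi, hψ] at hJ3 hJspan
  -- the root of unity
  obtain ⟨c, hc⟩ : ∃ c, c = χ 4 := ⟨_, rfl⟩
  have hc3 : c ^ 3 = 1 := by
    rw [hc, ← MulChar.pow_apply' _ (by norm_num), hχ3,
      MulChar.one_apply (isUnit_iff_ne_zero.2 h4k)]
  have hs3c := s3_dvd_root hc3
  have hs3 : s3 ∣ -(c * J) - 1 := by
    have e : -(c * J) - 1 = c * (-J - 1) + (c - 1) := by ring
    rw [e]
    exact dvd_add ((s3_dvd_three.trans hJ3).mul_left _) hs3c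
  have hspan : Ideal.span {-(c * J)} = (plc q).asIdeal := by
    rw [← hJspan, Ideal.span_singleton_eq_span_singleton]
    refine ⟨⟨c ^ 2, c, by linear_combination hc3, by linear_combination hc3⟩, ?_⟩
    change -(c * J) * c ^ 2 = -J
    linear_combination -J * hc3
  -- complex values
  obtain ⟨τ, hτ⟩ : ∃ τ : 𝓞 K →+* ℂ, τ = embK.toRingHom.comp (algebraMap (𝓞 K) K) := ⟨_, rfl⟩
  have hτa : ∀ x : 𝓞 K, τ x = embK (x : K) := fun x => by rw [hτ]; rfl
  have hτi : Function.Injective τ := by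
    rw [hτ]
    exact (embK.toRingHom.injective).comp RingOfIntegers.coe_injective
  have hconj' : (starRingEnd ℂ) (τ J) = τ J' := by rw [hτa, hτa]; exact hconj
  have hτJJ : τ J * τ J' = (nrm (plc q) : ℂ) := by
    rw [← map_mul, hJJ, map_natCast]
  have ha3 : τ c ^ 3 = 1 := by rw [← map_pow, hc3, map_one]
  have ha0 : τ c ≠ 0 := by
    intro h
    rw [h] at ha3
    norm_num at ha3
  have hconja : (starRingEnd ℂ) (τ c) = (τ c)⁻¹ := by
    have hn : ‖τ c‖ = 1 := Complex.norm_eq_one_of_pow_eq_one ha3 (by norm_num)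
    have h1 : τ c * (starRingEnd ℂ) (τ c) = 1 := by
      rw [Complex.mul_conj, Complex.normSq_eq_norm_sq, hn]
      norm_num
    exact eq_inv_of_mul_eq_one_right h1
  -- the number of points of `y² = x³ + 1`
  have hcount := card_crv_of_one h2k h3k 1 one_ne_zero (χ.ringHomComp τ) (by
    rw [Ne, MulChar.ringHomComp_eq_one_iff hτi]
    exact hχ1) (by rw [MulChar.ringHomComp_pow, hχ3, MulChar.ringHomComp_one])
      (by rw [hcard]; exact hdvd)
  have hinv : (χ.ringHomComp τ)⁻¹ = (χ ^ 2).ringHomComp τ := by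
    rw [← S4.u4_inv_eq χ hχ3]
    exact MulChar.ringHomComp_inv _ _
  have hinva : (χ.ringHomComp τ)⁻¹ 4 = (τ c)⁻¹ := by
    rw [MulChar.inv_apply_eq_inv', MulChar.ringHomComp_apply, ← hc]
  rw [mul_one, hinva, map_one, mul_one, mul_one, MulChar.ringHomComp_apply, ← hc, hinv,
    jacobiSum_ringHomComp, jacobiSum_ringHomComp, ← hJ, ← hJ', hcard] at hcount
  have hN : (Nat.card (crv (1 : IsLocalRing.ResidueField
      ((plc q).adicCompletionIntegers K))).toAffine.Point : ℂ) = (Nz (1 - -(c * J)) : ℂ) := by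
    have h1 : ((Nz (1 - -(c * J)) : ℝ) : ℂ) = τ (1 - -(c * J)) * (starRingEnd ℂ) (τ (1 - -(c * J))) := by
      rw [Nz_eq, Complex.mul_conj, Complex.normSq_eq_norm_sq, hτa]
    have h2 : ((Nz (1 - -(c * J)) : ℝ) : ℂ) = (Nz (1 - -(c * J)) : ℂ) := by push_cast; rfl
    rw [← h2, h1, hcount]
    simp only [map_sub, map_one, map_neg, map_mul, hconja, hconj']
    have h3 : τ c * (τ c)⁻¹ = 1 := mul_inv_cancel₀ ha0
    linear_combination (-hτJJ) + (-(τ J * τ J')) * h3
  have hN' : Nat.card (crv (1 : IsLocalRing.ResidueField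
      ((plc q).adicCompletionIntegers K))).toAffine.Point = Nz (1 - -(c * J)) := by
    exact_mod_cast hN
  have heven : 2 ∣ Nz (1 - -(c * J)) := by
    rw [← hN']
    exact even_card_crv h2k h3k
  have h2 : (2 : 𝓞 K) ∣ -(c * J) - 1 := by
    obtain ⟨d, hd⟩ := two_dvd_of_Nz heven
    exact ⟨-d, by linear_combination -hd⟩
  have hf : f0 ∣ -(c * J) - 1 := s3_odd.mul_dvd h2 hs3
  have hq : q.1 = -(c * J) := by
    rw [← psK_plc q, ← hspan]
    exact psK_span _ hf
  refine ⟨χ, hχ3, hχ1, hdvd, ?_, ?_, ?_⟩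
  · rw [← hc, ← hJ]
    exact hq
  · rw [← hJ, ← hJ']
    exact hconj
  · rw [← hJ, ← hJ']
    exact hJJ

end Pool.Agent.Lib.MP_1a91b9_ntH
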