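import Pool.Agent.Lib.MP_1a91b9_ntH.A.LocDef
import Pool.Agent.Lib.MP_1a91b9_ntH.A.ChiQ
import Pool.Agent.Lib.MP_1a91b9_ntX.LF.Model
import Pool.Agent.Lib.MP_1a91b9_nt.LocalTwist

/-!
# TwistDensity, part A, file LocG: the Euler factor of `y² = x³ + δ_S³` at the good places

`lt_locPoly` and `lt_card` (MP_1a91b9_nt/LocalTwist) for the models `y² = x³ + 1`, `y² = x³ + δ_S³`
over `𝓞 K`, `exists_chi_q` (the factor of `y² = x³ + 1`) and `chi_recip` (`δ_S` is a square modulo `q` iff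
`χ_S(q) = 1`).
-/

set_option autoImplicit false

namespace Pool.Agent.Lib.MP_1a91b9_ntH

open NumberField IsDedekindDomain Polynomial Pool.Agent.Lib.MP_1a91b9_ntT
  Pool.Agent.Lib.MP_1a91b9_ntG Pool.Agent.Lib.MP_1a91b9_nt
open Pool.Agent.Lib.MP_1a91b9_ntX.LF (crv card_crv_of_one locPoly_crv)

noncomputable section

private theorem LocG_delta {R : Type*} [CommRing R] (d : R) :
    (⟨0, 0, 0, 0, d⟩ : WeierstrassCurve R).Δ = -(2 * 2 * 2 * 2 * 3 * 3 * 3) * d ^ 2 := by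
  simp only [WeierstrassCurve.Δ, WeierstrassCurve.b₂, WeierstrassCurve.b₄, WeierstrassCurve.b₆,
    WeierstrassCurve.b₈]
  ring

private theorem LocG_c4 {R : Type*} [CommRing R] (d : R) :
    (⟨0, 0, 0, 0, d⟩ : WeierstrassCurve R).c₄ = 0 := by
  simp only [WeierstrassCurve.c₄, WeierstrassCurve.b₂, WeierstrassCurve.b₄]
  ring

private theorem LocG_c6 {R : Type*} [CommRing R] (d : R) :
    (⟨0, 0, 0, 0, d⟩ : WeierstrassCurve R).c₆ = -864 * d := by
  simp only [WeierstrassCurve.c₆, WeierstrassCurve.b₂, WeierstrassCurve.b₄, WeierstrassCurve.b₆]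
  ring

private theorem LocG_model {d : 𝓞 K} {e : K} (h : algebraMap (𝓞 K) K d = e) :
    (1 : WeierstrassCurve.VariableChange K) • (⟨0, 0, 0, 0, e⟩ : WeierstrassCurve K) =
      (⟨0, 0, 0, 0, d⟩ : WeierstrassCurve (𝓞 K)).map (algebraMap (𝓞 K) K) := by
  rw [one_smul, ← h]
  ext <;> simp

/-- the Euler factor of `y² = x³ + 1` -/
private theorem LocG_one (q : Pq) (x : ℂ) : aeval x (locPoly (crv (1 : K)) (plc q)) =
    (1 - em q.1 * x) * (1 - (starRingEnd ℂ) (em q.1) * x) := by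
  classical
  have hfin : Finite (IsLocalRing.ResidueField ((plc q).adicCompletionIntegers K)) :=
    finite_residue (plc q)
  have := Fintype.ofFinite (IsLocalRing.ResidueField ((plc q).adicCompletionIntegers K))
  have h6 := six_notMem q
  have hdv : ∀ a b : 𝓞 K, a * b = 6 → a ∉ (plc q).asIdeal := by
    intro a b hab h
    apply h6
    rw [← hab]
    exact Ideal.mul_mem_right _ _ h
  have h2w : (2 : 𝓞 K) ∉ (plc q).asIdeal := hdv 2 3 (by norm_num)
  have h3w : (3 : 𝓞 K) ∉ (plc q).asIdeal := hdv 3 2 (by norm_num)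
  have hcard : Fintype.card (IsLocalRing.ResidueField ((plc q).adicCompletionIntegers K)) =
      nrm (plc q) := by
    rw [nrm, Nat.card_eq_fintype_card]
  have hz : ∀ x : 𝓞 K, redMap K (plc q) x = 0 → x ∈ (plc q).asIdeal := by
    intro x hx
    have h4 : x ∈ RingHom.ker (redMap K (plc q)) := hx
    rw [redMap_ker] at h4
    exact h4
  have h2k : (2 : IsLocalRing.ResidueField ((plc q).adicCompletionIntegers K)) ≠ 0 := fun h =>
    h2w (hz 2 (by rw [map_ofNat]; exact h))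
  have h3k : (3 : IsLocalRing.ResidueField ((plc q).adicCompletionIntegers K)) ≠ 0 := fun h =>
    h3w (hz 3 (by rw [map_ofNat]; exact h))
  obtain ⟨χ, hχ3, hχ1, hdvd, hq, hconj, hJJ⟩ := exists_chi_q q
  have h4k : (4 : IsLocalRing.ResidueField ((plc q).adicCompletionIntegers K)) ≠ 0 := by
    have h4 : (4 : IsLocalRing.ResidueField ((plc q).adicCompletionIntegers K)) = 2 ^ 2 := by norm_num
    rw [h4]
    exact pow_ne_zero 2 h2k
  obtain ⟨J, hJ⟩ : ∃ J, J = jacobiSum χ χ := ⟨_, rfl⟩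
  obtain ⟨J', hJ'⟩ : ∃ J', J' = jacobiSum (χ ^ 2) (χ ^ 2) := ⟨_, rfl⟩
  rw [← hJ] at hq hconj hJJ
  rw [← hJ'] at hconj hJJ
  obtain ⟨c, hc⟩ : ∃ c, c = χ 4 := ⟨_, rfl⟩
  rw [← hc] at hq
  have hc3 : c ^ 3 = 1 := by
    rw [hc, ← MulChar.pow_apply' _ (by norm_num), hχ3,
      MulChar.one_apply (isUnit_iff_ne_zero.2 h4k)]
  obtain ⟨τ, hτ⟩ : ∃ τ : 𝓞 K →+* ℂ, τ = embK.toRingHom.comp (algebraMap (𝓞 K) K) := ⟨_, rfl⟩
  have hτa : ∀ x : 𝓞 K, τ x = em x := fun x => by rw [hτ]; rfl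
  have hτi : Function.Injective τ := by
    rw [hτ]
    exact (embK.toRingHom.injective).comp RingOfIntegers.coe_injective
  rw [← hτa, ← hτa] at hconj
  have hτJJ : τ J * τ J' = (nrm (plc q) : ℂ) := by
    rw [← map_mul, hJJ, map_natCast]
  have ha3 : τ c ^ 3 = 1 := by rw [← map_pow, hc3, map_one]
  have ha0 : τ c ≠ 0 := by
    intro h
    rw [h] at ha3
    norm_num at ha3
  have hconja : (starRingEnd ℂ) (τ c) = (τ c)⁻¹ := by
    have hn : ‖τ c‖ = 1 := Complex.norm_eq_one_of_pow_eq_one ha3 (by norm_num)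
    have h1 : τ c * (starRingEnd ℂ) (τ c) = 1 := by
      rw [Complex.mul_conj, Complex.normSq_eq_norm_sq, hn]
      norm_num
    exact eq_inv_of_mul_eq_one_right h1
  have hcount := card_crv_of_one h2k h3k 1 one_ne_zero (χ.ringHomComp τ) (by
    rw [Ne, MulChar.ringHomComp_eq_one_iff hτi]
    exact hχ1) (by rw [MulChar.ringHomComp_pow, hχ3, MulChar.ringHomComp_one])
      (by rw [hcard]; exact hdvd)
  have hinv : (χ.ringHomComp τ)⁻¹ = (χ ^ 2).ringHomComp τ := by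
    rw [← S4.u4_inv_eq χ hχ3]
    exact MulChar.ringHomComp_inv _ _
  have hinva : (χ.ringHomComp τ)⁻¹ 4 = (τ c)⁻¹ := by
    rw [MulChar.inv_apply_eq_inv', MulChar.ringHomComp_apply, ← hc]
  rw [mul_one, hinva, map_one, mul_one, mul_one, MulChar.ringHomComp_apply, ← hc, hinv,
    jacobiSum_ringHomComp, jacobiSum_ringHomComp, ← hJ, ← hJ', hcard] at hcount
  have hmodel := locPoly_crv (plc q) 1 (by
    rw [mul_one, Int.cast_ofNat]
    exact h6) (crv (1 : K)) 1 (by rw [one_smul, Int.cast_one])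
  rw [Int.cast_one] at hmodel
  rw [hmodel, ← hτa, hq]
  simp only [map_add, map_sub, map_one, map_mul, aeval_X, map_pow, map_natCast, map_neg, hconja,
    hconj]
  rw [hcount]
  have h3 : τ c * (τ c)⁻¹ = 1 := mul_inv_cancel₀ ha0
  linear_combination (-x ^ 2) * hτJJ - (τ J * τ J' * x ^ 2) * h3

/-- the good places -/
theorem loc_good (S : Finset Pq) (q : Pq) (hq : q ∉ S) (x : ℂ) :
    aeval x (locPoly (Wd S) (plc q)) =
      (1 - em q.1 * (chi S q.1 : ℂ) * x) * (1 - (starRingEnd ℂ) (em q.1) * (chi S q.1 : ℂ) * x) := by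
  classical
  have hchi := chi_recip hq
  have hne : chi S q.1 ≠ 0 := by
    intro h
    obtain ⟨p, hp, hpq⟩ := chi_eq_zero.1 h
    exact Pq_ndvd (p := p) (q := q) (fun e => hq (by rw [← e]; exact hp)) hpq
  have hdl : dl S ∉ (plc q).asIdeal := by
    rw [mem_plc]
    intro h
    exact hne (hchi ▸ qs_eq_zero.2 h)
  have h6 := six_notMem q
  have h2 : (2 : 𝓞 K) ∉ (plc q).asIdeal := fun h => h6 (by
    have e : (6 : 𝓞 K) = 3 * 2 := by norm_num
    rw [e]
    exact Ideal.mul_mem_left _ _ h)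
  have h3 : (3 : 𝓞 K) ∉ (plc q).asIdeal := fun h => h6 (by
    have e : (6 : 𝓞 K) = 2 * 3 := by norm_num
    rw [e]
    exact Ideal.mul_mem_left _ _ h)
  have hmul : ∀ a b : 𝓞 K, a ∉ (plc q).asIdeal → b ∉ (plc q).asIdeal → a * b ∉ (plc q).asIdeal := by
    intro a b ha hb h
    rcases (plc q).isPrime.mem_or_mem h with h | h
    · exact ha h
    · exact hb h
  have hD : ∀ d : 𝓞 K, d ∉ (plc q).asIdeal →
      (⟨0, 0, 0, 0, d⟩ : WeierstrassCurve (𝓞 K)).Δ ∉ (plc q).asIdeal := by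
    intro d hd
    rw [LocG_delta, neg_mul, neg_mem_iff, pow_two]
    exact hmul _ _ (hmul _ _ (hmul _ _ (hmul _ _ (hmul _ _ (hmul _ _ (hmul _ _ h2 h2) h2) h2) h3) h3)
      h3) (hmul _ _ hd hd)
  have hD1 := hD 1 (fun h => (plc q).isPrime.ne_top ((Ideal.eq_top_iff_one _).2 h))
  have hD3 := hD (dl S ^ 3) (by
    rw [pow_succ, pow_two]
    exact hmul _ _ (hmul _ _ hdl hdl) hdl)
  have hc := lt_card (K := K) ⟨0, 0, 0, 0, 1⟩ ⟨0, 0, 0, 0, dl S ^ 3⟩ (dl S)
    (by rw [LocG_c4, LocG_c4]; ring) (by rw [LocG_c6, LocG_c6]; ring) (plc q) h2 h3 hdl hD1 hD3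
  have e1 : locPoly (crv (1 : K)) (plc q) = _ :=
    lt_locPoly (crv (1 : K)) 1 ⟨0, 0, 0, 0, 1⟩ (LocG_model (map_one _)) (plc q) hD1
  have e3 : locPoly (Wd S) (plc q) = _ :=
    lt_locPoly _ 1 ⟨0, 0, 0, 0, dl S ^ 3⟩ (LocG_model (map_pow _ _ _)) (plc q) hD3
  have hone := LocG_one q
  rw [← hchi]
  have hqs : qs q (dl S) = if IsSquare (Ideal.Quotient.mk (plc q).asIdeal (dl S)) then 1 else -1 := by
    rw [qs, if_neg (fun h => hdl (mem_plc.2 h))]
    rfl
  by_cases hs : IsSquare (Ideal.Quotient.mk (plc q).asIdeal (dl S))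
  · rw [hqs, if_pos hs, e3, hc.1 hs, ← e1, hone]
    push_cast
    ring
  · rw [hqs, if_neg hs]
    have h4 := hc.2 hs
    have h5 := hone (-x)
    rw [e1] at h5
    rw [e3]
    simp only [map_add, map_sub, map_one, map_mul, aeval_X, map_pow, eq_intCast, map_intCast] at h5 ⊢
    have h6 : ((Nat.card ((⟨0, 0, 0, 0, 1⟩ : WeierstrassCurve (𝓞 K)).map
        (Ideal.Quotient.mk (plc q).asIdeal)).toAffine.Point : ℕ) : ℂ) +
        ((Nat.card ((⟨0, 0, 0, 0, dl S ^ 3⟩ : WeierstrassCurve (𝓞 K)).map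
        (Ideal.Quotient.mk (plc q).asIdeal)).toAffine.Point : ℕ) : ℂ) = 2 * (nrm (plc q) : ℂ) + 2 := by
      exact_mod_cast h4
    push_cast at h5 ⊢
    linear_combination h5 + x * h6

end

end Pool.Agent.Lib.MP_1a91b9_ntH
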