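import Pool.Agent.Lib.MP_1a91b9_ntH.A.LocB
import Pool.Agent.Lib.MP_1a91b9_ntH.A.Loc3
import Pool.Agent.Lib.MP_1a91b9_ntH.A.LocG

/-!
# TwistDensity, part A: the Euler factors of `Wd S` (imports only)
-/
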