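import Pool.Agent.Lib.MP_1a91b9_ntH.A.Prim
import Pool.Agent.Lib.MP_1a91b9_ntH.A.Loc
import Pool.Agent.Lib.MP_1a91b9_ntX.LF.Ser

/-!
# TwistDensity, part A, file Ser: the L-series of `y² = x³ + δ_S³`
-/

set_option autoImplicit false

namespace Pool.Agent.Lib.MP_1a91b9_ntH

open NumberField IsDedekindDomain Polynomial WeierstrassCurve Filter Topology LSeries
  Pool.Agent.Lib.MP_1a91b9_nt Pool.Agent.Lib.MP_1a91b9_ntT Pool.Agent.Lib.MP_1a91b9_ntT.S7
  Pool.Agent.Lib.MP_1a91b9_ntG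
open Pool.Agent.Lib.MP_1a91b9_ntT.S4 (Lf)

noncomputable section

section gen
variable {W : WeierstrassCurve K} {p : Ideal (𝓞 K) → ℂ} (p1 : p 1 = 1)
  (pmul : ∀ I J, p (I * J) = p I * p J)
  (ple : ∀ I, ‖p I‖ ≤ (Ideal.absNorm I : ℝ) ^ (1 / 2 : ℝ))
include p1 pmul ple

/-- the range `2 < Re s` -/
private theorem Ser_two (hloc : ∀ (v : HeightOneSpectrum (𝓞 K)) (x : ℂ),
      aeval x (locPoly W v) = (1 - p v.asIdeal * x) * (1 - (starRingEnd ℂ) (p v.asIdeal) * x))
    (s : ℂ) (hs : 2 < s.re) :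
    W.LSeries s = Lf p s * Lf (fun I => (starRingEnd ℂ) (p I)) s := by
  have hp := (S4.hasProd_Lf p p1 pmul (1 / 2) (by norm_num) ple s (by linarith)).2
  have hq := (S4.hasProd_Lf (fun I => (starRingEnd ℂ) (p I)) (by rw [p1, map_one])
    (fun I J => by rw [pmul, map_mul]) (1 / 2) (by norm_num)
    (fun I => by rw [RCLike.norm_conj]; exact ple I) s (by linarith)).2
  have hpq := hp.mul hq
  have he := hasProd_fac W hs
  refine he.unique ?_
  have e : (fun w : HeightOneSpectrum (𝓞 K) => fac W w s) = fun w =>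
      (1 - p w.asIdeal * (Ideal.absNorm w.asIdeal : ℂ) ^ (-s))⁻¹ *
      (1 - (starRingEnd ℂ) (p w.asIdeal) * (Ideal.absNorm w.asIdeal : ℂ) ^ (-s))⁻¹ := by
    funext w
    rw [fac, nrm_eq, hloc, mul_inv]
  rw [e]
  exact hpq

private theorem Ser_half (hloc : ∀ (v : HeightOneSpectrum (𝓞 K)) (x : ℂ),
      aeval x (locPoly W v) = (1 - p v.asIdeal * x) * (1 - (starRingEnd ℂ) (p v.asIdeal) * x))
    (s : ℂ) (hs : 3 / 2 < s.re) :
    W.LSeries s = Lf p s * Lf (fun I => (starRingEnd ℂ) (p I)) s := by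
  have hp := hasSum_coefI_of_le p p1 pmul ple
  have hq := hasSum_coefI_of_le (fun I => (starRingEnd ℂ) (p I)) (by rw [p1, map_one])
    (fun I J => by rw [pmul, map_mul]) (fun I => by rw [RCLike.norm_conj]; exact ple I)
  have h1 := half_plane W (LSeries.convolution (coefI p)
    (coefI (fun I => (starRingEnd ℂ) (p I))))
    (fun s hs => ((hp s hs).convolution (hq s hs)).LSeriesSummable)
    (fun s hs => by
      have hs' : 3 / 2 < s.re := by linarith
      rw [Ser_two p1 pmul ple hloc s hs, ((hp s hs').convolution (hq s hs')).LSeries_eq]) s hs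
  rw [h1.2, ((hp s hs).convolution (hq s hs)).LSeries_eq]

omit p1 pmul ple in
private theorem Ser_conj (s : ℂ) :
    Lf (fun I => (starRingEnd ℂ) (p I)) s = (starRingEnd ℂ) (Lf p ((starRingEnd ℂ) s)) := by
  rw [Lf, Lf, Complex.conj_tsum]
  refine tsum_congr fun I => ?_
  rw [map_mul]
  congr 1
  rw [← map_neg, Complex.cpow_conj _ _ (by
    rw [Complex.natCast_arg]
    exact Real.pi_pos.ne), Complex.conj_natCast, Complex.conj_conj]

/-- from `2 < Re s` to `3/2 < Re s` -/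
private theorem Ser_halfL {g : ℂ → ℂ} (hg : Differentiable ℂ g)
    (h2 : ∀ s : ℂ, 2 < s.re → g s = Lf p s) : ∀ s : ℂ, 3 / 2 < s.re → g s = Lf p s := by
  have hq := hasSum_coefI_of_le p p1 pmul ple
  obtain ⟨b, hb⟩ : ∃ b : ℕ → ℂ, b = coefI p := ⟨_, rfl⟩
  rw [← hb] at hq
  have hab : abscissaOfAbsConv b ≤ ((3 / 2 : ℝ) : EReal) := by
    refine LSeries.abscissaOfAbsConv_le_of_forall_lt_LSeriesSummable fun y hy => ?_
    exact (hq y (by simpa using hy)).LSeriesSummable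
  have hL : AnalyticOnNhd ℂ (LSeries b) {s : ℂ | 3 / 2 < s.re} := by
    refine (LSeries_analyticOnNhd b).mono fun s hs => ?_
    exact hab.trans_lt (by exact_mod_cast hs)
  have hG : AnalyticOnNhd ℂ g {s : ℂ | 3 / 2 < s.re} := fun s _ => hg.analyticAt s
  have hc : IsPreconnected {s : ℂ | 3 / 2 < s.re} := (convex_halfSpace_re_gt _).isPreconnected
  have h3 : (3 : ℂ) ∈ {s : ℂ | 3 / 2 < s.re} := by norm_num
  have hev : g =ᶠ[𝓝 (3 : ℂ)] LSeries b := by
    have ho : IsOpen {s : ℂ | 2 < s.re} := isOpen_lt continuous_const Complex.continuous_re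
    filter_upwards [ho.mem_nhds (show (3 : ℂ) ∈ {s : ℂ | 2 < s.re} by norm_num)] with s hs
    have hs' : 2 < s.re := hs
    rw [h2 s hs', (hq s (by linarith)).LSeries_eq]
  intro s hs
  rw [hG.eqOn_of_preconnected_of_eventuallyEq hL hc h3 hev hs, (hq s hs).LSeries_eq]

/-- **The L-series of a curve with the Euler factors of a Hecke character.** -/
theorem Ser_main (hloc : ∀ (v : HeightOneSpectrum (𝓞 K)) (x : ℂ),
      aeval x (locPoly W v) = (1 - p v.asIdeal * x) * (1 - (starRingEnd ℂ) (p v.asIdeal) * x))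
    {L : ℂ → ℂ} (hL : Differentiable ℂ L) (hL2 : ∀ s : ℂ, 2 < s.re → L s = Lf p s) :
    ∃ g : ℂ → ℂ, Differentiable ℂ g ∧ (∀ s : ℂ, 3 / 2 < s.re → g s = W.LSeries s) ∧
      g 1 = L 1 * (starRingEnd ℂ) (L 1) := by
  have hL1 := Ser_halfL p1 pmul ple hL hL2
  refine ⟨fun s => (starRingEnd ℂ) (L ((starRingEnd ℂ) s)) * L s,
    (S4.differentiable_conj_conj hL).mul hL, fun s hs => ?_, ?_⟩
  · change (starRingEnd ℂ) (L ((starRingEnd ℂ) s)) * L s = _
    rw [Ser_half p1 pmul ple hloc s hs, Ser_conj, hL1 s hs,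
      hL1 _ (by rw [Complex.conj_re]; exact hs), mul_comm]
  · change (starRingEnd ℂ) (L ((starRingEnd ℂ) 1)) * L 1 = _
    rw [map_one, mul_comm]

end gen

private theorem Ser_sq {z : ℂ} (h : z ^ 2 = -3) :
    z + (starRingEnd ℂ) z = 0 ∧ z * (starRingEnd ℂ) z = 3 := by
  have hr := congrArg Complex.re h
  have hi := congrArg Complex.im h
  rw [pow_two] at hr hi
  simp only [Complex.mul_re, Complex.mul_im, Complex.neg_re, Complex.neg_im] at hr hi
  have h3r : (3 : ℂ).re = 3 := rfl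
  have h3i : (3 : ℂ).im = 0 := rfl
  rw [h3r] at hr
  rw [h3i] at hi
  have hz : z.re = 0 := by
    have h1 : z.re * z.im = 0 := by linarith
    rcases mul_eq_zero.1 h1 with h2 | h2
    · exact h2
    · exfalso
      rw [h2] at hr
      nlinarith [sq_nonneg z.re]
  rw [hz] at hr
  constructor
  · apply Complex.ext
    · rw [Complex.add_re, Complex.conj_re, hz]
      simp
    · rw [Complex.add_im, Complex.conj_im]
      simp
  · rw [Complex.mul_conj, Complex.normSq_apply, hz]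
    have h1 : (0 : ℝ) * 0 + z.im * z.im = 3 := by linarith
    rw [h1]
    norm_num

/-- the Euler factors of `Wd S` -/
private theorem Ser_loc (S : Finset Pq) {p : Ideal (𝓞 K) → ℂ}
    (hp : ∀ v : HeightOneSpectrum (𝓞 K), v ≠ p3 → p v.asIdeal = pX S v.asIdeal)
    (hp0 : (qd.A S).b = 0 → p p3.asIdeal = 0) (hp1 : (qd.A S).b ≠ 0 → (p p3.asIdeal) ^ 2 = -3)
    (v : HeightOneSpectrum (𝓞 K)) (x : ℂ) :
    aeval x (locPoly (Wd S) v) =
      (1 - p v.asIdeal * x) * (1 - (starRingEnd ℂ) (p v.asIdeal) * x) := by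
  by_cases h3 : s3 ∈ v.asIdeal
  · rw [eq_p3 v h3]
    by_cases hb : (qd.A S).b = 0
    · rw [loc_bad S p3 (Or.inr (Or.inr ⟨by rw [mem_p3], hb⟩)), hp0 hb]
      simp
    · obtain ⟨e1, e2⟩ := Ser_sq (hp1 hb)
      rw [loc_three S p3 (by rw [mem_p3]) hb]
      linear_combination x * e1 - x ^ 2 * e2
  · have hv3 : v ≠ p3 := by
      rintro rfl
      exact h3 (by rw [mem_p3])
    rw [hp v hv3]
    by_cases h2 : (2 : 𝓞 K) ∈ v.asIdeal
    · rw [loc_bad S v (Or.inl h2), pX_bad S v (v.asIdeal.mul_mem_right _ h2)]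
      simp
    · have h6 : (6 : 𝓞 K) ∉ v.asIdeal := by
        rw [six_eq, f0]
        intro h
        rcases v.isPrime.mem_or_mem ((neg_mem_iff).1 h) with h | h
        · rcases v.isPrime.mem_or_mem h with h | h
          · exact h2 h
          · exact h3 h
        · exact h3 h
      obtain ⟨q, rfl⟩ := exists_plc v h6
      rw [pX_plc]
      by_cases hq : q ∈ S
      · have h0 : chi S q.1 = 0 := chi_eq_zero.2 ⟨q, hq, dvd_rfl⟩
        rw [loc_bad S (plc q) (Or.inr (Or.inl ⟨q, hq, rfl⟩)), h0]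
        simp
      · rw [loc_good S q hq]
        simp only [map_mul, Complex.conj_conj]
        have h1 : (starRingEnd ℂ) ((chi S q.1 : ℤ) : ℂ) = ((chi S q.1 : ℤ) : ℂ) := by simp
        rw [h1]
        ring

/-- **The L-series of `Wd S`**: the continuation and the value at `1`. -/
theorem lser_main (S : Finset Pq) : ∃ g : ℂ → ℂ, Differentiable ℂ g ∧
    (∀ s : ℂ, 3 / 2 < s.re → g s = (Wd S).LSeries s) ∧
    g 1 * (if (qd.A S).b = 0 then 1 else 4 / 3) = LS S 1 * (starRingEnd ℂ) (LS S 1) := by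
  obtain ⟨p, L, p1, pmul, ple, hp, hp0, hp1, hL, hL2, hv⟩ := exists_full S
  obtain ⟨g, hg, hg1, hg2⟩ := Ser_main p1 pmul ple (Ser_loc S hp hp0 hp1) hL hL2
  refine ⟨g, hg, hg1, ?_⟩
  rw [hg2, ← hv, map_mul, map_sub, map_one, map_div₀]
  have h3 : (starRingEnd ℂ) (3 : ℂ) = 3 := map_ofNat _ 3
  rw [h3]
  by_cases hb : (qd.A S).b = 0
  · rw [if_pos hb, hp0 hb]
    simp
  · rw [if_neg hb]
    obtain ⟨e1, e2⟩ := Ser_sq (hp1 hb)
    linear_combination (L 1 * (starRingEnd ℂ) (L 1)) * ((1 / 3) * e1 - (1 / 9) * e2)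

end

end Pool.Agent.Lib.MP_1a91b9_ntH
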