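import Pool.Agent.Lib.MP_1a91b9_ntH.A.Res
import Pool.Agent.Lib.MP_1a91b9_ntT.D3.Tors

/-!
# TwistDensity, part A, file Half: `E1` at the sum of the point of order two `1 / 2` and a point of odd order
-/

set_option autoImplicit false

namespace Pool.Agent.Lib.MP_1a91b9_ntH

open NumberField IsDedekindDomain Pool.Agent.Lib.MP_1a91b9_ntT Pool.Agent.Lib.MP_1a91b9_ntG

noncomputable section

/-- `ep ^ 3 = 1 / 2` -/
def ep : ℂ := -(2 * S3.X (1 / 2))⁻¹

theorem Half_mem_iff {z : ℂ} : z ∈ PP.lattice ↔ ∃ a : 𝓞 K, em a = z := S3.mem_PP_iff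

theorem Half_em_inj {x y : 𝓞 K} (h : em x = em y) : x = y :=
  RingOfIntegers.ext (embK.toRingHom.injective h)

theorem Half_notMem : (1 / 2 : ℂ) ∉ PP.lattice := by
  intro h
  obtain ⟨a, ha⟩ := Half_mem_iff.1 h
  apply two_not_isUnit
  refine isUnit_of_dvd_one ⟨a, ?_⟩
  apply Half_em_inj
  rw [Res_em_one, Res_em_mul, Res_em_two, ha]
  norm_num

theorem Half_one_mem : (1 : ℂ) ∈ PP.lattice := Half_mem_iff.2 ⟨1, Res_em_one⟩

theorem Half_X : 4 * S3.X (1 / 2) ^ 3 + 1 = 0 := by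
  rw [← S3.Y_sq Half_notMem, S3.Y, S3.Q_half (by
    rw [show (2 : ℂ) * (1 / 2) = 1 by norm_num]
    exact Half_one_mem)]
  simp

theorem Half_X_ne : S3.X (1 / 2) ≠ 0 := by
  intro h
  have h1 := Half_X
  rw [h] at h1
  norm_num at h1

theorem ep_cube : ep ^ 3 = 1 / 2 := by
  have h1 := Half_X
  have h2 := Half_X_ne
  rw [ep, neg_pow, inv_pow, mul_pow]
  have h3 : S3.X (1 / 2) ^ 3 = -(1 / 4) := by linear_combination (1 / 4) * h1
  rw [h3]
  norm_num

theorem ep_ne : ep ≠ 0 := by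
  intro h
  have h1 := ep_cube
  rw [h] at h1
  norm_num at h1

/-- the chord relation with the point of order two -/
theorem Half_chord {z : ℂ} (hz : 2 * z ∉ PP.lattice) :
    (1 + 2 * ep * S3.X z) * ((E1 (z + 1 / 2) - E1 z) / Om) = ep * S3.Y z := by
  have hO := Om_ne_zero
  have h1 : (1 / 2 : ℂ) - z ∉ PP.lattice := by
    intro h
    apply hz
    have h2 := sub_mem Half_one_mem (S3.mul_int_mem h 2)
    have e : (1 : ℂ) - ((2 : ℤ) : ℂ) * (1 / 2 - z) = 2 * z := by push_cast; ring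
    rwa [e] at h2
  have h2 : (1 / 2 : ℂ) + z ∉ PP.lattice := by
    intro h
    apply hz
    have h2 := sub_mem (S3.mul_int_mem h 2) Half_one_mem
    have e : ((2 : ℤ) : ℂ) * (1 / 2 + z) - 1 = 2 * z := by push_cast; ring
    rwa [e] at h2
  have h := S3.sig hz Half_notMem h1 h2
  have e1 : E1 (1 / 2 - z) = -E1 (z + 1 / 2) := by
    have e : (1 / 2 - z : ℂ) = -(z - 1 / 2) := by ring
    have e' : (z + 1 / 2 : ℂ) = (z - 1 / 2) + 1 := by ring
    rw [e, E1_odd, e', S3.E1_add Half_one_mem]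
  have e2 : (1 / 2 + z : ℂ) = z + 1 / 2 := by ring
  rw [e1, e2] at h
  have h3 : PP.weierstrassP (1 / 2) = Om ^ 2 * S3.X (1 / 2) := by
    rw [S3.X]
    field_simp
  have h4 : PP.weierstrassP z = Om ^ 2 * S3.X z := by
    rw [S3.X]
    field_simp
  have h5 : PP.derivWeierstrassP z = Om ^ 3 * S3.Y z := by
    rw [S3.Y]
    field_simp
  rw [h3, h4, h5] at h
  have h6 : 2 * ep * S3.X (1 / 2) = -1 := by
    have h2 := Half_X_ne
    rw [ep]
    field_simp
  have h7 : Om ^ 2 ≠ 0 := pow_ne_zero _ hO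
  have h8 : 2 * (S3.X z - S3.X (1 / 2)) * (E1 (z + 1 / 2) - E1 z) = Om * S3.Y z := by
    apply mul_left_cancel₀ h7
    linear_combination h
  rw [← mul_div_assoc, div_eq_iff hO]
  linear_combination ep * h8 + (E1 (z + 1 / 2) - E1 z) * h6

theorem Half_odd {m : 𝓞 K} (hm : IsCoprime m (2 : 𝓞 K)) {z : ℂ}
    (hz : ∃ a : 𝓞 K, em a = em m * z) :
    ∃ n : ℕ, Odd n ∧ (n : ℂ) * z ∈ PP.lattice := by
  obtain ⟨k, d, hk, e⟩ := exists_odd_multiple hm
  obtain ⟨a, ha⟩ := hz
  have h1 : (k : ℂ) * z ∈ PP.lattice := by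
    refine Half_mem_iff.2 ⟨d * a, ?_⟩
    rw [Res_em_mul, ha, ← mul_assoc, ← Res_em_mul, ← e, Res_em_int]
  refine ⟨k.natAbs, Int.natAbs_odd.2 hk, ?_⟩
  rcases k.natAbs_eq with h | h
  · have h2 : (k : ℂ) = ((k.natAbs : ℕ) : ℂ) := by
      conv_lhs => rw [h]
      simp
    rwa [h2] at h1
  · have h2 : (k : ℂ) = -((k.natAbs : ℕ) : ℂ) := by
      conv_lhs => rw [h]
      simp
    have h3 : ((k.natAbs : ℕ) : ℂ) * z = -((k : ℂ) * z) := by
      rw [h2]
      ring
    rw [h3]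
    exact neg_mem h1

/-- the values of `E1` at `1/2 + z`, `z` of odd order, `z ≠ 0` -/
theorem e1_half {A : ValuationSubring ℂ} (hA : Two A) {m : 𝓞 K} (hm : IsCoprime m (2 : 𝓞 K)) {z : ℂ}
    (hz : ∃ a : 𝓞 K, em a = em m * z) (hz0 : ¬ ∃ a : 𝓞 K, em a = z) :
    Rs A (E1 (z + 1 / 2) / (Om * ep)) 1 := by
  have hzl : z ∉ PP.lattice := fun h => hz0 (Half_mem_iff.1 h)
  obtain ⟨n, hn, hnz⟩ := Half_odd hm hz
  have h2z : 2 * z ∉ PP.lattice := by
    intro h
    apply hzl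
    obtain ⟨k, hk⟩ := hn
    have h1 := sub_mem hnz (S3.mul_int_mem h k)
    have e : (n : ℂ) * z - ((k : ℤ) : ℂ) * (2 * z) = z := by
      rw [hk]
      push_cast
      ring
    rwa [e] at h1
  have hX : A.valuation (S3.X z) ≤ 1 := (A.valuation_le_one_iff _).2 (S3.X_mem hA hn hnz hzl)
  have hE : A.valuation (E1 z / Om) ≤ 1 := (A.valuation_le_one_iff _).2 (S3.E1_mem hA hn hnz)
  have hO := Om_ne_zero
  have hep := ep_ne
  have h2 : A.valuation (2 : ℂ) < 1 := S3.v_two_lt hA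
  -- the valuation of `1 / ep` and of `2 ep`
  have hvi : A.valuation (ep⁻¹) < 1 := by
    by_contra h
    push Not at h
    have h1 : 1 ≤ A.valuation (ep⁻¹) ^ 3 := one_le_pow₀ h
    rw [← map_pow, inv_pow, ep_cube] at h1
    have e : ((1 / 2 : ℂ))⁻¹ = 2 := by norm_num
    rw [e] at h1
    exact absurd h2 (not_lt.2 h1)
  have hve : A.valuation (2 * ep) < 1 := by
    have e : 2 * ep = (ep⁻¹) ^ 2 := by
      rw [inv_pow]
      have h1 := ep_cube
      field_simp
      linear_combination 2 * h1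
    rw [e, map_pow]
    exact pow_lt_one₀ zero_le hvi two_ne_zero
  -- the denominator
  have hden : Rs A (1 + 2 * ep * S3.X z) 1 := by
    refine Rs.congr Rs.one ?_
    have e : 1 + 2 * ep * S3.X z - 1 = 2 * ep * S3.X z := by ring
    rw [e, map_mul]
    exact mul_lt_one_of_lt_of_le hve hX
  have hden0 : 1 + 2 * ep * S3.X z ≠ 0 := by
    intro h
    have h1 := hden.unit hA one_ne_zero
    rw [h, map_zero] at h1
    exact zero_ne_one h1
  -- the numerator
  have hY : Rs A (S3.Y z) 1 := by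
    refine Rs.congr Rs.one ?_
    set y : ℂ := (S3.Y z - 1) / 2 with hy
    have e : S3.Y z - 1 = 2 * y := by
      rw [hy]
      ring
    have hyy : y * (y + 1) = S3.X z ^ 3 := by
      have h1 := S3.Y_sq hzl
      rw [hy]
      linear_combination (1 / 4) * h1
    have hvy : A.valuation y ≤ 1 := by
      by_contra h
      push Not at h
      have h3 : A.valuation (y + 1) = A.valuation y := by
        rw [A.valuation.map_add_eq_of_lt_left (by rw [map_one]; exact h)]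
      have h4 : A.valuation (y * (y + 1)) ≤ 1 := by
        rw [hyy, map_pow]
        exact pow_le_one' hX 3
      rw [map_mul, h3, ← pow_two] at h4
      exact absurd (one_lt_pow₀ h two_ne_zero) (not_lt.2 h4)
    rw [e, map_mul]
    exact mul_lt_one_of_lt_of_le h2 hvy
  have h7 : E1 (z + 1 / 2) / (Om * ep) =
      S3.Y z * (1 + 2 * ep * S3.X z)⁻¹ + (E1 z / Om) * ep⁻¹ := by
    have h8 := Half_chord h2z
    have h9 : (E1 (z + 1 / 2) - E1 z) / Om = ep * S3.Y z * (1 + 2 * ep * S3.X z)⁻¹ := by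
      rw [← h8, mul_comm (1 + 2 * ep * S3.X z), mul_assoc, mul_inv_cancel₀ hden0, mul_one]
    have h10 : E1 (z + 1 / 2) / (Om * ep) =
        ((E1 (z + 1 / 2) - E1 z) / Om) * ep⁻¹ + (E1 z / Om) * ep⁻¹ := by
      field_simp
      ring
    rw [h10, h9]
    congr 1
    field_simp
  rw [h7]
  have h11 : Rs A ((E1 z / Om) * ep⁻¹) 0 := by
    rw [Rs.zero_iff hA, map_mul, mul_comm]
    exact mul_lt_one_of_lt_of_le hvi hE
  have h12 := (hY.mul (hden.inv hA)).add h11
  rwa [mul_one, add_zero] at h12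

theorem e1_cls {A : ValuationSubring ℂ} (hA : Two A) {m c : 𝓞 K} (hm : (2 : 𝓞 K) ∣ m - 1)
    (hc : (2 : 𝓞 K) ∣ c - 1) (h : ¬ m ∣ c) :
    Rs A (E1 (em c / em (2 * m)) / (Om * ep)) 1 := by
  have hm2 : IsCoprime m (2 : 𝓞 K) := by
    obtain ⟨d, hd⟩ := hm
    exact ⟨1, -d, by linear_combination hd⟩
  have hm0 : em m ≠ 0 := by
    intro h0
    have h1 : m = 0 := Half_em_inj (by rw [h0, Res_em_zero])
    rw [h1] at hm2
    exact two_not_isUnit (isCoprime_zero_left.1 hm2)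
  obtain ⟨d, hd⟩ : (2 : 𝓞 K) ∣ c - m := by
    have e : c - m = (c - 1) - (m - 1) := by ring
    rw [e]
    exact dvd_sub hc hm
  have e : em c / em (2 * m) = em d / em m + 1 / 2 := by
    have e1 : c = m + 2 * d := by linear_combination hd
    rw [e1, Res_em_add, Res_em_mul, Res_em_mul, Res_em_two]
    field_simp
    ring
  rw [e]
  refine e1_half hA hm2 ⟨d, ?_⟩ ?_
  · field_simp
  · rintro ⟨b, hb⟩
    apply h
    refine ⟨1 + 2 * b, ?_⟩
    have h3 : d = m * b := by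
      apply Half_em_inj
      rw [Res_em_mul, hb]
      field_simp
    linear_combination hd + 2 * h3

end

end Pool.Agent.Lib.MP_1a91b9_ntH
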