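import Pool.Agent.Lib.MP_1a91b9_ntH.A.Chi

/-!
# TwistDensity, part A, file Rep: representatives of the classes
-/

set_option autoImplicit false

namespace Pool.Agent.Lib.MP_1a91b9_ntH

open NumberField IsDedekindDomain Pool.Agent.Lib.MP_1a91b9_ntT Pool.Agent.Lib.MP_1a91b9_ntG

noncomputable section

/-- representatives modulo `ν` of the elements prime to `ν` and congruent to `1` modulo `2 √-3` -/
structure Reps (ν : 𝓞 K) {ι : Type} (c : ι → 𝓞 K) : Prop where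
  ne : ν ≠ 0
  dvd : (6 : 𝓞 K) ∣ ν
  fx : ∀ i, f0 ∣ c i - 1
  cop : ∀ i, IsCoprime (c i) ν
  ex : ∀ a : 𝓞 K, IsCoprime a ν → f0 ∣ a - 1 → ∃ i, ν ∣ a - c i
  inj : ∀ i j, ν ∣ c i - c j → i = j

theorem Rep_s3_int {n : ℤ} (h : s3 ∣ (n : 𝓞 K)) : (3 : ℤ) ∣ n := by
  obtain ⟨c, hc⟩ := h
  obtain ⟨p, q, rfl⟩ := coord c
  have e : (n : 𝓞 K) + ((0 : ℤ) : 𝓞 K) * wO =
      ((p - 2 * q : ℤ) : 𝓞 K) + ((2 * p - q : ℤ) : 𝓞 K) * wO := by
    rw [hc, s3]
    push_cast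
    linear_combination 2 * (q : 𝓞 K) * wO_quad
  obtain ⟨h1, h2⟩ := coords_inj e
  exact ⟨-p, by omega⟩

/-- every element is congruent to `0`, `1` or `2` modulo `√-3` -/
theorem Rep_mod_s3 (a : 𝓞 K) : ∃ j : Fin 3, s3 ∣ a - ((j : ℕ) : 𝓞 K) := by
  rcases exists_mod_s3 a with h | h | h
  · exact ⟨0, by simpa using h⟩
  · exact ⟨1, by simpa using h⟩
  · refine ⟨2, ?_⟩
    have e : a - (((2 : Fin 3) : ℕ) : 𝓞 K) = (a + 1) - 3 := by
      change a - ((2 : ℕ) : 𝓞 K) = _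
      push_cast
      ring
    rw [e]
    exact dvd_sub h s3_dvd_three

theorem Rep_s3_f0 : s3 ∣ f0 := ⟨2, by rw [f0]; ring⟩

theorem Rep_f0_cop {a : 𝓞 K} (h : f0 ∣ a - 1) : IsCoprime a (6 : 𝓞 K) := by
  obtain ⟨c, hc⟩ := h
  have h1 : IsCoprime a f0 := ⟨1, -c, by linear_combination hc⟩
  have h2 : IsCoprime a s3 := h1.of_isCoprime_of_dvd_right Rep_s3_f0
  have h3 := (h1.mul_right h2).neg_right
  rwa [← six_eq] at h3

theorem Rep_prime_iff (q : Pq) (x : 𝓞 K) : IsCoprime q.1 x ↔ ¬ q.1 ∣ x :=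
  q.2.1.irreducible.coprime_iff_not_dvd

theorem Rep_step {q : Pq} {ν : 𝓞 K} (hν : IsCoprime q.1 ν) {ι κ : Type} {c : ι → 𝓞 K}
    (h : Reps ν c) {r : κ → 𝓞 K} (h0 : ∀ k, ¬ q.1 ∣ r k)
    (hex : ∀ a : 𝓞 K, ¬ q.1 ∣ a → ∃ k, q.1 ∣ a - r k) (hinj : ∀ i j, q.1 ∣ r i - r j → i = j) :
    ∃ d : ι × κ → 𝓞 K, Reps (q.1 * ν) d ∧ (∀ i, ν ∣ d i - c i.1) ∧ ∀ i, q.1 ∣ d i - r i.2 := by
  obtain ⟨u, v, huv⟩ := hν
  have h1 : ∀ i : ι × κ, ν ∣ (c i.1 * (u * q.1) + r i.2 * (v * ν)) - c i.1 := fun i =>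
    ⟨v * (r i.2 - c i.1), by linear_combination c i.1 * huv⟩
  have h2 : ∀ i : ι × κ, q.1 ∣ (c i.1 * (u * q.1) + r i.2 * (v * ν)) - r i.2 := fun i =>
    ⟨u * (c i.1 - r i.2), by linear_combination r i.2 * huv⟩
  have hcop : IsCoprime q.1 ν := ⟨u, v, huv⟩
  have hf : f0 ∣ ν := (f0_dvd_six).trans h.dvd
  refine ⟨fun i => c i.1 * (u * q.1) + r i.2 * (v * ν), ⟨?_, ?_, ?_, ?_, ?_, ?_⟩, h1, h2⟩
  · exact mul_ne_zero q.2.1.ne_zero h.ne
  · exact h.dvd.mul_left _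
  · intro i
    have h3 := dvd_add (hf.trans (h1 i)) (h.fx i.1)
    rwa [sub_add_sub_cancel] at h3
  · intro i
    have h3 : IsCoprime (c i.1 * (u * q.1) + r i.2 * (v * ν)) ν := by
      obtain ⟨t, ht⟩ := h1 i
      obtain ⟨x, y, hxy⟩ := h.cop i.1
      exact ⟨x, y - x * t, by linear_combination x * ht + hxy⟩
    have h4 : IsCoprime (c i.1 * (u * q.1) + r i.2 * (v * ν)) q.1 := by
      apply IsCoprime.symm
      rw [Rep_prime_iff]
      intro h5
      apply h0 i.2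
      have h6 := dvd_sub h5 (h2 i)
      rwa [sub_sub_cancel] at h6
    exact h4.mul_right h3
  · intro a ha hfa
    obtain ⟨i, hi⟩ := h.ex a (ha.of_isCoprime_of_dvd_right (dvd_mul_left _ _)) hfa
    have ha' : ¬ q.1 ∣ a := by
      rw [← Rep_prime_iff]
      exact (ha.of_isCoprime_of_dvd_right (dvd_mul_right _ _)).symm
    obtain ⟨k, hk⟩ := hex a ha'
    refine ⟨(i, k), hcop.mul_dvd ?_ ?_⟩
    · have h3 := dvd_sub hk (h2 (i, k))
      have e : a - r k - (c i * (u * q.1) + r k * (v * ν) - r k) =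
          a - (c i * (u * q.1) + r k * (v * ν)) := by ring
      rwa [e] at h3
    · have h3 := dvd_sub hi (h1 (i, k))
      have e : a - c i - (c i * (u * q.1) + r k * (v * ν) - c i) =
          a - (c i * (u * q.1) + r k * (v * ν)) := by ring
      rwa [e] at h3
  · intro i j hij
    have h3 : ν ∣ c i.1 - c j.1 := by
      have h4 := dvd_sub (((dvd_mul_left _ _).trans hij)) (dvd_sub (h1 i) (h1 j))
      have e : (c i.1 * (u * q.1) + r i.2 * (v * ν) - (c j.1 * (u * q.1) + r j.2 * (v * ν))) -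
          ((c i.1 * (u * q.1) + r i.2 * (v * ν)) - c i.1 -
            ((c j.1 * (u * q.1) + r j.2 * (v * ν)) - c j.1)) = c i.1 - c j.1 := by ring
      rwa [e] at h4
    have h4 : q.1 ∣ r i.2 - r j.2 := by
      have h4 := dvd_sub (((dvd_mul_right _ _).trans hij)) (dvd_sub (h2 i) (h2 j))
      have e : (c i.1 * (u * q.1) + r i.2 * (v * ν) - (c j.1 * (u * q.1) + r j.2 * (v * ν))) -
          ((c i.1 * (u * q.1) + r i.2 * (v * ν)) - r i.2 -
            ((c j.1 * (u * q.1) + r j.2 * (v * ν)) - r j.2)) = r i.2 - r j.2 := by ring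
      rwa [e] at h4
    exact Prod.ext (h.inj _ _ h3) (hinj _ _ h4)

theorem Rep_local (q : Pq) : ∃ (κ : Type) (_ : Fintype κ) (r : κ → 𝓞 K), (∀ k, ¬ q.1 ∣ r k) ∧
    (∀ a : 𝓞 K, ¬ q.1 ∣ a → ∃ k, q.1 ∣ a - r k) ∧ ∀ i j, q.1 ∣ r i - r j → i = j := by
  classical
  have hb : Ideal.span {q.1} ≠ (⊥ : Ideal (𝓞 K)) := by
    rw [Ne, Ideal.span_singleton_eq_bot]
    exact q.2.1.ne_zero
  have : Finite (𝓞 K ⧸ Ideal.span {q.1}) := Ideal.finiteQuotientOfFreeOfNeBot _ hb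
  have hs := Ideal.Quotient.mk_surjective (I := Ideal.span {q.1})
  let r : {x : 𝓞 K ⧸ Ideal.span {q.1} // x ≠ 0} → 𝓞 K := fun x => (hs x.1).choose
  have hr : ∀ x, Ideal.Quotient.mk (Ideal.span {q.1}) (r x) = x.1 := fun x => (hs x.1).choose_spec
  have hd : ∀ a : 𝓞 K, q.1 ∣ a ↔ Ideal.Quotient.mk (Ideal.span {q.1}) a = 0 := fun a => by
    rw [Ideal.Quotient.eq_zero_iff_mem, Ideal.mem_span_singleton]
  refine ⟨_, Fintype.ofFinite _, r, ?_, ?_, ?_⟩
  · intro k hk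
    rw [hd, hr] at hk
    exact k.2 hk
  · intro a ha
    rw [hd] at ha
    refine ⟨⟨_, ha⟩, ?_⟩
    rw [hd, map_sub, hr, sub_self]
  · intro i j hij
    rw [hd, map_sub, hr, hr, sub_eq_zero] at hij
    exact Subtype.ext hij

/-- representatives exist, and the weighted number of the classes which are squares modulo all `q ∈ D` -/
theorem exists_reps (D : Finset Pq) : ∃ (ι : Type) (_ : Fintype ι) (c : ι → 𝓞 K),
    Reps (6 * DD D) c ∧
      ∑ i, ∏ q ∈ D, (1 + qs q (c i)) = 3 * ∏ q ∈ D, ((Nz q.1 : ℤ) - 1) := by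
  classical
  induction D using Finset.induction_on with
  | empty =>
    have hD : DD ∅ = 1 := by rw [DD, Finset.prod_empty]
    refine ⟨Fin 3, inferInstance, fun j => 1 + f0 * ((j : ℕ) : 𝓞 K), ⟨?_, ?_, ?_, ?_, ?_, ?_⟩, ?_⟩
    · rw [hD, mul_one, six_eq, neg_ne_zero]
      exact mul_ne_zero f0_ne s3_ne
    · exact dvd_mul_right _ _
    · intro i
      exact ⟨((i : ℕ) : 𝓞 K), by ring⟩
    · intro i
      rw [hD, mul_one]
      exact Rep_f0_cop ⟨((i : ℕ) : 𝓞 K), by ring⟩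
    · intro a ha hfa
      obtain ⟨t, ht⟩ := hfa
      obtain ⟨j, x, hx⟩ := Rep_mod_s3 t
      refine ⟨j, -x, ?_⟩
      rw [hD, mul_one, six_eq]
      linear_combination ht + f0 * hx
    · intro i j hij
      rw [hD, mul_one, six_eq] at hij
      obtain ⟨x, hx⟩ := hij
      have h1 : s3 ∣ (((i : ℕ) : ℤ) - ((j : ℕ) : ℤ) : ℤ) := by
        refine ⟨-x, ?_⟩
        apply mul_left_cancel₀ f0_ne
        push_cast
        linear_combination hx
      have h2 := Rep_s3_int h1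
      have h3 := i.2
      have h4 := j.2
      apply Fin.ext
      omega
    · simp
  | insert q D hq ih =>
    obtain ⟨ι, _, c, hc, hs⟩ := ih
    obtain ⟨κ, _, r, h0, hex, hinj⟩ := Rep_local q
    have hcop : IsCoprime q.1 (6 * DD D) := by
      refine (Rep_f0_cop (f0_dvd q)).mul_right ?_
      rw [DD]
      refine IsCoprime.prod_right fun p hp => ?_
      rw [Rep_prime_iff]
      exact Pq_ndvd fun e => hq (e ▸ hp)
    obtain ⟨d, hd, h1, h2⟩ := Rep_step hcop hc h0 hex hinj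
    have e : 6 * DD (insert q D) = q.1 * (6 * DD D) := by
      rw [DD, Finset.prod_insert hq, DD]
      ring
    refine ⟨ι × κ, inferInstance, d, by rw [e]; exact hd, ?_⟩
    have h3 : ∀ i : ι × κ, ∏ p ∈ insert q D, (1 + qs p (d i)) =
        (∏ p ∈ D, (1 + qs p (c i.1))) * (1 + qs q (r i.2)) := by
      intro i
      rw [Finset.prod_insert hq, mul_comm, qs_congr (h2 i)]
      congr 1
      refine Finset.prod_congr rfl fun p hp => ?_
      rw [qs_congr]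
      refine dvd_trans ?_ (h1 i)
      exact (Finset.dvd_prod_of_mem (fun p : Pq => p.1) hp).trans (dvd_mul_left _ _)
    rw [Fintype.sum_congr _ _ h3, Fintype.sum_prod_type, Finset.prod_insert hq]
    simp only
    rw [← Finset.sum_mul_sum]
    rw [hs, qs_sum q r h0 hex hinj]
    ring

end

end Pool.Agent.Lib.MP_1a91b9_ntH
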