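import Pool.Agent.Lib.MP_1a91b9_ntH.D.Defs

/-!
# MP_1a91b9_nt (TwistDensity), part A: the determinant identity (L1)
-/

set_option autoImplicit false

namespace Pool.Agent.Lib.MP_1a91b9_ntH

open Finset

noncomputable section

namespace L1

variable {R : Type} [Field R] {σ : Type} [Fintype σ] [DecidableEq σ]

/-- The row of a vertex. -/
def rowMap (T : Finset σ) (i : σ) : (Option (Option σ) → R) →ₗ[R] (σ → R) where
  toFun v j := if i ∈ T then
      (if j = i then v none + ∑ k ∈ T.erase i, v (some (some k)) else
        if j ∈ T then v (some (some j)) else 0)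
    else (if j = i then v (some none) + ∑ k ∈ T, v (some (some k)) else 0)
  map_add' := by
    intro u v
    ext j
    simp only [Pi.add_apply]
    split_ifs
    · rw [sum_add_distrib]; ring
    · rfl
    · ring
    · rw [sum_add_distrib]; ring
    · ring
  map_smul' := by
    intro c v
    ext j
    simp only [Pi.smul_apply, smul_eq_mul, RingHom.id_apply]
    split_ifs
    · rw [mul_add, mul_sum]
    · rfl
    · ring
    · rw [mul_add, mul_sum]
    · ring

omit [Fintype σ] in
theorem rowMap_apply (T : Finset σ) (i : σ) (v : Option (Option σ) → R) (j : σ) :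
    rowMap T i v j = if i ∈ T then
      (if j = i then v none + ∑ k ∈ T.erase i, v (some (some k)) else
        if j ∈ T then v (some (some j)) else 0)
    else (if j = i then v (some none) + ∑ k ∈ T, v (some (some k)) else 0) := rfl

/-- The matrix of a family of basis vectors. -/
def Bm (R : Type) [Field R] (φ : σ → Option (Option σ)) (T : Finset σ) : Matrix σ σ R :=
  Matrix.of fun i => rowMap T i (Pi.single (φ i) (1 : R))

omit [Fintype σ] in
theorem Bm_apply (φ : σ → Option (Option σ)) (T : Finset σ) (i j : σ) :
    Bm R φ T i j = if i ∈ T then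
      (if j = i then (if φ i = none then 1 else 0) +
        ∑ k ∈ T.erase i, (if φ i = some (some k) then 1 else 0) else
        if j ∈ T then (if φ i = some (some j) then 1 else 0) else 0)
    else (if j = i then (if φ i = some none then 1 else 0) +
        ∑ k ∈ T, (if φ i = some (some k) then 1 else 0) else 0) := by
  have h : ∀ x : Option (Option σ), (Pi.single (φ i) (1 : R) : Option (Option σ) → R) x =
      if φ i = x then 1 else 0 := by
    intro x
    rw [Pi.single_apply]
    by_cases hx : φ i = x
    · rw [if_pos hx, if_pos hx.symm]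
    · rw [if_neg hx, if_neg fun h => hx h.symm]
  rw [Bm, Matrix.of_apply, rowMap_apply]
  simp only [h]

omit [Fintype σ] in
theorem sum_some {φ : σ → Option (Option σ)} {i k : σ} (h : φ i = some (some k)) (W : Finset σ) :
    ∑ k' ∈ W, (if φ i = some (some k') then (1 : R) else 0) = if k ∈ W then 1 else 0 := by
  have : ∀ k', (φ i = some (some k')) ↔ k' = k := by
    intro k'
    rw [h, Option.some_inj, Option.some_inj]
    exact eq_comm
  simp only [this]
  rw [sum_ite_eq']

omit [Fintype σ] in
theorem sum_other {φ : σ → Option (Option σ)} {i : σ} (h : ∀ k, φ i ≠ some (some k))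
    (W : Finset σ) : ∑ k' ∈ W, (if φ i = some (some k') then (1 : R) else 0) = 0 :=
  sum_eq_zero fun k' _ => if_neg (h k')

omit [Fintype σ] in
/-- The row of a vertex with the parent `k`. -/
theorem Bm_some {φ : σ → Option (Option σ)} {i k : σ} (h : φ i = some (some k)) (T : Finset σ)
    (j : σ) : Bm R φ T i j = if i ∈ T then
      (if k ∈ T ∧ k ≠ i ∧ (j = i ∨ j = k) then 1 else 0)
    else (if j = i ∧ k ∈ T then 1 else 0) := by
  rw [Bm_apply, sum_some h, sum_some h]
  have h1 : φ i ≠ none := by rw [h]; exact Option.some_ne_none _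
  have h2 : φ i ≠ some none := by rw [h]; simp
  have h3 : (φ i = some (some j)) ↔ j = k := by
    rw [h, Option.some_inj, Option.some_inj]
    exact eq_comm
  simp only [h1, h2, h3, if_false, zero_add, mem_erase]
  by_cases hi : i ∈ T
  · rw [if_pos hi, if_pos hi]
    by_cases hj : j = i
    · rw [if_pos hj]
      subst hj
      by_cases hk : k ≠ j ∧ k ∈ T
      · rw [if_pos hk, if_pos ⟨hk.2, hk.1, Or.inl rfl⟩]
      · rw [if_neg hk, if_neg fun h => hk ⟨h.2.1, h.1⟩]
    · rw [if_neg hj]
      by_cases hjT : j ∈ T
      · rw [if_pos hjT]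
        by_cases hjk : j = k
        · subst hjk
          rw [if_pos rfl, if_pos ⟨hjT, hj, Or.inr rfl⟩]
        · rw [if_neg hjk, if_neg fun h => h.2.2.elim hj hjk]
      · rw [if_neg hjT, if_neg]
        rintro ⟨h4, _, h5 | h5⟩
        · exact hj h5
        · rw [h5] at hjT
          exact hjT h4
  · rw [if_neg hi, if_neg hi]
    by_cases hj : j = i
    · simp [hj]
    · simp [hj]

theorem case_diag (φ : σ → Option (Option σ)) (h : ∀ i k, φ i ≠ some (some k)) :
    ∑ T : Finset σ, (Bm R φ T).det = 1 := by
  have hd : ∀ T : Finset σ, (Bm R φ T).det =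
      ∏ i, (if i ∈ T then (if φ i = none then (1 : R) else 0) else
        (if φ i = some none then 1 else 0)) := by
    intro T
    have : Bm R φ T = Matrix.diagonal fun i => (if i ∈ T then (if φ i = none then (1 : R) else 0) else
        (if φ i = some none then 1 else 0)) := by
      ext i j
      rw [Bm_apply, sum_other (h i), sum_other (h i)]
      by_cases hj : j = i
      · subst hj
        rw [Matrix.diagonal_apply_eq]
        simp
      · rw [Matrix.diagonal_apply_ne _ (fun e => hj e.symm)]
        simp [hj, h i j]
    rw [this, Matrix.det_diagonal]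
  simp only [hd]
  rw [sum_eq_single (univ.filter fun i => φ i = none)]
  · refine prod_eq_one fun i _ => ?_
    rcases hφ : φ i with _ | _ | k
    · simp [hφ]
    · simp [hφ]
    · exact absurd hφ (h i k)
  · intro T _ hT
    have : ∃ i, ¬ (i ∈ T ↔ φ i = none) := by
      by_contra hc
      push Not at hc
      apply hT
      ext i
      rw [mem_filter]
      exact ⟨fun hi => ⟨mem_univ _, (hc i).1 hi⟩, fun hi => (hc i).2 hi.2⟩
    obtain ⟨i, hi⟩ := this
    refine prod_eq_zero (mem_univ i) ?_
    by_cases hiT : i ∈ T
    · rw [if_pos hiT, if_neg fun e => hi ⟨fun _ => e, fun _ => hiT⟩]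
    · rw [if_neg hiT, if_neg]
      intro e
      apply hi
      rw [e]
      simp [hiT]
  · intro h1
    exact absurd (mem_univ _) h1

theorem case_leaf [CharP R 2] (φ : σ → Option (Option σ)) {i k : σ} (h : φ i = some (some k))
    (hleaf : ∀ j, φ j ≠ some (some i)) : ∑ T : Finset σ, (Bm R φ T).det = 0 := by
  have hki : k ≠ i := by
    rintro rfl
    exact hleaf k h
  have hu : (univ : Finset (Finset σ)) = (insert i (univ.erase i)).powerset := by
    rw [insert_erase (mem_univ i), powerset_univ]
  rw [hu, sum_powerset_insert (notMem_erase i univ), ← sum_add_distrib]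
  refine sum_eq_zero fun T hT => ?_
  have hiT : i ∉ T := fun hi => notMem_erase i univ ((mem_powerset.1 hT) hi)
  have hcol : ∀ j, j ≠ i → Bm R φ T j i = 0 := by
    intro j hj
    rw [Bm_apply]
    by_cases hjT : j ∈ T
    · rw [if_pos hjT, if_neg (fun e => hj e.symm), if_neg hiT]
    · rw [if_neg hjT, if_neg (fun e => hj e.symm)]
  have e : Bm R φ (insert i T) = (Bm R φ T).updateRow i
      ((Bm R φ T) i + fun j => if j = k ∧ k ∈ T then 1 else 0) := by
    ext j j'
    rw [Matrix.updateRow_apply]
    by_cases hj : j = i
    · subst hj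
      rw [if_pos rfl, Pi.add_apply, Bm_some h, Bm_some h, if_pos (mem_insert_self _ _),
        if_neg hiT]
      simp only [mem_insert, hki, false_or, ne_eq, not_false_eq_true, true_and]
      by_cases hkT : k ∈ T
      · by_cases h1 : j' = j
        · have h9 : ¬ j = k := fun e => hki e.symm
          simp [h1, hkT, h9]
        · by_cases h2 : j' = k
          · simp [h2, hkT, hki]
          · simp [h1, h2]
      · simp [hkT]
    · rw [if_neg hj, Bm_apply, Bm_apply]
      have h1 : (j ∈ insert i T) ↔ j ∈ T := by simp [hj]
      have h2 : ∀ W : Finset σ, i ∉ W → ∑ k' ∈ insert i W, (if φ j = some (some k') then (1 : R) else 0) =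
          ∑ k' ∈ W, (if φ j = some (some k') then (1 : R) else 0) := by
        intro W hW
        rw [sum_insert hW, if_neg (hleaf j), zero_add]
      have h3 : (insert i T).erase j = insert i (T.erase j) :=
        erase_insert_of_ne fun e => hj e.symm
      rw [h3, h2 _ (fun h => hiT (mem_of_mem_erase h)), h2 _ hiT]
      simp only [h1]
      by_cases h4 : j' = i
      · subst h4
        have h5 : j' ≠ j := fun e => hj e.symm
        simp [h5, hiT, hleaf j]
      · simp [h4]
  have hz : ((Bm R φ T).updateRow i fun j => if j = k ∧ k ∈ T then 1 else 0).det = 0 := by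
    refine Matrix.det_eq_zero_of_column_eq_zero i fun j => ?_
    rw [Matrix.updateRow_apply]
    by_cases hj : j = i
    · rw [if_pos hj, if_neg]
      rintro ⟨e, _⟩
      exact hki e.symm
    · rw [if_neg hj]
      exact hcol j hj
  rw [e, Matrix.det_updateRow_add, hz, add_zero, Matrix.updateRow_eq_self]
  exact CharTwo.add_self_eq_zero _

theorem case_cycle [CharP R 2] (φ : σ → Option (Option σ)) {i0 k0 : σ} (h0 : φ i0 = some (some k0))
    (hno : ∀ i k, φ i = some (some k) → ∃ j, φ j = some (some i)) (T : Finset σ) :
    (Bm R φ T).det = 0 := by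
  classical
  set g : σ → σ := fun i => ((φ i).bind id).getD i with hg
  have hgk : ∀ i k, φ i = some (some k) → g i = k := by
    intro i k h
    simp [hg, h]
  set P : Finset σ := univ.filter fun i => ∃ k, φ i = some (some k) with hP
  have hPm : ∀ i, i ∈ P → φ i = some (some (g i)) := by
    intro i hi
    obtain ⟨k, hk⟩ := (mem_filter.1 hi).2
    rw [hgk i k hk, hk]
  by_cases hrow : ∃ i ∈ P, g i ∉ T ∨ g i = i
  · obtain ⟨i, hiP, hi⟩ := hrow
    refine Matrix.det_eq_zero_of_row_eq_zero i fun j => ?_
    rw [Bm_some (hPm i hiP)]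
    by_cases hiT : i ∈ T
    · rw [if_pos hiT, if_neg]
      rintro ⟨h1, h2, _⟩
      exact hi.elim (fun h => h h1) h2
    · rw [if_neg hiT, if_neg]
      rintro ⟨_, h1⟩
      rcases hi with h | h
      · exact h h1
      · rw [h] at h1
        exact hiT h1
  · push Not at hrow
    have hsub : P ⊆ P.image g := by
      intro i hi
      obtain ⟨j, hj⟩ := hno i _ (hPm i hi)
      rw [mem_image]
      exact ⟨j, mem_filter.2 ⟨mem_univ _, i, hj⟩, hgk j i hj⟩
    have himg : P = P.image g := eq_of_subset_of_card_le hsub card_image_le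
    have hinj : Set.InjOn g P := by
      rw [← card_image_iff, ← himg]
    have hPT : ∀ i ∈ P, i ∈ T := by
      intro i hi
      rw [himg, mem_image] at hi
      obtain ⟨j, hj, rfl⟩ := hi
      exact (hrow j hj).1
    rw [← Matrix.exists_vecMul_eq_zero_iff]
    refine ⟨fun i => if i ∈ P then 1 else 0, ?_, ?_⟩
    · intro h
      have h1 := congrFun h i0
      have h2 : i0 ∈ P := mem_filter.2 ⟨mem_univ _, k0, h0⟩
      simp [h2] at h1
    · ext j
      rw [Matrix.vecMul, dotProduct]
      simp only [ite_mul, one_mul, zero_mul]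
      rw [sum_ite_mem, univ_inter]
      have h1 : ∀ i ∈ P, Bm R φ T i j = (if j = i then 1 else 0) + (if j = g i then 1 else 0) := by
        intro i hi
        rw [Bm_some (hPm i hi), if_pos (hPT i hi)]
        have h2 := hrow i hi
        by_cases h3 : j = i
        · subst h3
          have h9 : ¬ j = g j := fun e => h2.2 e.symm
          simp [h2.1, h2.2, h9]
        · by_cases h4 : j = g i
          · subst h4
            simp [h2.1, h2.2]
          · simp [h3, h4]
      rw [sum_congr rfl h1, sum_add_distrib]
      have h2 : ∑ i ∈ P, (if j = g i then (1 : R) else 0) = ∑ i ∈ P.image g, (if j = i then (1 : R) else 0) := by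
        rw [sum_image hinj]
      rw [h2, ← himg]
      exact CharTwo.add_self_eq_zero _

theorem main [CharP R 2] (v : σ → Option (Option σ) → R) :
    ∑ T : Finset σ, (Matrix.of fun i => rowMap T i (v i)).det = ∏ i, (v i none + v i (some none)) := by
  classical
  let F : MultilinearMap R (fun _ : σ => (Option (Option σ) → R)) R :=
    ∑ T : Finset σ, (Matrix.detRowAlternating (n := σ) (R := R)).toMultilinearMap.compLinearMap
      (fun i => rowMap T i)
  let L : (Option (Option σ) → R) →ₗ[R] R :=
    LinearMap.proj (R := R) (φ := fun _ : Option (Option σ) => R) none +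
      LinearMap.proj (R := R) (φ := fun _ : Option (Option σ) => R) (some none)
  let G : MultilinearMap R (fun _ : σ => (Option (Option σ) → R)) R :=
    (MultilinearMap.mkPiAlgebra R σ R).compLinearMap (fun _ => L)
  have hF : ∀ u : σ → Option (Option σ) → R, F u =
      ∑ T : Finset σ, (Matrix.of fun i => rowMap T i (u i)).det := by
    intro u
    simp only [F, _root_.sum_apply]
    rfl
  have hG : ∀ u : σ → Option (Option σ) → R, G u = ∏ i, (u i none + u i (some none)) := by
    intro u
    simp only [G, MultilinearMap.compLinearMap_apply, MultilinearMap.mkPiAlgebra_apply]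
    rfl
  have hFG : F = G := by
    refine Module.Basis.ext_multilinear (fun _ => Pi.basisFun R (Option (Option σ))) fun φ => ?_
    rw [hF, hG]
    simp only [Pi.basisFun_apply]
    change ∑ T : Finset σ, (Bm R φ T).det = _
    by_cases h : ∀ i k, φ i ≠ some (some k)
    · rw [case_diag φ h]
      symm
      refine prod_eq_one fun i _ => ?_
      rcases hφ : φ i with _ | _ | k
      · simp
      · simp
      · exact absurd hφ (h i k)
    · push Not at h
      obtain ⟨i, k, hik⟩ := h
      have h0 : ∏ i, ((Pi.single (φ i) (1 : R) : Option (Option σ) → R) none +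
          (Pi.single (φ i) (1 : R) : Option (Option σ) → R) (some none)) = 0 := by
        refine prod_eq_zero (mem_univ i) ?_
        rw [hik]
        simp
      rw [h0]
      by_cases hno : ∀ i k, φ i = some (some k) → ∃ j, φ j = some (some i)
      · exact sum_eq_zero fun T _ => case_cycle φ hik hno T
      · push Not at hno
        obtain ⟨i1, k1, h1, h2⟩ := hno
        exact case_leaf φ h1 h2
  rw [← hF, hFG, hG]

end L1

variable {ι : Type} [DecidableEq ι]

theorem F4.cj_add_self (x : F4) : F4.cj x + x = F4.of (F4.tr x) := by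
  revert x
  decide

/-- (L1) -/
theorem L1_det (D : Dat ι) (S : Finset ι) :
    ∑ T ∈ S.powerset, (D.M T).det * ∏ q ∈ S \ T, (D.a q + ∑ p ∈ T, F4.of (D.s q p)) =
      ∏ q ∈ S, F4.of (F4.tr (D.a q)) := by
  classical
  set v : S → Option (Option S) → F4 := fun i o => match o with
    | none => F4.cj (D.a i)
    | some none => D.a i
    | some (some k) => F4.of (D.s i k) with hv
  have h := L1.main v
  have hr : ∏ i, (v i none + v i (some none)) = ∏ q ∈ S, F4.of (F4.tr (D.a q)) := by
    rw [← prod_coe_sort S]
    exact prod_congr rfl fun i _ => F4.cj_add_self _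
  rw [hr] at h
  rw [← h]
  refine sum_bij' (fun T _ => (univ.filter fun i : S => (i : ι) ∈ T))
    (fun T _ => T.map ⟨Subtype.val, Subtype.val_injective⟩) ?_ ?_ ?_ ?_ ?_
  · intro T _
    exact mem_univ _
  · intro T _
    rw [mem_powerset]
    intro x hx
    obtain ⟨y, _, rfl⟩ := mem_map.1 hx
    exact y.2
  · intro T hT
    ext x
    simp only [mem_map, mem_filter, mem_univ, true_and, Function.Embedding.coeFn_mk]
    constructor
    · rintro ⟨y, hy, rfl⟩
      exact hy
    · intro hx
      exact ⟨⟨x, (mem_powerset.1 hT) hx⟩, hx, rfl⟩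
  · intro T _
    ext x
    simp
  · intro T hT
    have hTS := mem_powerset.1 hT
    set T' : Finset S := univ.filter fun i : S => (i : ι) ∈ T with hT'
    have hmem : ∀ i : S, i ∈ T' ↔ (i : ι) ∈ T := by
      intro i
      simp [hT']
    rw [Matrix.twoBlockTriangular_det _ (fun i : S => (i : ι) ∈ T)]
    · congr 1
      · let e : T ≃ {i : S // (i : ι) ∈ T} :=
          ⟨fun x => ⟨⟨x, hTS x.2⟩, x.2⟩, fun x => ⟨x.1.1, x.2⟩, fun _ => rfl, fun _ => rfl⟩
        rw [← Matrix.det_submatrix_equiv_self e]
        congr 1
        refine Matrix.ext fun i j => ?_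
        change D.M T i j = L1.rowMap T' (e i).1 (v (e i).1) (e j).1
        rw [L1.rowMap_apply, if_pos ((hmem _).2 (e i).2)]
        rw [Dat.M]
        by_cases hij : i = j
        · subst hij
          rw [if_pos rfl, if_pos rfl]
          congr 1
          refine sum_bij' (fun k hk => (⟨k, hTS (mem_of_mem_erase hk)⟩ : S))
            (fun k _ => (k : ι)) ?_ ?_ ?_ ?_ ?_
          · intro k hk
            rw [mem_erase] at hk ⊢
            exact ⟨fun e => hk.1 (congrArg Subtype.val e), (hmem _).2 hk.2⟩
          · intro k hk
            rw [mem_erase] at hk ⊢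
            exact ⟨fun e => hk.1 (Subtype.ext e), (hmem _).1 hk.2⟩
          · intro _ _; rfl
          · intro _ _; rfl
          · intro _ _; rfl
        · have h1 : ¬ ((e j : {i : S // (i : ι) ∈ T}) : S) = e i := by
            intro he
            apply hij
            have h2 : (j : ι) = (i : ι) := congrArg (fun z : S => (z : ι)) he
            exact Subtype.ext h2.symm
          rw [if_neg hij, if_neg h1, if_pos ((hmem _).2 (e j).2)]
          rfl
      · have hd : Matrix.toSquareBlockProp (Matrix.of fun i => L1.rowMap T' i (v i))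
            (fun i : S => ¬ (i : ι) ∈ T) = Matrix.diagonal fun i =>
              (D.a i.1 + ∑ p ∈ T, F4.of (D.s i.1 p)) := by
          refine Matrix.ext fun i j => ?_
          change L1.rowMap T' i.1 (v i.1) j.1 = _
          rw [L1.rowMap_apply, if_neg fun h => i.2 ((hmem _).1 h)]
          by_cases hij : i = j
          · subst hij
            rw [if_pos rfl, Matrix.diagonal_apply_eq]
            congr 1
            refine (sum_bij' (fun k hk => (⟨k, hTS hk⟩ : S)) (fun k _ => (k : ι)) ?_ ?_ ?_ ?_ ?_).symm
            · intro k hk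
              exact (hmem _).2 hk
            · intro k hk
              exact (hmem _).1 hk
            · intro _ _; rfl
            · intro _ _; rfl
            · intro _ _; rfl
          · rw [Matrix.diagonal_apply_ne _ hij, if_neg fun e => hij (Subtype.ext e.symm)]
        rw [hd, Matrix.det_diagonal]
        refine prod_bij' (fun q hq => (⟨⟨q, (mem_sdiff.1 hq).1⟩, (mem_sdiff.1 hq).2⟩ :
            {i : S // ¬ (i : ι) ∈ T})) (fun q _ => (q.1 : ι)) ?_ ?_ ?_ ?_ ?_
        · intro _ _; exact mem_univ _
        · intro q _
          exact mem_sdiff.2 ⟨q.1.2, q.2⟩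
        · intro _ _; rfl
        · intro _ _; rfl
        · intro _ _; rfl
    · intro i hi j hj
      rw [Matrix.of_apply, L1.rowMap_apply, if_neg fun h => hi ((hmem _).1 h), if_neg]
      rintro rfl
      exact hi hj

theorem L1_dat (D : Dat ι) (T : Finset ι) :
    ∑ S ∈ T.powerset, (D.M S).det * ∏ q ∈ T \ S, (D.a q + ∑ p ∈ S, F4.of (D.s q p)) =
      ∏ q ∈ T, (F4.cj (D.a q) + D.a q) := by
  rw [L1_det D T]
  exact prod_congr rfl fun q _ => (F4.cj_add_self _).symm

end

end Pool.Agent.Lib.MP_1a91b9_ntH
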