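import Pool.Agent.Lib.MP_1a91b9_ntH.A.Eul
import Pool.Agent.Lib.MP_1a91b9_ntH.A.Half
import Pool.Agent.Lib.MP_1a91b9_ntH.A.L1

/-!
# TwistDensity, part A, file Ind: the residue class of the normalised value
-/

set_option autoImplicit false

namespace Pool.Agent.Lib.MP_1a91b9_ntH

open NumberField IsDedekindDomain Pool.Agent.Lib.MP_1a91b9_ntT Pool.Agent.Lib.MP_1a91b9_ntG
open Pool.Agent.Lib.MP_1a91b9_ntT.S4 (Lf)

noncomputable section

/-- the normalised value -/
def nu (S : Finset Pq) : ℂ := LS S 1 * 6 / (Om * ep * 2 ^ S.card)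

private theorem Ind_em_add (x y : 𝓞 K) : em (x + y) = em x + em y := by
  simp [em]

private theorem Ind_em_mul (x y : 𝓞 K) : em (x * y) = em x * em y := by
  simp [em]

private theorem Ind_em_one : em 1 = 1 := by
  simp [em]

private theorem Ind_em_nat (n : ℕ) [n.AtLeastTwo] : em (OfNat.ofNat n) = OfNat.ofNat n :=
  map_ofNat ((embK : K →+* ℂ).comp (algebraMap (𝓞 K) K)) n

private theorem Ind_em_ne {x : 𝓞 K} (hx : x ≠ 0) : em x ≠ 0 := by
  rw [em, Ne, map_eq_zero]
  intro h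
  exact hx (RingOfIntegers.ext h)

private theorem Ind_Om : Om ≠ 0 := s3_Om

/-- the residue class of the inverse of an element congruent to `1` modulo `2` -/
private theorem Ind_inv {A : ValuationSubring ℂ} (hA : Two A) {x : 𝓞 K} (h : (2 : 𝓞 K) ∣ x - 1) :
    Rs A (em x)⁻¹ 1 := by
  have h1 : red x = 1 := by
    rw [← map_one red, red_eq]
    exact h
  have h2 := Rs.of (A := A) x
  rw [h1] at h2
  exact h2.inv hA

/-- the Euler factors -/
private theorem Ind_factor {A : ValuationSubring ℂ} (hA : Two A) {S : Finset Pq} {q : Pq}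
    (hq : q ∉ S) :
    Rs A ((1 - (chi S q.1 : ℂ) / em q.1) / 2) (qd.a q + ∑ p ∈ S, F4.of (qd.s q p)) := by
  obtain ⟨n, hn, hn'⟩ := chi_qd hq
  have h2 : (2 : 𝓞 K) ∣ q.1 - 1 := (dvd_mul_right _ _).trans (f0_dvd q)
  have h0 : em q.1 ≠ 0 := Ind_em_ne q.2.1.ne_zero
  have h3 : em q.1 = 1 + 2 * em (half q.1) := by
    have h4 := congrArg em (half_spec h2)
    rw [Ind_em_add, Ind_em_mul, Ind_em_one, Ind_em_nat] at h4
    exact h4
  have e : (1 - (chi S q.1 : ℂ) / em q.1) / 2 = (em (half q.1) + (n : ℂ)) * (em q.1)⁻¹ := by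
    have h5 : (chi S q.1 : ℂ) = 1 - 2 * (n : ℂ) := by
      rw [hn]
      push_cast
      ring
    rw [h5]
    field_simp
    rw [h3]
    ring
  rw [e]
  have h6 := ((Rs.of (A := A) (half q.1)).add (Rs.int (A := A) n)).mul (Ind_inv hA h2)
  rw [hn', mul_one] at h6
  exact h6

/-- **The residue class of the normalised value is the determinant.** -/
theorem nu_res {A : ValuationSubring ℂ} (hA : Two A) (D : Finset Pq) :
    Rs A (nu D) (qd.M D).det := by
  classical
  induction D using Finset.strongInduction with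
  | H D ih =>
  obtain ⟨ι, hι, c, hc, hsum⟩ := exists_reps D
  have hE := euler_sum hc
  have hOm : Om ≠ 0 := Ind_Om
  have hep : ep ≠ 0 := ep_ne
  have h2D : em (DD D) ≠ 0 := Ind_em_ne (DD_ne D)
  -- the numbers n q
  choose n hn1 hn2 using half_norm
  -- the half weights
  have hw : ∀ i, ∀ q ∈ D, ∃ w : ℤ, 1 + qs q (c i) = 2 * w := by
    intro i q hq
    have h0 : qs q (c i) ≠ 0 := by
      rw [Ne, qs_eq_zero]
      intro hd
      have h1 : q.1 ∣ 6 * DD D := (Finset.dvd_prod_of_mem (fun p : Pq => p.1) hq).mul_left _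
      exact q.2.1.not_isUnit ((hc.cop i).isUnit_of_dvd' hd h1)
    rcases qs_cases q (c i) with h | h | h
    · exact absurd h h0
    · exact ⟨1, by rw [h]; norm_num⟩
    · exact ⟨0, by rw [h]; norm_num⟩
  have hw' : ∀ i (q : Pq), ∃ w : ℤ, q ∈ D → 1 + qs q (c i) = 2 * w := by
    intro i q
    by_cases hq : q ∈ D
    · obtain ⟨w, h⟩ := hw i q hq
      exact ⟨w, fun _ => h⟩
    · exact ⟨0, fun h => absurd h hq⟩
  choose w hwq using hw'
  have hprod : ∀ i, ∏ q ∈ D, (1 + qs q (c i)) = 2 ^ D.card * ∏ q ∈ D, w i q := by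
    intro i
    rw [Finset.prod_congr rfl (hwq i), Finset.prod_mul_distrib, Finset.prod_const]
  have hsum2 : ∑ i, ∏ q ∈ D, w i q = 3 * ∏ q ∈ D, n q := by
    have h1 : ∏ q ∈ D, ((Nz q.1 : ℤ) - 1) = 2 ^ D.card * ∏ q ∈ D, n q := by
      rw [Finset.prod_congr rfl (fun q _ => hn1 q), Finset.prod_mul_distrib, Finset.prod_const]
    rw [h1, Finset.sum_congr rfl (fun i _ => hprod i), ← Finset.mul_sum] at hsum
    have h2 : (2 : ℤ) ^ D.card ≠ 0 := pow_ne_zero _ (by norm_num)
    apply mul_left_cancel₀ h2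
    linear_combination hsum
  -- the values of E1
  have hval : ∀ i, Rs A (E1 (em (c i) / em (6 * DD D)) / (Om * ep)) 1 := by
    intro i
    have e : (6 : 𝓞 K) * DD D = 2 * (3 * DD D) := by ring
    rw [e]
    refine e1_cls hA ?_ ((dvd_mul_right _ _).trans (hc.fx i)) ?_
    · have h1 : 3 * DD D - 1 = 3 * (DD D - 1) + 2 := by ring
      rw [h1]
      exact dvd_add ((DD_two D).mul_left _) dvd_rfl
    · intro hd
      have h1 : (s3 : 𝓞 K) ∣ c i := (s3_dvd_three.mul_right _).trans hd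
      have h2 : (s3 : 𝓞 K) ∣ 6 * DD D := by
        rw [six_eq]
        exact ((dvd_mul_left _ _).neg_right).mul_right _
      exact s3_not_isUnit ((hc.cop i).isUnit_of_dvd' h1 h2)
  -- the right hand side
  have hR : Rs A ((em (DD D))⁻¹ * ∑ i, ((∏ q ∈ D, w i q : ℤ) : ℂ) *
      (E1 (em (c i) / em (6 * DD D)) / (Om * ep))) (∏ q ∈ D, (F4.cj (qd.a q) + qd.a q)) := by
    have h1 := (Ind_inv hA (DD_two D)).mul (Rs.sum (A := A) Finset.univ
      (z := fun i => ((∏ q ∈ D, w i q : ℤ) : ℂ) * (E1 (em (c i) / em (6 * DD D)) / (Om * ep)))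
      (y := fun i => ((∏ q ∈ D, w i q : ℤ) : F4) * 1)
      (fun i _ => (Rs.int _).mul (hval i)))
    have e : (1 : F4) * ∑ i, ((∏ q ∈ D, w i q : ℤ) : F4) * 1 =
        ∏ q ∈ D, (F4.cj (qd.a q) + qd.a q) := by
      rw [one_mul]
      simp only [mul_one]
      rw [← Int.cast_sum, hsum2]
      push_cast
      have h3 : (3 : F4) = 1 := by decide
      rw [h3, one_mul]
      exact Finset.prod_congr rfl fun q _ => hn2 q
    rw [e] at h1
    exact h1
  -- the normalised identity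
  have hN : ∑ S ∈ D.powerset, nu S * ∏ q ∈ D \ S, ((1 - (chi S q.1 : ℂ) / em q.1) / 2) =
      (em (DD D))⁻¹ * ∑ i, ((∏ q ∈ D, w i q : ℤ) : ℂ) *
        (E1 (em (c i) / em (6 * DD D)) / (Om * ep)) := by
    have h2 : (2 : ℂ) ^ D.card ≠ 0 := pow_ne_zero _ (by norm_num)
    have e1 : ∀ S ∈ D.powerset, nu S * ∏ q ∈ D \ S, ((1 - (chi S q.1 : ℂ) / em q.1) / 2) =
        6 / (Om * ep * 2 ^ D.card) *
          (LS S 1 * ∏ q ∈ D \ S, (1 - (chi S q.1 : ℂ) / em q.1)) := by
      intro S hS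
      rw [Finset.mem_powerset] at hS
      have h3 : D.card = S.card + (D \ S).card := by
        rw [Finset.card_sdiff_of_subset hS]
        have := Finset.card_le_card hS
        omega
      rw [Finset.prod_div_distrib, Finset.prod_const, nu, h3, pow_add]
      have h4 : (2 : ℂ) ^ S.card ≠ 0 := pow_ne_zero _ (by norm_num)
      have h5 : (2 : ℂ) ^ (D \ S).card ≠ 0 := pow_ne_zero _ (by norm_num)
      field_simp
    rw [Finset.sum_congr rfl e1, ← Finset.mul_sum, hE]
    have e2 : em (6 * DD D) = 6 * em (DD D) := by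
      rw [Ind_em_mul, Ind_em_nat]
    have e3 : ∀ i, ((∏ q ∈ D, (1 + qs q (c i)) : ℤ) : ℂ) * E1 (em (c i) / em (6 * DD D)) =
        (2 ^ D.card * (Om * ep)) * (((∏ q ∈ D, w i q : ℤ) : ℂ) *
          (E1 (em (c i) / em (6 * DD D)) / (Om * ep))) := by
      intro i
      rw [hprod i]
      push_cast
      field_simp
    rw [Finset.sum_congr rfl (fun i _ => e3 i), ← Finset.mul_sum, e2]
    field_simp
  -- the sum without D
  have hD : D ∈ D.powerset := Finset.mem_powerset_self D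
  rw [← Finset.add_sum_erase _ _ hD, Finset.sdiff_self, Finset.prod_empty, mul_one] at hN
  have hL := L1_dat qd D
  rw [← Finset.add_sum_erase _ _ hD, Finset.sdiff_self, Finset.prod_empty, mul_one] at hL
  have hS : Rs A (∑ S ∈ D.powerset.erase D, nu S *
      ∏ q ∈ D \ S, ((1 - (chi S q.1 : ℂ) / em q.1) / 2))
      (∑ S ∈ D.powerset.erase D, (qd.M S).det *
        ∏ q ∈ D \ S, (qd.a q + ∑ p ∈ S, F4.of (qd.s q p))) := by
    refine Rs.sum _ fun S hS => ?_
    rw [Finset.mem_erase, Finset.mem_powerset] at hS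
    refine (ih S (Finset.ssubset_iff_subset_ne.2 ⟨hS.2, hS.1⟩)).mul (Rs.prod _ fun q hq => ?_)
    exact Ind_factor hA (Finset.mem_sdiff.1 hq).2
  have h := hR.sub hS
  have e1 : (em (DD D))⁻¹ * ∑ i, ((∏ q ∈ D, w i q : ℤ) : ℂ) *
        (E1 (em (c i) / em (6 * DD D)) / (Om * ep)) -
      ∑ S ∈ D.powerset.erase D, nu S *
        ∏ q ∈ D \ S, ((1 - (chi S q.1 : ℂ) / em q.1) / 2) = nu D := by
    rw [← hN]
    ring
  have e2 : ∏ q ∈ D, (F4.cj (qd.a q) + qd.a q) - ∑ S ∈ D.powerset.erase D, (qd.M S).det *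
        ∏ q ∈ D \ S, (qd.a q + ∑ p ∈ S, F4.of (qd.s q p)) = (qd.M D).det := by
    rw [← hL]
    ring
  rw [e1, e2] at h
  exact h

theorem nu_unit {A : ValuationSubring ℂ} (hA : Two A) {S : Finset Pq} (h : (qd.M S).det ≠ 0) :
    A.valuation (nu S) = 1 := (nu_res hA S).unit hA h

theorem LS_ne {S : Finset Pq} (h : (qd.M S).det ≠ 0) : LS S 1 ≠ 0 := by
  obtain ⟨A, hA⟩ := s3_exists
  have h1 := nu_unit hA h
  intro h0
  rw [nu, h0, zero_mul, zero_div, map_zero] at h1
  exact zero_ne_one h1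

end

end Pool.Agent.Lib.MP_1a91b9_ntH
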