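import Pool.Agent.Lib.MP_1a91b9_ntT.Rq.Act

/-!
# TwistDensity, part A, file RatZ: the sum of `E1` over the translates by the points of order two
-/

set_option autoImplicit false

namespace Pool.Agent.Lib.MP_1a91b9_ntH

open Pool.Agent.Lib.MP_1a91b9_ntT Pool.Agent.Lib.MP_1a91b9_ntT.S3

noncomputable section

/-- addition of a point of order two -/
theorem RatZ_add {Q T : ℂ} (hQ : 2 * Q ∉ PP.lattice) (hT : 2 * T ∈ PP.lattice)
    (hT' : T ∉ PP.lattice) : 2 * (X Q - X T) * (E1 (T + Q) - E1 Q) = Om * Y Q := by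
  have h1 : T - Q ∉ PP.lattice := by
    intro h
    apply hQ
    have h2 := sub_mem hT (add_mem h h)
    have e : 2 * T - (T - Q + (T - Q)) = 2 * Q := by ring
    rwa [e] at h2
  have h2 : T + Q ∉ PP.lattice := by
    intro h
    apply hQ
    have h2 := sub_mem (add_mem h h) hT
    have e : (T + Q + (T + Q)) - 2 * T = 2 * Q := by ring
    rwa [e] at h2
  have h3 := sig hQ hT' h1 h2
  have h4 : E1 (T - Q) = -E1 (T + Q) := by
    have e : T - Q = -(T + Q) + 2 * T := by ring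
    rw [e, E1_add hT, E1_neg]
  rw [h4] at h3
  have hO := Om_ne_zero
  rw [X, X, Y]
  field_simp
  linear_combination h3

theorem RatZ_half : 4 * X (1 / 2) ^ 3 + 1 = 0 := by
  have h1 := Y_sq half_notMem
  have h2 : Y (1 / 2) = 0 := by
    rw [Y, Q_half (by norm_num [S3.one_mem]), zero_div]
  rw [h2] at h1
  linear_combination -h1

/-- **The sum over the translates.** -/
theorem RatZ_three {Q : ℂ} (hQ : 2 * Q ∉ PP.lattice) :
    E1 (1 / 2 + Q) + zt * E1 (zt * (1 / 2) + Q) + zt ^ 2 * E1 (zt ^ 2 * (1 / 2) + Q) =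
      6 * Om * X (1 / 2) ^ 2 / Y Q := by
  have hQ1 := notMem_of_two_mul hQ
  have hT0 : (2 : ℂ) * (1 / 2) ∈ PP.lattice := by norm_num [S3.one_mem]
  have hT1 : (2 : ℂ) * (zt * (1 / 2)) ∈ PP.lattice := by
    have e : (2 : ℂ) * (zt * (1 / 2)) = zt := by ring
    rw [e]
    exact zt_mem
  have hT2 : (2 : ℂ) * (zt ^ 2 * (1 / 2)) ∈ PP.lattice := by
    have e : (2 : ℂ) * (zt ^ 2 * (1 / 2)) = zt * zt := by ring
    rw [e]
    exact zt_mul_mem.2 zt_mem
  have hN1 : zt * (1 / 2) ∉ PP.lattice := fun h => half_notMem (zt_mul_mem.1 h)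
  have hN2 : zt ^ 2 * (1 / 2) ∉ PP.lattice := by
    intro h
    have e : zt ^ 2 * (1 / 2 : ℂ) = zt * (zt * (1 / 2)) := by ring
    rw [e] at h
    exact hN1 (zt_mul_mem.1 h)
  have a0 := RatZ_add hQ hT0 half_notMem
  have a1 := RatZ_add hQ hT1 hN1
  have a2 := RatZ_add hQ hT2 hN2
  have x1 : X (zt * (1 / 2)) = zt * X (1 / 2) := Rq.X_zt _
  have x2 : X (zt ^ 2 * (1 / 2)) = zt ^ 2 * X (1 / 2) := by
    have e : zt ^ 2 * (1 / 2 : ℂ) = zt * (zt * (1 / 2)) := by ring
    rw [e, Rq.X_zt, Rq.X_zt]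
    ring
  rw [x1] at a1
  rw [x2] at a2
  have hY := Y_sq hQ1
  have hY0 := Rq.Y_ne hQ
  have ha := RatZ_half
  have hz := zt_quad
  generalize X (1 / 2) = a at *
  generalize X Q = x at *
  generalize Y Q = y at *
  generalize E1 Q = e at *
  generalize E1 (1 / 2 + Q) = u at *
  generalize E1 (zt * (1 / 2) + Q) = v at *
  generalize E1 (zt ^ 2 * (1 / 2) + Q) = w at *
  generalize Om = O at *
  generalize zt = z at *
  have hz3 : z ^ 3 = 1 := by linear_combination (z - 1) * hz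
  have key : (x - a) * (x - z * a) * (x - z ^ 2 * a) = y ^ 2 / 4 := by
    linear_combination -hY / 4 - ha / 4 + (-(x ^ 2 * a) + x * a ^ 2 * z + a ^ 3 * (1 - z)) * hz
  have b0 : y * (u - e) = 2 * O * ((x - z * a) * (x - z ^ 2 * a)) := by
    apply mul_left_cancel₀ hY0
    linear_combination 2 * (x - z * a) * (x - z ^ 2 * a) * a0 - 4 * (u - e) * key
  have b1 : y * (v - e) = 2 * O * ((x - a) * (x - z ^ 2 * a)) := by
    apply mul_left_cancel₀ hY0
    linear_combination 2 * (x - a) * (x - z ^ 2 * a) * a1 - 4 * (v - e) * key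
  have b2 : y * (w - e) = 2 * O * ((x - a) * (x - z * a)) := by
    apply mul_left_cancel₀ hY0
    linear_combination 2 * (x - a) * (x - z * a) * a2 - 4 * (w - e) * key
  rw [eq_div_iff hY0]
  linear_combination b0 + z * b1 + z ^ 2 * b2 +
    (y * e + 2 * O * (x ^ 2 - 2 * x * a * z + 3 * a ^ 2 * (z - 1))) * hz

end

end Pool.Agent.Lib.MP_1a91b9_ntH
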