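import Pool.Agent.Lib.MP_1a91b9_ntH.A.Rep
import Pool.Agent.Lib.MP_1a91b9_ntT.Rq.Act

/-!
# TwistDensity, part A, file RatDefs: half systems (definitions for the rationality of the L-quotient)

PLAN (C-rat, helper90). `Y = S3.Y`, `Y ^ 2 = 4 X ^ 3 + 1`.
(I) RatA: for a system `c` with `Reps (6 * DD S) c`,
  `∑ chi S (c i) E1 (em (c i) / em (6 DD S)) = Om ep ∑ chi S (c i) / Y (em (c i) / em (6 DD S) - 1/2)`.
(II) RatB: half systems modulo `q` exist, Gauss lemma.
(III) RatC: `‖∏ Y (em (c i) / em q)‖ ^ 2 = √3 ^ (3 * card) / ‖em q‖ ^ 3` for a half system `c`.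
(IV) RatD: assembly, `crat`.
-/

set_option autoImplicit false

namespace Pool.Agent.Lib.MP_1a91b9_ntH

open NumberField

/-- A half system modulo `q`: every element which is not divisible by `q` is congruent to exactly
one of the elements `c i`, `- c i`. -/
structure HalfSys (q : 𝓞 Pool.Agent.Lib.MP_1a91b9_ntT.K) {ι : Type}
    (c : ι → 𝓞 Pool.Agent.Lib.MP_1a91b9_ntT.K) : Prop where
  nz : ∀ i, ¬ q ∣ c i
  ex : ∀ a, ¬ q ∣ a → ∃ i, q ∣ a - c i ∨ q ∣ a + c i
  inj : ∀ i j, (q ∣ c i - c j ∨ q ∣ c i + c j) → i = j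

end Pool.Agent.Lib.MP_1a91b9_ntH
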