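import Pool.Agent.Lib.MP_1a91b9_ntH.A.Half
import Pool.Agent.Lib.MP_1a91b9_ntH.A.RatDefs
import Pool.Agent.Lib.MP_1a91b9_ntH.A.RatZ

/-!
# TwistDensity, part A, file RatA: the sum of the values of `E1` as a sum of the values of `1 / Y`
-/

set_option autoImplicit false

namespace Pool.Agent.Lib.MP_1a91b9_ntH

open NumberField Pool.Agent.Lib.MP_1a91b9_ntT

noncomputable section

theorem RatA_mul (x y : 𝓞 K) : em (x * y) = em x * em y := by
  rw [em, em, em]
  have : ((x * y : 𝓞 K) : K) = (x : K) * (y : K) := by push_cast; rfl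
  rw [this, map_mul]

theorem RatA_sub (x y : 𝓞 K) : em (x - y) = em x - em y := by
  rw [em, em, em]
  have : ((x - y : 𝓞 K) : K) = (x : K) - (y : K) := by push_cast; rfl
  rw [this, map_sub]

theorem RatA_add (x y : 𝓞 K) : em (x + y) = em x + em y := by
  rw [em, em, em]
  have : ((x + y : 𝓞 K) : K) = (x : K) + (y : K) := by push_cast; rfl
  rw [this, map_add]

theorem RatA_one : em 1 = 1 := by
  rw [em]
  have : ((1 : 𝓞 K) : K) = 1 := by push_cast; rfl
  rw [this, map_one]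

theorem RatA_ofNat (n : ℕ) : em (n : 𝓞 K) = n := by
  rw [em]
  have : (((n : ℕ) : 𝓞 K) : K) = (n : K) := by push_cast; rfl
  rw [this, map_natCast]

theorem RatA_wO : em wO = zt := by rw [em, coe_wO, embK_om]

theorem RatA_ne {x : 𝓞 K} (hx : x ≠ 0) : em x ≠ 0 := by
  intro h
  apply hx
  apply RingOfIntegers.ext
  apply embK.toRingHom.injective
  change embK (x : K) = embK ((0 : 𝓞 K) : K)
  have e : ((0 : 𝓞 K) : K) = 0 := rfl
  rw [e, map_zero]
  exact h

theorem RatA_inj {x y : 𝓞 K} (h : em x = em y) : x = y := by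
  apply RingOfIntegers.ext
  exact embK.toRingHom.injective h

theorem RatA_mem (x : 𝓞 K) : em x ∈ PP.lattice := S3.embK_mem x

theorem RatA_lat {ν a b : 𝓞 K} (hν : ν ≠ 0) (h : ν ∣ a - b) :
    em a / em ν - em b / em ν ∈ PP.lattice := by
  obtain ⟨k, hk⟩ := h
  have e : em a / em ν - em b / em ν = em k := by
    rw [← sub_div, ← RatA_sub, hk, RatA_mul, mul_div_cancel_left₀ _ (RatA_ne hν)]
  rw [e]
  exact RatA_mem k

theorem RatA_dvd {ν a : 𝓞 K} (hν : ν ≠ 0) (h : em a / em ν ∈ PP.lattice) : ν ∣ a := by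
  obtain ⟨k, hk⟩ := S3.mem_PP_iff.1 h
  refine ⟨k, RatA_inj ?_⟩
  rw [RatA_mul]
  change em k = em a / em ν at hk
  rw [hk, mul_div_cancel₀ _ (RatA_ne hν)]

/-- multiplication by an element which is `1` modulo `f0` and prime to `ν` permutes the classes -/
theorem Reps.perm {ν : 𝓞 K} {ι : Type} [Finite ι] {c : ι → 𝓞 K} (h : Reps ν c) {u : 𝓞 K}
    (hu : IsCoprime u ν) (hf : f0 ∣ u - 1) :
    ∃ σ : Equiv.Perm ι, ∀ i, ν ∣ u * c i - c (σ i) := by
  have h1 : ∀ i, ∃ j, ν ∣ u * c i - c j := by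
    intro i
    refine h.ex (u * c i) (hu.mul_left (h.cop i)) ?_
    have e : u * c i - 1 = (u - 1) * c i + (c i - 1) := by ring
    rw [e]
    exact dvd_add (hf.mul_right _) (h.fx i)
  choose f hf' using h1
  have hinj : Function.Injective f := by
    intro i j hij
    apply h.inj
    have h2 : ν ∣ u * (c i - c j) := by
      have e : u * (c i - c j) = (u * c i - c (f i)) - (u * c j - c (f j)) := by
        rw [hij]
        ring
      rw [e]
      exact dvd_sub (hf' i) (hf' j)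
    exact hu.symm.dvd_of_dvd_mul_left h2
  exact ⟨Equiv.ofBijective f (Finite.injective_iff_bijective.1 hinj), hf'⟩

/-- the symbols of `wO` -/
theorem RatA_chi_wO (S : Finset Pq) : chi S wO = 1 := by
  have h1 : chi S wO * chi S wO * chi S wO = 1 := by
    rw [← chi_mul, ← chi_mul, ← chi_one S]
    congr 1
    linear_combination (wO - 1) * wO_quad
  rcases chi_cases S wO with h | h | h
  · rw [h] at h1
    norm_num at h1
  · exact h
  · rw [h] at h1
    norm_num at h1

theorem RatA_six (S : Finset Pq) : (6 * DD S : 𝓞 K) ≠ 0 :=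
  mul_ne_zero (by norm_num) (DD_ne S)

/-- the point `Q i` of odd order is not of order dividing `2` -/
theorem RatA_notMem {S : Finset Pq} {c : 𝓞 K} (hc : IsCoprime c (6 * DD S)) :
    2 * (em c / em (6 * DD S) - 1 / 2) ∉ PP.lattice := by
  intro h
  have h3 : (3 * DD S : 𝓞 K) ≠ 0 := mul_ne_zero (by norm_num) (DD_ne S)
  have e6 : em (6 * DD S) = 2 * em (3 * DD S) := by
    have e : (6 * DD S : 𝓞 K) = ((2 : ℕ) : 𝓞 K) * (3 * DD S) := by push_cast; ring
    rw [e, RatA_mul, RatA_ofNat]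
    norm_num
  have h1 : em c / em (3 * DD S) ∈ PP.lattice := by
    have e : em c / em (3 * DD S) = 2 * (em c / em (6 * DD S) - 1 / 2) + 1 := by
      rw [e6]
      have := RatA_ne h3
      field_simp
      ring
    rw [e]
    exact add_mem h S3.one_mem
  have h2 := RatA_dvd h3 h1
  apply s3_not_isUnit
  refine hc.isUnit_of_dvd' ?_ ?_
  · exact (s3_dvd_three.mul_right _).trans h2
  · refine Dvd.dvd.mul_right ?_ _
    have e : (6 : 𝓞 K) = 3 * 2 := by norm_num
    rw [e]
    exact s3_dvd_three.mul_right _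

theorem RatA_ep : 2 * S3.X (1 / 2) ^ 2 = ep := by
  have h := RatZ_half
  have h0 : S3.X (1 / 2) ≠ 0 := by
    intro h0
    rw [h0] at h
    norm_num at h
  rw [ep, ← sub_eq_zero]
  field_simp
  linear_combination h

theorem sum_E1_eq {S : Finset Pq} {ι : Type} [Fintype ι] {c : ι → 𝓞 K}
    (h : Reps (6 * DD S) c) :
    ∑ i, (chi S (c i) : ℂ) * E1 (em (c i) / em (6 * DD S)) =
      Om * ep * ∑ i, (chi S (c i) : ℂ) / S3.Y (em (c i) / em (6 * DD S) - 1 / 2) := by
  have hν := RatA_six S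
  have hν' := RatA_ne hν
  have hQ : ∀ i, 2 * (em (c i) / em (6 * DD S) - 1 / 2) ∉ PP.lattice := fun i =>
    RatA_notMem (h.cop i)
  obtain ⟨d, hd⟩ := DD_two S
  -- the multiplier
  have hu : IsCoprime (wO + 3 * DD S * (1 - wO)) (6 * DD S) := by
    have h1 : IsCoprime (wO + 3 * DD S * (1 - wO)) (3 * DD S) := by
      refine ⟨wO ^ 2, 1 - wO ^ 2 * (1 - wO) - 1, ?_⟩
      linear_combination (wO - 1) * wO_quad
    have h2 : IsCoprime (wO + 3 * DD S * (1 - wO)) (2 : 𝓞 K) := by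
      refine ⟨1, -(1 - wO) * (1 + 3 * d), ?_⟩
      linear_combination 3 * (1 - wO) * hd
    have e : (6 * DD S : 𝓞 K) = 2 * (3 * DD S) := by ring
    rw [e]
    exact h2.mul_right h1
  have huf : f0 ∣ wO + 3 * DD S * (1 - wO) - 1 := by
    rw [f0]
    refine s3_odd.mul_dvd ?_ ?_
    · refine ⟨(1 - wO) * (1 + 3 * d), ?_⟩
      linear_combination 3 * (1 - wO) * hd
    · have h1 : s3 ∣ wO - 1 := ⟨1 + wO, by rw [s3]; linear_combination -2 * wO_quad⟩
      have e : wO + 3 * DD S * (1 - wO) - 1 = (wO - 1) * (1 - 3 * DD S) := by ring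
      rw [e]
      exact h1.mul_right _
  obtain ⟨σ, hσ⟩ := h.perm hu huf
  have hchi : ∀ i, chi S (c (σ i)) = chi S (c i) := by
    intro i
    have h1 : DD S ∣ (wO + 3 * DD S * (1 - wO)) * c i - c (σ i) :=
      (dvd_mul_left _ _).trans (hσ i)
    rw [← chi_congr h1, chi_mul, chi_congr (y := wO) ⟨3 * (1 - wO), by ring⟩, RatA_chi_wO, one_mul]
  have hlat : ∀ i, (em (c (σ i)) / em (6 * DD S) - 1 / 2) -
      zt * (em (c i) / em (6 * DD S) - 1 / 2) ∈ PP.lattice := by
    intro i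
    obtain ⟨k, hk⟩ : (2 : 𝓞 K) ∣ c i - 1 := (dvd_mul_right _ _).trans (h.fx i)
    have h1 := RatA_lat hν (hσ i)
    have e1 : em ((wO + 3 * DD S * (1 - wO)) * c i) / em (6 * DD S) =
        zt * (em (c i) / em (6 * DD S)) + (1 - zt) / 2 + em ((1 - wO) * k) := by
      have e2 : c i = 1 + ((2 : ℕ) : 𝓞 K) * k := by push_cast; linear_combination hk
      have e3 : em (6 * DD S) = 6 * em (DD S) := by
        have e : (6 * DD S : 𝓞 K) = ((6 : ℕ) : 𝓞 K) * DD S := by push_cast; ring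
        rw [e, RatA_mul, RatA_ofNat]
        norm_num
      have e4 : em (3 * DD S) = 3 * em (DD S) := by
        have e : (3 * DD S : 𝓞 K) = ((3 : ℕ) : 𝓞 K) * DD S := by push_cast; ring
        rw [e, RatA_mul, RatA_ofNat]
        norm_num
      have hD := RatA_ne (DD_ne S)
      rw [RatA_mul, RatA_add, RatA_mul (3 * DD S), RatA_mul (1 - wO), RatA_sub, RatA_one, RatA_wO, e3,
        e4]
      have e5 : em (c i) = 1 + 2 * em k := by
        rw [e2, RatA_add, RatA_mul, RatA_one, RatA_ofNat]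
        norm_num
      rw [e5]
      field_simp
      ring
    rw [e1] at h1
    have h2 := sub_mem (RatA_mem ((1 - wO) * k)) h1
    have e : em ((1 - wO) * k) - (zt * (em (c i) / em (6 * DD S)) + (1 - zt) / 2 +
        em ((1 - wO) * k) - em (c (σ i)) / em (6 * DD S)) =
        (em (c (σ i)) / em (6 * DD S) - 1 / 2) -
      zt * (em (c i) / em (6 * DD S) - 1 / 2) := by ring
    rwa [e] at h2
  have hz3 := S3.zt_cube
  have hE : ∀ i, E1 (em (c (σ i)) / em (6 * DD S)) =
      zt ^ 2 * E1 (zt ^ 2 * (1 / 2) + (em (c i) / em (6 * DD S) - 1 / 2)) := by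
    intro i
    rw [← s3_zt]
    have e : em (c (σ i)) / em (6 * DD S) =
        zt * (zt ^ 2 * (1 / 2) + (em (c i) / em (6 * DD S) - 1 / 2)) +
          ((em (c (σ i)) / em (6 * DD S) - 1 / 2) -
            zt * (em (c i) / em (6 * DD S) - 1 / 2)) := by
      linear_combination (-1 / 2 : ℂ) * hz3
    conv_lhs => rw [e]
    rw [S3.E1_add (hlat i)]
  have hE2 : ∀ i, E1 (em (c (σ (σ i))) / em (6 * DD S)) =
      zt * E1 (zt * (1 / 2) + (em (c i) / em (6 * DD S) - 1 / 2)) := by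
    intro i
    have e0 : zt * E1 (zt * (1 / 2) + (em (c i) / em (6 * DD S) - 1 / 2)) =
        E1 (zt * (zt * (zt * (1 / 2) + (em (c i) / em (6 * DD S) - 1 / 2)))) := by
      rw [s3_zt, s3_zt]
      linear_combination -(zt * E1 (zt * (1 / 2) + (em (c i) / em (6 * DD S) - 1 / 2))) * hz3
    rw [e0]
    have e : em (c (σ (σ i))) / em (6 * DD S) =
        zt * (zt * (zt * (1 / 2) + (em (c i) / em (6 * DD S) - 1 / 2))) +
          (((em (c (σ (σ i))) / em (6 * DD S) - 1 / 2) -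
            zt * (em (c (σ i)) / em (6 * DD S) - 1 / 2)) +
            zt * ((em (c (σ i)) / em (6 * DD S) - 1 / 2) -
            zt * (em (c i) / em (6 * DD S) - 1 / 2))) := by
      linear_combination (-1 / 2 : ℂ) * hz3
    conv_lhs => rw [e]
    rw [S3.E1_add (add_mem (hlat (σ i)) (S3.zt_mul_mem.2 (hlat i)))]
  -- the three forms of the sum
  have g0 : ∑ i, (chi S (c i) : ℂ) * E1 (em (c i) / em (6 * DD S)) =
      ∑ i, (chi S (c i) : ℂ) * E1 (1 / 2 + (em (c i) / em (6 * DD S) - 1 / 2)) := by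
    refine Finset.sum_congr rfl fun i _ => ?_
    congr 2
    ring
  have g1 : ∑ i, (chi S (c i) : ℂ) * E1 (em (c i) / em (6 * DD S)) =
      ∑ i, (chi S (c i) : ℂ) *
        (zt ^ 2 * E1 (zt ^ 2 * (1 / 2) + (em (c i) / em (6 * DD S) - 1 / 2))) := by
    rw [← Equiv.sum_comp σ]
    refine Finset.sum_congr rfl fun i _ => ?_
    rw [hchi, hE]
  have g2 : ∑ i, (chi S (c i) : ℂ) * E1 (em (c i) / em (6 * DD S)) =
      ∑ i, (chi S (c i) : ℂ) *
        (zt * E1 (zt * (1 / 2) + (em (c i) / em (6 * DD S) - 1 / 2))) := by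
    rw [← Equiv.sum_comp σ, ← Equiv.sum_comp σ]
    refine Finset.sum_congr rfl fun i _ => ?_
    rw [hchi, hchi, hE2]
  have g3 : 3 * ∑ i, (chi S (c i) : ℂ) * E1 (em (c i) / em (6 * DD S)) =
      3 * (Om * ep * ∑ i, (chi S (c i) : ℂ) / S3.Y (em (c i) / em (6 * DD S) - 1 / 2)) := by
    have e : 3 * ∑ i, (chi S (c i) : ℂ) * E1 (em (c i) / em (6 * DD S)) =
        ∑ i, (chi S (c i) : ℂ) * E1 (1 / 2 + (em (c i) / em (6 * DD S) - 1 / 2)) +
        ∑ i, (chi S (c i) : ℂ) *
          (zt * E1 (zt * (1 / 2) + (em (c i) / em (6 * DD S) - 1 / 2))) +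
        ∑ i, (chi S (c i) : ℂ) *
          (zt ^ 2 * E1 (zt ^ 2 * (1 / 2) + (em (c i) / em (6 * DD S) - 1 / 2))) := by
      rw [← g0, ← g1, ← g2]
      ring
    rw [e, ← Finset.sum_add_distrib, ← Finset.sum_add_distrib, Finset.mul_sum, Finset.mul_sum]
    refine Finset.sum_congr rfl fun i _ => ?_
    have h1 := RatZ_three (hQ i)
    rw [← mul_add, ← mul_add, h1, ← RatA_ep]
    ring
  exact mul_left_cancel₀ (by norm_num) g3

end

end Pool.Agent.Lib.MP_1a91b9_ntH
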