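import Pool.Agent.Lib.MP_1a91b9_ntH.A.RatDefs

/-!
# TwistDensity, part A, file RatB: half systems and the lemma of Gauss

`k = O / q` is a finite field with `Nz q` elements, `Nz q` odd (`q = 1` modulo 2), so `x ≠ -x` for
`x ≠ 0`; a half system consists of the `x` with `e x < e (-x)` for a numbering `e` of `k`.
Gauss: `χ c i = ε i * c (π i)` modulo `q`, `ε i = ± 1`, `π` a permutation; the product gives
`χ ^ ((Nq - 1) / 2) = ∏ ε i` in the field `O / q`.
-/

set_option autoImplicit false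

namespace Pool.Agent.Lib.MP_1a91b9_ntH

open NumberField Pool.Agent.Lib.MP_1a91b9_ntT

noncomputable section

private theorem RB_mk {q a b : 𝓞 K} :
    Ideal.Quotient.mk (Ideal.span {q}) a = Ideal.Quotient.mk (Ideal.span {q}) b ↔ q ∣ a - b := by
  rw [Ideal.Quotient.eq, Ideal.mem_span_singleton]

private theorem RB_mk0 {q a : 𝓞 K} :
    Ideal.Quotient.mk (Ideal.span {q}) a = 0 ↔ q ∣ a := by
  rw [Ideal.Quotient.eq_zero_iff_mem, Ideal.mem_span_singleton]

private theorem RB_two (q : Pq) {a : 𝓞 K} (h : q.1 ∣ 2 * a) : q.1 ∣ a := by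
  obtain ⟨t, ht⟩ := q.2.2
  obtain ⟨u, hu⟩ := h
  refine ⟨a - s3 * t * u, ?_⟩
  linear_combination (-a) * ht - s3 * t * hu

private theorem RB_card (q : Pq) [Fintype (𝓞 K ⧸ Ideal.span {q.1})] :
    Fintype.card (𝓞 K ⧸ Ideal.span {q.1}) = Nz q.1 := by
  rw [← Nat.card_eq_fintype_card, Nz, ← Ideal.absNorm_span_singleton]
  rfl

private theorem RB_fin (q : Pq) : Finite (𝓞 K ⧸ Ideal.span {q.1}) :=
  Ideal.finiteQuotientOfFreeOfNeBot _ (by
    rw [Ne, Ideal.span_singleton_eq_bot]
    exact q.2.1.ne_zero)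

/-- the number of elements of a half system -/
theorem HalfSys.card (q : Pq) {ι : Type} [Fintype ι] {c : ι → 𝓞 K} (h : HalfSys q.1 c) :
    Nz q.1 = 2 * Fintype.card ι + 1 := by
  have hf := RB_fin q
  have := Fintype.ofFinite (𝓞 K ⧸ Ideal.span {q.1})
  rw [← RB_card q]
  have hb : Function.Bijective (fun x : Option (ι ⊕ ι) => match x with
      | none => (0 : 𝓞 K ⧸ Ideal.span {q.1})
      | some (Sum.inl i) => Ideal.Quotient.mk (Ideal.span {q.1}) (c i)
      | some (Sum.inr i) => Ideal.Quotient.mk (Ideal.span {q.1}) (-c i)) := by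
    constructor
    · rintro (_ | x | x) (_ | y | y) hxy
      · rfl
      · exact absurd (RB_mk0.1 hxy.symm) (h.nz y)
      · exact absurd (RB_mk0.1 hxy.symm) (fun hh => h.nz y (by simpa using hh.neg_right))
      · exact absurd (RB_mk0.1 hxy) (h.nz x)
      · rw [h.inj x y (Or.inl (RB_mk.1 hxy))]
      · exfalso
        have h1 : q.1 ∣ c x + c y := by simpa using RB_mk.1 hxy
        have h2 := h.inj x y (Or.inr h1)
        subst h2
        exact h.nz x (RB_two q (by rwa [two_mul (c x)]))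
      · exact absurd (RB_mk0.1 hxy) (fun hh => h.nz x (by simpa using hh.neg_right))
      · exfalso
        have h1 : q.1 ∣ -c x - c y := by simpa using RB_mk.1 hxy
        have h1' : q.1 ∣ c x + c y := by
          have := h1.neg_right
          have e : -(-c x - c y) = c x + c y := by ring
          rwa [e] at this
        have h2 := h.inj x y (Or.inr h1')
        subst h2
        exact h.nz x (RB_two q (by rwa [two_mul (c x)]))
      · have h1 : q.1 ∣ -c x - -c y := RB_mk.1 hxy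
        have h1' : q.1 ∣ c x - c y := by
          have := h1.neg_right
          have e : -(-c x - -c y) = c x - c y := by ring
          rwa [e] at this
        rw [h.inj x y (Or.inl h1')]
    · intro y
      obtain ⟨a, rfl⟩ := Ideal.Quotient.mk_surjective y
      by_cases ha : q.1 ∣ a
      · exact ⟨none, (RB_mk0.2 ha).symm⟩
      · obtain ⟨i, hi | hi⟩ := h.ex a ha
        · exact ⟨some (Sum.inl i), (RB_mk.2 hi).symm⟩
        · refine ⟨some (Sum.inr i), (RB_mk.2 ?_).symm⟩
          rwa [sub_neg_eq_add]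
  have hc := Fintype.card_of_bijective hb
  rw [← hc, Fintype.card_option, Fintype.card_sum]
  ring

/-- half systems exist; the number of elements is `(Nz q - 1) / 2` -/
theorem exists_half (q : Pq) : ∃ (ι : Type) (_ : Fintype ι) (c : ι → 𝓞 K), HalfSys q.1 c ∧
    Nz q.1 = 2 * Fintype.card ι + 1 := by
  classical
  have hf := RB_fin q
  have := Fintype.ofFinite (𝓞 K ⧸ Ideal.span {q.1})
  obtain ⟨e⟩ := (⟨Fintype.equivFin (𝓞 K ⧸ Ideal.span {q.1})⟩ :
    Nonempty ((𝓞 K ⧸ Ideal.span {q.1}) ≃ Fin (Fintype.card (𝓞 K ⧸ Ideal.span {q.1}))))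
  have hout : ∀ x : 𝓞 K ⧸ Ideal.span {q.1}, ∃ a : 𝓞 K, Ideal.Quotient.mk (Ideal.span {q.1}) a = x :=
    Ideal.Quotient.mk_surjective
  choose g hg using hout
  have hne : ∀ x : 𝓞 K ⧸ Ideal.span {q.1}, x ≠ 0 → x ≠ -x := by
    intro x hx hxx
    obtain ⟨a, rfl⟩ := Ideal.Quotient.mk_surjective x
    rw [← map_neg, RB_mk, sub_neg_eq_add, ← two_mul] at hxx
    exact hx (RB_mk0.2 (RB_two q hxx))
  have hH : HalfSys q.1 (fun x : {x : 𝓞 K ⧸ Ideal.span {q.1} // x ≠ 0 ∧ e x < e (-x)} =>
      g x.1) := by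
    refine ⟨?_, ?_, ?_⟩
    · rintro ⟨x, hx, hx'⟩ hd
      exact hx (by rw [← hg x]; exact RB_mk0.2 hd)
    · intro a ha
      have hx : Ideal.Quotient.mk (Ideal.span {q.1}) a ≠ 0 := fun hh => ha (RB_mk0.1 hh)
      have hx1 := hne _ hx
      rcases lt_or_gt_of_ne (fun hh => hx1 (e.injective hh)) with h1 | h1
      · exact ⟨⟨_, hx, h1⟩, Or.inl (RB_mk.1 (hg _).symm)⟩
      · refine ⟨⟨-Ideal.Quotient.mk (Ideal.span {q.1}) a, neg_ne_zero.2 hx, by rwa [neg_neg]⟩,
          Or.inr ?_⟩
        have h2 : Ideal.Quotient.mk (Ideal.span {q.1}) (-a) = Ideal.Quotient.mk (Ideal.span {q.1})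
            (g (-Ideal.Quotient.mk (Ideal.span {q.1}) a)) := by
          rw [hg, map_neg]
        have h4 := (RB_mk.1 h2).neg_right
        have e1 : -(-a - g (-Ideal.Quotient.mk (Ideal.span {q.1}) a)) =
          a + g (-Ideal.Quotient.mk (Ideal.span {q.1}) a) := by ring
        rw [e1] at h4
        exact h4
    · rintro ⟨x, hx, hx'⟩ ⟨y, hy, hy'⟩ (hd | hd)
      · have h1 := RB_mk.2 hd
        rw [hg, hg] at h1
        exact Subtype.ext h1
      · exfalso
        have h1 : Ideal.Quotient.mk (Ideal.span {q.1}) (g x) =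
            Ideal.Quotient.mk (Ideal.span {q.1}) (-g y) := by
          rw [RB_mk, sub_neg_eq_add]
          exact hd
        rw [map_neg, hg, hg] at h1
        subst h1
        rw [neg_neg] at hx'
        exact lt_asymm hx' hy'
  exact ⟨_, inferInstance, _, hH, hH.card q⟩

/-- **The lemma of Gauss.** -/
theorem gauss_half (q : Pq) {ι : Type} [Fintype ι] {c : ι → 𝓞 K} (h : HalfSys q.1 c)
    (f : 𝓞 K → ℂ) (hper : ∀ a b, q.1 ∣ a - b → f a = f b) (hodd : ∀ a, f (-a) = -f a)
    {χ : 𝓞 K} (hχ : ¬ q.1 ∣ χ) :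
    ∏ i, f (χ * c i) = (qs q χ : ℂ) * ∏ i, f (c i) := by
  classical
  have hnd : ∀ i, ¬ q.1 ∣ χ * c i := fun i hd =>
    (q.2.1.dvd_or_dvd hd).elim hχ (h.nz i)
  have hex : ∀ i, ∃ p : ι × ℤˣ, q.1 ∣ χ * c i - (p.2 : ℤ) * c p.1 := by
    intro i
    obtain ⟨j, hj | hj⟩ := h.ex _ (hnd i)
    · exact ⟨(j, 1), by simpa using hj⟩
    · exact ⟨(j, -1), by simpa using hj⟩
  choose P hP using hex
  -- the permutation
  have hinj : Function.Injective (fun i => (P i).1) := by
    intro i j hij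
    have hij' : (P i).1 = (P j).1 := hij
    have h1 := hP i
    have h2 := hP j
    rw [hij'] at h1
    rcases Int.units_eq_one_or (P i).2 with ei | ei <;>
      rcases Int.units_eq_one_or (P j).2 with ej | ej <;> rw [ei] at h1 <;> rw [ej] at h2
    · have h3 : q.1 ∣ χ * (c i - c j) := by
        have h4 := dvd_sub h1 h2
        push_cast at h4
        have e : χ * c i - 1 * c (P j).1 - (χ * c j - 1 * c (P j).1) = χ * (c i - c j) := by ring
        rwa [e] at h4
      exact h.inj i j (Or.inl ((q.2.1.dvd_or_dvd h3).resolve_left hχ))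
    · have h3 : q.1 ∣ χ * (c i + c j) := by
        have h4 := dvd_add h1 h2
        push_cast at h4
        have e : χ * c i - 1 * c (P j).1 + (χ * c j - -1 * c (P j).1) = χ * (c i + c j) := by ring
        rwa [e] at h4
      exact h.inj i j (Or.inr ((q.2.1.dvd_or_dvd h3).resolve_left hχ))
    · have h3 : q.1 ∣ χ * (c i + c j) := by
        have h4 := dvd_add h1 h2
        push_cast at h4
        have e : χ * c i - -1 * c (P j).1 + (χ * c j - 1 * c (P j).1) = χ * (c i + c j) := by ring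
        rwa [e] at h4
      exact h.inj i j (Or.inr ((q.2.1.dvd_or_dvd h3).resolve_left hχ))
    · have h3 : q.1 ∣ χ * (c i - c j) := by
        have h4 := dvd_sub h1 h2
        push_cast at h4
        have e : χ * c i - -1 * c (P j).1 - (χ * c j - -1 * c (P j).1) = χ * (c i - c j) := by
          ring
        rwa [e] at h4
      exact h.inj i j (Or.inl ((q.2.1.dvd_or_dvd h3).resolve_left hχ))
  have hbij : Function.Bijective (fun i => (P i).1) := Finite.injective_iff_bijective.1 hinj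
  -- the product of the values
  have hf : ∀ i, f (χ * c i) = (((P i).2 : ℤ) : ℂ) * f (c (P i).1) := by
    intro i
    rw [hper _ _ (hP i)]
    rcases Int.units_eq_one_or (P i).2 with ei | ei <;> rw [ei]
    · simp
    · simp [hodd]
  have hprod : ∏ i, f (χ * c i) = (((∏ i, (P i).2 : ℤˣ) : ℤ) : ℂ) * ∏ i, f (c i) := by
    rw [Finset.prod_congr rfl fun i _ => hf i, Finset.prod_mul_distrib,
      hbij.prod_comp (fun j => f (c j))]
    push_cast
    rfl
  -- the sign
  have hfin := RB_fin q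
  have := Fintype.ofFinite (𝓞 K ⧸ Ideal.span {q.1})
  have hprime : (Ideal.span {q.1}).IsPrime :=
    (Ideal.span_singleton_prime q.2.1.ne_zero).2 q.2.1
  have hmax : (Ideal.span {q.1}).IsMaximal := Ideal.Quotient.maximal_of_isField _
    (Finite.isField_of_domain (𝓞 K ⧸ Ideal.span {q.1}))
  let _ : Field (𝓞 K ⧸ Ideal.span {q.1}) := Ideal.Quotient.field _
  have hsgn : (Ideal.Quotient.mk (Ideal.span {q.1}) χ) ^ Fintype.card ι =
      (((∏ i, (P i).2 : ℤˣ) : ℤ) : 𝓞 K ⧸ Ideal.span {q.1}) := by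
    have hmk : ∀ i, Ideal.Quotient.mk (Ideal.span {q.1}) χ * Ideal.Quotient.mk _ (c i) =
        (((P i).2 : ℤ) : 𝓞 K ⧸ Ideal.span {q.1}) * Ideal.Quotient.mk _ (c (P i).1) := by
      intro i
      rw [← map_mul, RB_mk.2 (hP i), map_mul, map_intCast]
    have h1 := Finset.prod_congr (rfl : (Finset.univ : Finset ι) = Finset.univ) fun i _ => hmk i
    rw [Finset.prod_mul_distrib, Finset.prod_mul_distrib, Finset.prod_const, Finset.card_univ,
      hbij.prod_comp (fun j => Ideal.Quotient.mk (Ideal.span {q.1}) (c j))] at h1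
    have h2 : ∏ j, Ideal.Quotient.mk (Ideal.span {q.1}) (c j) ≠ 0 :=
      Finset.prod_ne_zero_iff.2 fun j _ hj => h.nz j (RB_mk0.1 hj)
    have h3 := mul_right_cancel₀ h2 h1
    rw [h3]
    push_cast
    rfl
  have hodd2 : (1 : 𝓞 K ⧸ Ideal.span {q.1}) ≠ -1 := by
    intro h1
    have h2 : Ideal.Quotient.mk (Ideal.span {q.1}) 1 = Ideal.Quotient.mk (Ideal.span {q.1}) (-1) := by
      rw [map_neg, map_one]
      exact h1
    rw [RB_mk, sub_neg_eq_add] at h2
    have e2 : (2 : 𝓞 K) * 1 = 1 + 1 := by norm_num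
    have h3 : q.1 ∣ (1 : 𝓞 K) := RB_two q (e2 ▸ h2)
    exact q.2.1.not_isUnit (isUnit_of_dvd_one h3)
  have hchar : ringChar (𝓞 K ⧸ Ideal.span {q.1}) ≠ 2 := by
    intro h2
    apply hodd2
    have h3 : ((2 : ℕ) : 𝓞 K ⧸ Ideal.span {q.1}) = 0 := (ringChar.spec _ 2).2 (by rw [h2])
    have h4 : (1 : 𝓞 K ⧸ Ideal.span {q.1}) + 1 = 0 := by
      rw [one_add_one_eq_two]
      exact_mod_cast h3
    linear_combination h4
  have hχ0 : Ideal.Quotient.mk (Ideal.span {q.1}) χ ≠ 0 := fun hh => hχ (RB_mk0.1 hh)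
  have hcard : Fintype.card (𝓞 K ⧸ Ideal.span {q.1}) / 2 = Fintype.card ι := by
    rw [RB_card q, h.card q]
    omega
  have hsq := FiniteField.isSquare_iff hchar hχ0
  rw [hcard, hsgn] at hsq
  rw [hprod]
  congr 1
  rw [qs, if_neg hχ]
  by_cases hs : IsSquare (Ideal.Quotient.mk (Ideal.span {q.1}) χ)
  · rw [if_pos hs]
    have h1 := hsq.1 hs
    rcases Int.units_eq_one_or (∏ i, (P i).2) with e | e
    · rw [e]
      rfl
    · rw [e] at h1
      exfalso
      apply hodd2
      push_cast at h1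
      exact h1.symm
  · rw [if_neg hs]
    rcases Int.units_eq_one_or (∏ i, (P i).2) with e | e
    · exfalso
      apply hs
      apply hsq.2
      rw [e]
      simp
    · rw [e]
      rfl

end

end Pool.Agent.Lib.MP_1a91b9_ntH
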