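import Pool.Agent.Lib.MP_1a91b9_ntT.S3.Main

/-!
# MP_1a91b9_nt (TwistDensity), part A, file RatP: the product formula for `Y`

For `α` in `ℤ[zt]` odd (`α - 1 ∈ 2 ℤ[zt]`) and a system `τ` of representatives of `α⁻¹ ℤ[zt] / ℤ[zt]`
we prove `∏ Y (z + τ i) = C Y (α z)`, `C = α ^ 3 ∏ Y (τ i)` (product over the nonzero classes), and
`C ^ 2 = (- s ^ 3) ^ (N - 1)`, `s = 1 + 2 zt = √-3`, `N` the number of classes.

Proof: the logarithmic derivative of `Y` is a sum of values of `E1`, and the distribution relation of `E1`.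
-/

set_option autoImplicit false

namespace Pool.Agent.Lib.MP_1a91b9_ntH.RatP

open Complex Filter Topology NumberField
open Pool.Agent.Lib.MP_1a91b9_ntT Pool.Agent.Lib.MP_1a91b9_ntT.S3

noncomputable section

/-- `P'` does not vanish off the half lattice. -/
theorem Q_ne {z : ℂ} (hz : 2 * z ∉ PP.lattice) : PP.derivWeierstrassP z ≠ 0 := by
  intro h
  have h1 := dup hz
  have h2 := diff_eq (notMem_of_two_mul hz)
  rw [h, mul_zero] at h1
  have h3 : PP.weierstrassP z = 0 := by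
    have : PP.weierstrassP z ^ 2 = 0 := by linear_combination -h1 / 3
    exact pow_eq_zero_iff (by norm_num) |>.1 this
  rw [h, h3] at h2
  apply pow_ne_zero 6 Om_ne_zero
  linear_combination -h2

theorem two_mem_mul {z : ℂ} (h : z ∈ PP.lattice) : 2 * z ∈ PP.lattice := by
  exact_mod_cast mul_mem (nat_mem 2) h

/-- Translation by a point of order two. -/
theorem half_sum {z T : ℂ} (hz : 2 * z ∉ PP.lattice) (hT : 2 * T ∈ PP.lattice)
    (hT' : T ∉ PP.lattice) :
    2 * (PP.weierstrassP z - PP.weierstrassP T) * (E1 (z + T) - E1 z) =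
      PP.derivWeierstrassP z := by
  have h1 : T - z ∉ PP.lattice := by
    intro h
    apply hz
    have h2 := sub_mem hT (two_mem_mul h)
    have e : 2 * T - 2 * (T - z) = 2 * z := by ring
    rwa [e] at h2
  have h2 : T + z ∉ PP.lattice := by
    intro h
    apply hz
    have h2 := sub_mem (two_mem_mul h) hT
    have e : 2 * (T + z) - 2 * T = 2 * z := by ring
    rwa [e] at h2
  have h3 := sig hz hT' h1 h2
  have h4 : E1 (T - z) = - E1 (T + z) := by
    rw [← E1_neg]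
    have h5 := E1_add hT (-(T + z))
    have e : -(T + z) + 2 * T = T - z := by ring
    rwa [e] at h5
  rw [h4] at h3
  rw [add_comm z T]
  linear_combination h3

/-- The three points of order two. -/
def hf (j : Fin 3) : ℂ := zt ^ (j : ℕ) * (1 / 2)

theorem two_hf (j : Fin 3) : 2 * hf j ∈ PP.lattice := by
  have e : 2 * hf j = zt ^ (j : ℕ) := by rw [hf]; ring
  rw [e]
  fin_cases j
  · simpa using one_mem
  · simpa using zt_mem
  · simpa [pow_two] using mul_mem zt_mem zt_mem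

theorem hf_notMem (j : Fin 3) : hf j ∉ PP.lattice := by
  rw [hf]
  fin_cases j
  · simpa using half_notMem
  · intro h
    have h1 : zt * (1 / 2) ∈ PP.lattice := by simpa using h
    exact half_notMem (zt_mul_mem.1 h1)
  · intro h
    have h1 : zt * (zt * (1 / 2)) ∈ PP.lattice := by
      have e : zt * (zt * (1 / 2)) = zt ^ 2 * (1 / 2) := by ring
      rw [e]
      simpa using h
    exact half_notMem (zt_mul_mem.1 (zt_mul_mem.1 h1))

theorem P_half_cube : 4 * PP.weierstrassP (1 / 2) ^ 3 + Om ^ 6 = 0 := by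
  have h := diff_eq half_notMem
  have h2 : PP.derivWeierstrassP (1 / 2) = 0 := Q_half (by simpa using one_mem)
  rw [h2] at h
  linear_combination -h

/-- The logarithmic derivative of `P'` as a sum of values of `E1`. -/
theorem log_eq {z : ℂ} (hz : 2 * z ∉ PP.lattice) :
    ∑ j, E1 (z + hf j) - 3 * E1 z = 6 * PP.weierstrassP z ^ 2 / PP.derivWeierstrassP z := by
  have hQ := Q_ne hz
  have hz1 := notMem_of_two_mul hz
  have hd := diff_eq hz1
  set e := PP.weierstrassP (1 / 2) with he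
  set P := PP.weierstrassP z with hP
  set Q := PP.derivWeierstrassP z with hQd
  have h0 := half_sum hz (two_hf 0) (hf_notMem 0)
  have h1 := half_sum hz (two_hf 1) (hf_notMem 1)
  have h2 := half_sum hz (two_hf 2) (hf_notMem 2)
  have e0 : PP.weierstrassP (hf 0) = e := by simp [hf, he]
  have e1 : PP.weierstrassP (hf 1) = zt * e := by
    rw [he, ← P_zt]
    simp [hf]
  have e2 : PP.weierstrassP (hf 2) = zt ^ 2 * e := by
    have : hf 2 = zt * (zt * (1 / 2)) := by
      show zt ^ 2 * (1 / 2) = _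
      ring
    rw [this, P_zt, P_zt, he]
    ring
  rw [e0] at h0
  rw [e1] at h1
  rw [e2] at h2
  have hc := P_half_cube
  rw [← he] at hc
  have hprod : 4 * ((P - e) * (P - zt * e) * (P - zt ^ 2 * e)) = Q ^ 2 := by
    rw [hd]
    linear_combination (4 * (-P ^ 2 * e + P * e ^ 2 * zt)) * zt_quad - hc - 4 * e ^ 3 * zt_cube
  have hQ2 : Q ^ 2 ≠ 0 := pow_ne_zero 2 hQ
  rw [Fin.sum_univ_three, eq_div_iff hQ]
  apply mul_left_cancel₀ hQ2
  linear_combination Q * (-(E1 (z + hf 0) + E1 (z + hf 1) + E1 (z + hf 2) - 3 * E1 z) * hprod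
    + 2 * (P - zt * e) * (P - zt ^ 2 * e) * h0 + 2 * (P - e) * (P - zt ^ 2 * e) * h1
    + 2 * (P - e) * (P - zt * e) * h2) + 2 * Q ^ 2 * (-2 * P * e + e ^ 2 * zt) * zt_quad

/-- The derivative of `P'`. -/
theorem hasDerivAt_Q {z : ℂ} (hz : 2 * z ∉ PP.lattice) :
    HasDerivAt PP.derivWeierstrassP (6 * PP.weierstrassP z ^ 2) z := by
  have hz1 := notMem_of_two_mul hz
  have hQ := Q_ne hz
  have h1 := (differentiableAt_Q hz1).hasDerivAt
  have h2 := h1.pow 2
  have h3 : HasDerivAt (fun w => 4 * PP.weierstrassP w ^ 3 + Om ^ 6)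
      (4 * (3 * PP.weierstrassP z ^ 2 * PP.derivWeierstrassP z)) z := by
    have := (((hasDerivAt_P hz1).pow 3).const_mul 4).add_const (Om ^ 6)
    refine this.congr_deriv ?_
    norm_num
  have h4 : (PP.derivWeierstrassP ^ 2) =ᶠ[𝓝 z] fun w => 4 * PP.weierstrassP w ^ 3 + Om ^ 6 := by
    filter_upwards [isOpen_compl.mem_nhds hz1] with w hw
    exact diff_eq hw
  have h5 := h2.unique (h3.congr_of_eventuallyEq h4)
  have h6 : deriv PP.derivWeierstrassP z = 6 * PP.weierstrassP z ^ 2 := by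
    apply mul_left_cancel₀ hQ
    have h5' : (2 : ℂ) * PP.derivWeierstrassP z * deriv PP.derivWeierstrassP z =
        4 * (3 * PP.weierstrassP z ^ 2 * PP.derivWeierstrassP z) := by
      simpa using h5
    linear_combination h5' / 2
  rw [h6] at h1
  exact h1

theorem log_Q {z : ℂ} (hz : 2 * z ∉ PP.lattice) :
    deriv PP.derivWeierstrassP z / PP.derivWeierstrassP z = ∑ j, E1 (z + hf j) - 3 * E1 z := by
  rw [(hasDerivAt_Q hz).deriv, log_eq hz]

section Prod

variable {ι : Type*} [Fintype ι] {α : ℂ} {τ : ι → ℂ}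

/-- The distribution relation of the logarithmic derivative. -/
theorem log_dist (hα : α ∈ PP.lattice) (hα0 : α ≠ 0) (hodd : (α - 1) / 2 ∈ PP.lattice)
    (h1 : ∀ i, α * τ i ∈ PP.lattice)
    (h2 : ∀ x, α * x ∈ PP.lattice → ∃! i, x - τ i ∈ PP.lattice) (z : ℂ) :
    ∑ i, (∑ j, E1 (z + τ i + hf j) - 3 * E1 (z + τ i)) =
      α * (∑ j, E1 (α * z + hf j) - 3 * E1 (α * z)) := by
  rw [Finset.sum_sub_distrib, Finset.sum_comm, ← Finset.mul_sum, dist hα hα0 h1 h2, mul_sub,
    Finset.mul_sum]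
  congr 1
  · refine Finset.sum_congr rfl fun j _ => ?_
    have e : ∀ i, z + τ i + hf j = z + hf j + τ i := fun i => by ring
    simp_rw [e]
    rw [dist hα hα0 h1 h2]
    congr 1
    apply E1_congr
    have e2 : α * (z + hf j) - (α * z + hf j) = (α - 1) / 2 * (2 * hf j) := by ring
    rw [e2]
    exact mul_mem hodd (two_hf j)
  · ring

omit [Fintype ι] in
theorem notMem2 (hα : α ∈ PP.lattice) (h1 : ∀ i, α * τ i ∈ PP.lattice) {z : ℂ}
    (hz : 2 * (α * z) ∉ PP.lattice) (i : ι) : 2 * (z + τ i) ∉ PP.lattice := by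
  intro h
  apply hz
  have := sub_mem (mul_mem hα h) (two_mem_mul (h1 i))
  have e : α * (2 * (z + τ i)) - 2 * (α * τ i) = 2 * (α * z) := by ring
  rwa [e] at this

/-- The quotient of the two sides. -/
def Ph (α : ℂ) (τ : ι → ℂ) (z : ℂ) : ℂ :=
  (∏ i, PP.derivWeierstrassP (z + τ i)) / PP.derivWeierstrassP (α * z)

theorem hasDerivAt_Ph (hα : α ∈ PP.lattice) (hα0 : α ≠ 0) (hodd : (α - 1) / 2 ∈ PP.lattice)
    (h1 : ∀ i, α * τ i ∈ PP.lattice)
    (h2 : ∀ x, α * x ∈ PP.lattice → ∃! i, x - τ i ∈ PP.lattice) {z : ℂ}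
    (hz : 2 * (α * z) ∉ PP.lattice) : HasDerivAt (Ph α τ) 0 z := by
  have n1 := notMem2 hα h1 hz
  have d1 : ∀ i, DifferentiableAt ℂ (fun z => PP.derivWeierstrassP (z + τ i)) z := fun i =>
    ((hasDerivAt_Q (n1 i)).comp_add_const z (τ i)).differentiableAt
  have d2 : DifferentiableAt ℂ (fun z => PP.derivWeierstrassP (α * z)) z := by
    have b2 : DifferentiableAt ℂ PP.derivWeierstrassP (α * z) := (hasDerivAt_Q hz).differentiableAt
    exact b2.comp z (by fun_prop)
  have d3 : DifferentiableAt ℂ (fun z => ∏ i, PP.derivWeierstrassP (z + τ i)) z :=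
    DifferentiableAt.fun_finsetProd fun i _ => d1 i
  have q2 : PP.derivWeierstrassP (α * z) ≠ 0 := Q_ne hz
  have q3 : ∏ i, PP.derivWeierstrassP (z + τ i) ≠ 0 :=
    Finset.prod_ne_zero_iff.2 fun i _ => Q_ne (n1 i)
  have hd : DifferentiableAt ℂ (Ph α τ) z := d3.div d2 q2
  have hn : Ph α τ z ≠ 0 := div_ne_zero q3 q2
  have e1 : logDeriv (fun z => ∏ i, PP.derivWeierstrassP (z + τ i)) z =
      ∑ i, (∑ j, E1 (z + τ i + hf j) - 3 * E1 (z + τ i)) := by
    rw [logDeriv_prod (f := fun i z => PP.derivWeierstrassP (z + τ i)) (fun i _ => Q_ne (n1 i))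
      (fun i _ => d1 i)]
    refine Finset.sum_congr rfl fun i _ => ?_
    rw [logDeriv_apply, ((hasDerivAt_Q (n1 i)).comp_add_const z (τ i)).deriv, log_eq (n1 i)]
  have e2 : logDeriv (fun z => PP.derivWeierstrassP (α * z)) z =
      α * (∑ j, E1 (α * z + hf j) - 3 * E1 (α * z)) := by
    have b1 : HasDerivAt (fun z : ℂ => α * z) α z := by
      simpa using (hasDerivAt_id z).const_mul α
    have b2 : HasDerivAt (fun z => PP.derivWeierstrassP (α * z))
        (6 * PP.weierstrassP (α * z) ^ 2 * α) z := (hasDerivAt_Q hz).comp z b1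
    rw [logDeriv_apply, b2.deriv, log_eq hz]
    ring
  have e3 : logDeriv (Ph α τ) z = 0 := by
    have := logDeriv_div (f := fun z => ∏ i, PP.derivWeierstrassP (z + τ i))
      (g := fun z => PP.derivWeierstrassP (α * z)) z q3 q2 d3 d2
    rw [e1, e2, log_dist hα hα0 hodd h1 h2, sub_self] at this
    exact this
  have e4 : deriv (Ph α τ) z = 0 := by
    rw [logDeriv_apply, div_eq_zero_iff] at e3
    exact e3.resolve_right hn
  have := hd.hasDerivAt
  rwa [e4] at this

/-- The product formula for `P'`. -/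
theorem exists_prod (hα : α ∈ PP.lattice) (hα0 : α ≠ 0) (hodd : (α - 1) / 2 ∈ PP.lattice)
    (h1 : ∀ i, α * τ i ∈ PP.lattice)
    (h2 : ∀ x, α * x ∈ PP.lattice → ∃! i, x - τ i ∈ PP.lattice) :
    ∃ C : ℂ, ∀ z : ℂ, 2 * (α * z) ∉ PP.lattice →
      ∏ i, PP.derivWeierstrassP (z + τ i) = C * PP.derivWeierstrassP (α * z) := by
  set S : Set ℂ := {w : ℂ | 2 * (α * w) ∈ PP.lattice} with hSdef
  have h2α : 2 * α ≠ 0 := mul_ne_zero two_ne_zero hα0
  have hS : ∀ z : ℂ, ∀ᶠ w in 𝓝[≠] z, w ∉ S := by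
    intro z
    have := eventually_mul_notMem h2α z
    refine this.mono fun w hw h => hw ?_
    rw [mul_assoc]
    exact h
  have hcount : S.Countable := by
    have := countable_lat.preimage_of_injOn (f := fun w : ℂ => 2 * α * w)
      (fun x _ y _ h => mul_left_cancel₀ h2α h)
    refine this.mono fun w hw => ?_
    show 2 * α * w ∈ PP.lattice
    rw [mul_assoc]
    exact hw
  have hSo : IsOpen Sᶜ := isOpen_of_iso hS
  have hconst : ∀ x ∈ Sᶜ, ∀ y ∈ Sᶜ, Ph α τ x = Ph α τ y := by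
    intro x hx y hy
    exact hSo.is_const_of_deriv_eq_zero (f := Ph α τ)
      (isPreconnected_compl_of_countable hcount)
      (fun w hw => (hasDerivAt_Ph hα hα0 hodd h1 h2 hw).differentiableAt.differentiableWithinAt)
      (fun w hw => (hasDerivAt_Ph hα hα0 hodd h1 h2 hw).deriv) hx hy
  obtain ⟨z₀, hz₀⟩ : ∃ z₀, z₀ ∈ Sᶜ := by
    have := (hS 0).exists
    exact this
  refine ⟨Ph α τ z₀, fun z hz => ?_⟩
  rw [hconst z₀ hz₀ z hz, Ph, div_mul_cancel₀ _ (Q_ne hz)]

end Prod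

theorem tendsto_Q0 : Tendsto (fun z => z ^ 3 * PP.derivWeierstrassP z) (𝓝[≠] 0) (𝓝 (-2)) := by
  have h1 : Tendsto (fun z => Qr z * (z ^ 0)⁻¹) (𝓝[≠] 0) (𝓝 0) := tendsto_Qr (by norm_num)
  have h2 : ContinuousAt (fun z : ℂ => z ^ 3) 0 := by fun_prop
  have h3 := h2.tendsto.mono_left (nhdsWithin_le_nhds (s := {0}ᶜ))
  have h4 := (h3.mul h1).const_add (-2)
  rw [mul_zero, add_zero] at h4
  refine h4.congr' ?_
  filter_upwards [self_mem_nhdsWithin] with z hz
  have hz0 : z ≠ 0 := hz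
  rw [Q_eq z]
  field_simp

theorem tendsto_Qα {α : ℂ} (hα0 : α ≠ 0) :
    Tendsto (fun z => z ^ 3 * PP.derivWeierstrassP (α * z)) (𝓝[≠] 0) (𝓝 (-2 / α ^ 3)) := by
  have b1 : Tendsto (fun w : ℂ => α * w) (𝓝[≠] 0) (𝓝[≠] 0) := by
    refine tendsto_nhdsWithin_iff.2 ⟨?_, ?_⟩
    · have h2 : ContinuousAt (fun w : ℂ => α * w) 0 := by fun_prop
      have h3 := h2.tendsto
      rw [mul_zero] at h3
      exact h3.mono_left nhdsWithin_le_nhds
    · filter_upwards [self_mem_nhdsWithin] with w hw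
      exact mul_ne_zero hα0 hw
  have h1 := (tendsto_Q0.comp b1).div_const (α ^ 3)
  refine h1.congr fun z => ?_
  simp only [Function.comp_apply]
  field_simp

section Prod2

variable {ι : Type*} [Fintype ι] [DecidableEq ι] {α : ℂ} {τ : ι → ℂ}

/-- The product formula for `P'` with its constant. -/
theorem prodQ (hα : α ∈ PP.lattice) (hα0 : α ≠ 0) (hodd : (α - 1) / 2 ∈ PP.lattice)
    (h1 : ∀ i, α * τ i ∈ PP.lattice)
    (h2 : ∀ x, α * x ∈ PP.lattice → ∃! i, x - τ i ∈ PP.lattice) {k : ι}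
    (hk : τ k ∈ PP.lattice) {z : ℂ} (hz : 2 * (α * z) ∉ PP.lattice) :
    ∏ i, PP.derivWeierstrassP (z + τ i) =
      α ^ 3 * (∏ i ∈ Finset.univ.erase k, PP.derivWeierstrassP (τ i)) *
        PP.derivWeierstrassP (α * z) := by
  obtain ⟨C, hC⟩ := exists_prod hα hα0 hodd h1 h2
  rw [hC z hz]
  congr 1
  have hne : ∀ i, i ≠ k → τ i ∉ PP.lattice := by
    intro i hi h
    apply hi
    have hm : ∀ x ∈ PP.lattice, 0 - x ∈ PP.lattice := by
      intro x hx
      rw [zero_sub]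
      exact neg_mem hx
    exact (h2 0 (by rw [mul_zero]; exact zero_mem _)).unique (hm _ h) (hm _ hk)
  have t1 : Tendsto (fun z => ∏ i ∈ Finset.univ.erase k, PP.derivWeierstrassP (z + τ i)) (𝓝[≠] 0)
      (𝓝 (∏ i ∈ Finset.univ.erase k, PP.derivWeierstrassP (τ i))) := by
    refine tendsto_finsetProd _ fun i hi => ?_
    have hi' := hne i (Finset.mem_erase.1 hi).1
    have h5 : ContinuousAt (fun z => PP.derivWeierstrassP (z + τ i)) 0 := by
      refine ContinuousAt.comp (g := PP.derivWeierstrassP) (f := fun z => z + τ i) ?_ (by fun_prop)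
      rw [zero_add]
      exact (differentiableAt_Q hi').continuousAt
    have h6 := h5.tendsto.mono_left (nhdsWithin_le_nhds (s := {0}ᶜ))
    rwa [zero_add] at h6
  have t2 := tendsto_Q0.mul t1
  have t3 := (tendsto_Qα hα0).const_mul C
  have e : (fun z => z ^ 3 * PP.derivWeierstrassP z *
      ∏ i ∈ Finset.univ.erase k, PP.derivWeierstrassP (z + τ i)) =ᶠ[𝓝[≠] 0]
      fun z => C * (z ^ 3 * PP.derivWeierstrassP (α * z)) := by
    have h3 := eventually_mul_notMem (mul_ne_zero two_ne_zero hα0) 0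
    filter_upwards [h3] with w hw
    rw [mul_assoc] at hw
    have h4 := hC w hw
    rw [← Finset.mul_prod_erase Finset.univ _ (Finset.mem_univ k), Q_add hk] at h4
    linear_combination w ^ 3 * h4
  have h5 := tendsto_nhds_unique_of_eventuallyEq t2 t3 e
  have h6 : C * (-2 / α ^ 3) * α ^ 3 = -2 * C := by
    field_simp
  linear_combination (1 / 2 : ℂ) * α ^ 3 * h5 + (1 / 2 : ℂ) * h6

theorem Y_ne {z : ℂ} (hz : 2 * z ∉ PP.lattice) : Y z ≠ 0 :=
  div_ne_zero (Q_ne hz) (pow_ne_zero 3 Om_ne_zero)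

theorem Y_add {l : ℂ} (hl : l ∈ PP.lattice) (z : ℂ) : Y (z + l) = Y z := by
  rw [Y, Y, Q_add hl]

theorem Y_congr {x y : ℂ} (h : x - y ∈ PP.lattice) : Y x = Y y := by
  have := Y_add h y
  rwa [add_sub_cancel] at this

theorem Y_neg (z : ℂ) : Y (-z) = - Y z := by
  rw [Y, Y, PP.derivWeierstrassP_neg, neg_div]

/-- The constant of the product formula. -/
def cY (α : ℂ) (τ : ι → ℂ) (k : ι) : ℂ := α ^ 3 * ∏ i ∈ Finset.univ.erase k, Y (τ i)

/-- The product formula for `Y`. -/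
theorem prodY (hα : α ∈ PP.lattice) (hα0 : α ≠ 0) (hodd : (α - 1) / 2 ∈ PP.lattice)
    (h1 : ∀ i, α * τ i ∈ PP.lattice)
    (h2 : ∀ x, α * x ∈ PP.lattice → ∃! i, x - τ i ∈ PP.lattice) {k : ι}
    (hk : τ k ∈ PP.lattice) {z : ℂ} (hz : 2 * (α * z) ∉ PP.lattice) :
    ∏ i, Y (z + τ i) = cY α τ k * Y (α * z) := by
  have h := prodQ hα hα0 hodd h1 h2 hk hz
  have e1 : ∏ i, Y (z + τ i) = (∏ i, PP.derivWeierstrassP (z + τ i)) / (Om ^ 3) ^ Fintype.card ι := by
    simp only [Y]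
    rw [Finset.prod_div_distrib, Finset.prod_const, Finset.card_univ]
  have e2 : ∏ i ∈ Finset.univ.erase k, Y (τ i) =
      (∏ i ∈ Finset.univ.erase k, PP.derivWeierstrassP (τ i)) / (Om ^ 3) ^ (Fintype.card ι - 1) := by
    simp only [Y]
    rw [Finset.prod_div_distrib, Finset.prod_const, Finset.card_erase_of_mem (Finset.mem_univ k),
      Finset.card_univ]
  have hc : 1 ≤ Fintype.card ι := Fintype.card_pos_iff.2 ⟨k⟩
  have e3 : (Om ^ 3) ^ Fintype.card ι = (Om ^ 3) ^ (Fintype.card ι - 1) * Om ^ 3 := by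
    rw [← pow_succ, Nat.sub_add_cancel hc]
  rw [e1, h, cY, e2, e3, Y]
  have hO := Om_ne_zero
  field_simp

end Prod2

section Comp

/-- A system of representatives of `α⁻¹ Λ / Λ`. -/
def Rp {ι : Type*} (α : ℂ) (τ : ι → ℂ) : Prop :=
  (∀ i, α * τ i ∈ PP.lattice) ∧ ∀ x, α * x ∈ PP.lattice → ∃! i, x - τ i ∈ PP.lattice

variable {ι κ : Type*} {α β : ℂ} {τ : ι → ℂ} {σ : κ → ℂ}

theorem Rp.comp (hβ : β ∈ PP.lattice) (hβ0 : β ≠ 0) (hα : α ∈ PP.lattice)
    (h : Rp α τ) (h' : Rp β σ) :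
    Rp (α * β) (fun p : ι × κ => τ p.1 / β + σ p.2) := by
  have e : ∀ x : ℂ, ∀ p : ι × κ, β * (x - (τ p.1 / β + σ p.2)) = β * x - τ p.1 - β * σ p.2 := by
    intro x p
    field_simp
    ring
  refine ⟨fun p => ?_, fun x hx => ?_⟩
  · have e1 : α * β * (τ p.1 / β + σ p.2) = α * τ p.1 + α * (β * σ p.2) := by
      field_simp
    rw [e1]
    exact add_mem (h.1 _) (mul_mem hα (h'.1 _))
  · rw [mul_assoc] at hx
    obtain ⟨i, hi, hiu⟩ := h.2 _ hx
    simp only at hi hiu
    have hx2 : β * (x - τ i / β) ∈ PP.lattice := by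
      have e1 : β * (x - τ i / β) = β * x - τ i := by
        field_simp
      rwa [e1]
    obtain ⟨j, hj, hju⟩ := h'.2 _ hx2
    simp only at hj hju
    refine ⟨(i, j), ?_, ?_⟩
    · show x - (τ i / β + σ j) ∈ PP.lattice
      have e1 : x - (τ i / β + σ j) = x - τ i / β - σ j := by ring
      rwa [e1]
    · rintro ⟨i', j'⟩ hp
      have hp' : x - (τ i' / β + σ j') ∈ PP.lattice := hp
      have h3 := add_mem (mul_mem hβ hp') (h'.1 j')
      rw [e x (i', j')] at h3
      have e2 : β * x - τ i' - β * σ j' + β * σ j' = β * x - τ i' := by ring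
      simp only at h3
      rw [e2] at h3
      have h4 := hiu i' h3
      subst h4
      have h5 : j' = j := by
        apply hju j'
        have e1 : x - τ i' / β - σ j' = x - (τ i' / β + σ j') := by ring
        rwa [e1]
      rw [h5]

/-- Two systems of representatives give the same products. -/
theorem Rp.prod_eq [Fintype ι] [Fintype κ] {f : ℂ → ℂ}
    (hf : ∀ x y, x - y ∈ PP.lattice → f x = f y) (h : Rp α τ) (h' : Rp α σ) (z : ℂ) :
    ∏ i, f (z + τ i) = ∏ j, f (z + σ j) := by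
  choose s hs hsu using fun i => h'.2 _ (h.1 i)
  simp only at hs hsu
  have hb : Function.Bijective s := by
    constructor
    · intro i i' hii
      have h3 := hs i'
      rw [← hii] at h3
      have h4 := sub_mem (hs i) h3
      have e : τ i - σ (s i) - (τ i' - σ (s i)) = τ i - τ i' := by ring
      rw [e] at h4
      exact (h.2 _ (h.1 i)).unique (by simp only [sub_self]; exact zero_mem _) h4
    · intro j
      obtain ⟨i, hi, -⟩ := h.2 _ (h'.1 j)
      refine ⟨i, (hsu i j ?_).symm⟩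
      have := neg_mem hi
      rwa [neg_sub] at this
  rw [← (Equiv.ofBijective s hb).prod_comp (fun j => f (z + σ j))]
  refine Finset.prod_congr rfl fun i _ => hf _ _ ?_
  have e : z + τ i - (z + σ (Equiv.ofBijective s hb i)) = τ i - σ (s i) := by
    rw [Equiv.ofBijective_apply]
    ring
  rw [e]
  exact hs i

variable [Fintype ι] [Fintype κ] [DecidableEq ι] [DecidableEq κ]

theorem prod_comp (hα : α ∈ PP.lattice) (hα0 : α ≠ 0) (hoα : (α - 1) / 2 ∈ PP.lattice)
    (hβ : β ∈ PP.lattice) (hβ0 : β ≠ 0) (hoβ : (β - 1) / 2 ∈ PP.lattice)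
    (h : Rp α τ) (h' : Rp β σ) {k : ι} (hk : τ k ∈ PP.lattice) {l : κ} (hl : σ l ∈ PP.lattice)
    {z : ℂ} (hz : 2 * (α * β * z) ∉ PP.lattice) :
    ∏ p : ι × κ, Y (z + (τ p.1 / β + σ p.2)) =
      cY β σ l ^ Fintype.card ι * cY α τ k * Y (α * β * z) := by
  rw [Fintype.prod_prod_type]
  have e1 : ∀ i, ∏ j, Y (z + (τ i / β + σ j)) = cY β σ l * Y (β * z + τ i) := by
    intro i
    have e2 : ∀ j, z + (τ i / β + σ j) = z + τ i / β + σ j := fun j => by ring
    simp_rw [e2]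
    have e3 : β * (z + τ i / β) = β * z + τ i := by
      field_simp
    rw [← e3]
    refine prodY hβ hβ0 hoβ h'.1 h'.2 hl ?_
    rw [e3]
    intro h3
    apply hz
    have h4 := sub_mem (mul_mem hα h3) (two_mem_mul (h.1 i))
    have e4 : α * (2 * (β * z + τ i)) - 2 * (α * τ i) = 2 * (α * β * z) := by ring
    rwa [e4] at h4
  simp_rw [e1]
  rw [Finset.prod_mul_distrib, Finset.prod_const, Finset.card_univ,
    prodY hα hα0 hoα h.1 h.2 hk (z := β * z) (by rw [← mul_assoc α β z]; exact hz), mul_assoc α β z]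
  ring

/-- The constants of two odd elements. -/
theorem cY_comm (hα : α ∈ PP.lattice) (hα0 : α ≠ 0) (hoα : (α - 1) / 2 ∈ PP.lattice)
    (hβ : β ∈ PP.lattice) (hβ0 : β ≠ 0) (hoβ : (β - 1) / 2 ∈ PP.lattice)
    (h : Rp α τ) (h' : Rp β σ) {k : ι} (hk : τ k ∈ PP.lattice) {l : κ} (hl : σ l ∈ PP.lattice) :
    cY β σ l ^ Fintype.card ι * cY α τ k = cY α τ k ^ Fintype.card κ * cY β σ l := by
  obtain ⟨z, hz⟩ := (eventually_mul_notMem (mul_ne_zero two_ne_zero (mul_ne_zero hα0 hβ0)) 0).exists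
  rw [mul_assoc] at hz
  have hz' : 2 * (β * α * z) ∉ PP.lattice := by rwa [mul_comm β α]
  have h1 := prod_comp hα hα0 hoα hβ hβ0 hoβ h h' hk hl hz
  have h2 := prod_comp hβ hβ0 hoβ hα hα0 hoα h' h hl hk hz'
  have h3 := Rp.comp hβ hβ0 hα h h'
  have h4 := Rp.comp hα hα0 hβ h' h
  rw [mul_comm β α] at h4 h2
  have h5 := Rp.prod_eq (f := Y) (fun x y => Y_congr) h3 h4 z
  rw [h1, h2] at h5
  exact mul_right_cancel₀ (Y_ne hz) h5

/-! ### The element `s = 1 + 2 zt` -/

/-- `√-3`. -/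
def sq3 : ℂ := 1 + 2 * zt

theorem sq3_sq : sq3 ^ 2 = -3 := by
  rw [sq3]
  linear_combination 4 * zt_quad

theorem sq3_ne : sq3 ≠ 0 := by
  intro h
  have := sq3_sq
  rw [h] at this
  norm_num at this

theorem sq3_mem : sq3 ∈ PP.lattice := mem_PP.2 ⟨1, 2, by rw [sq3]; push_cast; ring⟩

theorem sq3_odd : (sq3 - 1) / 2 ∈ PP.lattice := by
  have e : (sq3 - 1) / 2 = zt := by rw [sq3]; ring
  rw [e]
  exact zt_mem

theorem inv_sq3 : (1 : ℂ) / sq3 = -sq3 / 3 := by
  rw [div_eq_iff sq3_ne]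
  linear_combination (1 / 3 : ℂ) * sq3_sq

/-- The points of order `√-3`. -/
def sg (j : Fin 3) : ℂ := (j : ℕ) / sq3

theorem int_div_sq3 (n : ℤ) : (n : ℂ) / sq3 ∈ PP.lattice ↔ (3 : ℤ) ∣ n := by
  have e : (n : ℂ) / sq3 = (((-n : ℤ) : ℂ) + ((-2 * n : ℤ) : ℂ) * zt) / 3 := by
    have e1 : (n : ℂ) / sq3 = n * (1 / sq3) := by ring
    rw [e1, inv_sq3, sq3]
    push_cast
    ring
  rw [e]
  constructor
  · intro h
    by_contra hn
    refine third_notMem_aux (a := -n) (b := -2 * n) ?_ h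
    rintro ⟨h1, -⟩
    exact hn (by simpa using h1)
  · rintro ⟨m, rfl⟩
    have e2 : (((-(3 * m) : ℤ) : ℂ) + ((-2 * (3 * m) : ℤ) : ℂ) * zt) / 3 =
        ((-m : ℤ) : ℂ) + ((-2 * m : ℤ) : ℂ) * zt := by
      push_cast
      ring
    rw [e2]
    exact mem_PP.2 ⟨_, _, rfl⟩

theorem rp_sg : Rp sq3 sg := by
  refine ⟨fun j => ?_, fun x hx => ?_⟩
  · have e : sq3 * sg j = ((j : ℕ) : ℂ) := by
      rw [sg, mul_div_cancel₀ _ sq3_ne]
    rw [e]
    exact nat_mem _
  · obtain ⟨a, b, hab⟩ := mem_PP.1 hx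
    have hx1 : x = ((a + b : ℤ) : ℂ) / sq3 - b * zt ^ 2 := by
      rw [eq_sub_iff_add_eq, eq_div_iff sq3_ne]
      push_cast
      have e : (1 : ℂ) - zt = zt ^ 2 * sq3 := by
        rw [sq3]
        linear_combination -2 * zt_cube - zt_quad
      linear_combination -hab - (b : ℂ) * e
    have hz2 : (b : ℂ) * zt ^ 2 ∈ PP.lattice := by
      rw [pow_two]
      exact mul_mem (int_mem b) (mul_mem zt_mem zt_mem)
    have key : ∀ j : Fin 3, x - sg j ∈ PP.lattice ↔ (3 : ℤ) ∣ a + b - (j : ℕ) := by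
      intro j
      rw [← int_div_sq3]
      have e : x - sg j = (((a + b - (j : ℕ) : ℤ)) : ℂ) / sq3 - b * zt ^ 2 := by
        rw [hx1, sg]
        push_cast
        ring
      rw [e]
      constructor
      · intro h
        have := add_mem h hz2
        rwa [sub_add_cancel] at this
      · intro h
        exact sub_mem h hz2
    have hmod : ∃ j : Fin 3, (3 : ℤ) ∣ a + b - (j : ℕ) := by
      have h0 := Int.emod_nonneg (a + b) (by norm_num : (3 : ℤ) ≠ 0)
      have h1 := Int.emod_lt_of_pos (a + b) (by norm_num : (0 : ℤ) < 3)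
      refine ⟨⟨((a + b) % 3).toNat, by omega⟩, ?_⟩
      show (3 : ℤ) ∣ a + b - (((a + b) % 3).toNat : ℤ)
      omega
    obtain ⟨j, hj⟩ := hmod
    refine ⟨j, (key j).2 hj, fun j' hj' => ?_⟩
    have h1 := (key j').1 hj'
    apply Fin.ext
    have := j.2
    have := j'.2
    omega

theorem sg_zero : sg 0 ∈ PP.lattice := by
  have : sg 0 = 0 := by simp [sg]
  rw [this]
  exact zero_mem _

theorem Y_inv_sq3 : Y (1 / sq3) ^ 2 = 1 := by
  have hn : (1 / sq3 : ℂ) ∉ PP.lattice := by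
    have := (int_div_sq3 1).not.2 (by norm_num)
    simpa using this
  have hX : X (1 / sq3) = 0 := by
    have h1 : PP.weierstrassP (zt * (1 / sq3)) = PP.weierstrassP (1 / sq3) := by
      apply P_congr
      have e : zt * (1 / sq3) - 1 / sq3 = - zt ^ 2 := by
        have e : (1 : ℂ) - zt = zt ^ 2 * sq3 := by
          rw [sq3]
          linear_combination -2 * zt_cube - zt_quad
        rw [← sub_one_mul, mul_one_div, div_eq_iff sq3_ne]
        linear_combination -e
      rw [e]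
      apply neg_mem
      rw [pow_two]
      exact mul_mem zt_mem zt_mem
    rw [P_zt] at h1
    have h2 : PP.weierstrassP (1 / sq3) = 0 := by
      have h3 : (zt - 1) * PP.weierstrassP (1 / sq3) = 0 := by linear_combination h1
      exact (mul_eq_zero.1 h3).resolve_left (sub_ne_zero.2 zt_ne_one)
    rw [X, h2, zero_div]
  rw [Y_sq hn, hX]
  norm_num

theorem cY_sg : cY sq3 sg 0 = - sq3 ^ 3 := by
  have e : (Finset.univ.erase 0 : Finset (Fin 3)) = {1, 2} := by decide
  rw [cY, e, Finset.prod_pair (by decide)]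
  have h1 : sg 1 = 1 / sq3 := by simp [sg]
  have h2 : Y (sg 2) = - Y (1 / sq3) := by
    rw [← Y_neg]
    apply Y_congr
    have e2 : sg 2 - -(1 / sq3) = ((3 : ℤ) : ℂ) / sq3 := by
      rw [sg]
      push_cast
      simp only [Fin.val_two, Nat.cast_ofNat]
      ring
    rw [e2]
    exact (int_div_sq3 3).2 (dvd_refl _)
  rw [h1, h2]
  linear_combination -sq3 ^ 3 * Y_inv_sq3

omit [Fintype κ] [DecidableEq κ] in
theorem cY_ne (hα : α ∈ PP.lattice) (hα0 : α ≠ 0) (hoα : (α - 1) / 2 ∈ PP.lattice)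
    (h : Rp α τ) {k : ι} (hk : τ k ∈ PP.lattice) : cY α τ k ≠ 0 := by
  obtain ⟨z, hz⟩ := (eventually_mul_notMem (mul_ne_zero two_ne_zero hα0) 0).exists
  rw [mul_assoc] at hz
  have h1 := prodY hα hα0 hoα h.1 h.2 hk hz
  intro h0
  rw [h0, zero_mul] at h1
  exact Finset.prod_ne_zero_iff.2 (fun i _ => Y_ne (notMem2 hα h.1 hz i)) h1

omit [Fintype κ] [DecidableEq κ] in
/-- The square of the constant. -/
theorem cY_sq (hα : α ∈ PP.lattice) (hα0 : α ≠ 0) (hoα : (α - 1) / 2 ∈ PP.lattice)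
    (h : Rp α τ) {k : ι} (hk : τ k ∈ PP.lattice) :
    cY α τ k ^ 2 = (- sq3 ^ 3) ^ (Fintype.card ι - 1) := by
  have h1 := cY_comm hα hα0 hoα sq3_mem sq3_ne sq3_odd h rp_sg hk sg_zero
  rw [cY_sg, Fintype.card_fin] at h1
  have hc : 1 ≤ Fintype.card ι := Fintype.card_pos_iff.2 ⟨k⟩
  have h2 : (- sq3 ^ 3) ^ Fintype.card ι = (- sq3 ^ 3) ^ (Fintype.card ι - 1) * (- sq3 ^ 3) := by
    rw [← pow_succ, Nat.sub_add_cancel hc]
  rw [h2] at h1
  have h3 := cY_ne hα hα0 hoα h hk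
  have h4 : (- sq3 ^ 3) * cY α τ k ≠ 0 :=
    mul_ne_zero (neg_ne_zero.2 (pow_ne_zero 3 sq3_ne)) h3
  apply mul_left_cancel₀ h4
  linear_combination -h1

end Comp

/-- A system of representatives of `𝓞 K / a` gives one of `a⁻¹ Λ / Λ`. -/
theorem rp_of {ι : Type*} {a : 𝓞 K} {ρ : ι → 𝓞 K} (ha : a ≠ 0)
    (h : ∀ x : 𝓞 K, ∃! i, a ∣ x - ρ i) :
    Rp (embK (a : K)) (fun i => embK (ρ i : K) / embK (a : K)) := by
  have ha0 : embK (a : K) ≠ 0 := by
    intro h0
    apply ha
    have h1 : (a : K) = 0 := by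
      apply embK.toRingHom.injective
      rw [map_zero]
      exact h0
    exact RingOfIntegers.ext h1
  refine ⟨fun i => ?_, fun x hx => ?_⟩
  · rw [mul_div_cancel₀ _ ha0]
    exact S3.embK_mem _
  · obtain ⟨y, hy⟩ := S3.mem_PP_iff.1 hx
    have key : ∀ i, x - embK (ρ i : K) / embK (a : K) ∈ PP.lattice ↔ a ∣ y - ρ i := by
      intro i
      have e : embK ((y - ρ i : 𝓞 K) : K) =
          embK (a : K) * (x - embK (ρ i : K) / embK (a : K)) := by
        have e1 : ((y - ρ i : 𝓞 K) : K) = (y : K) - (ρ i : K) := rfl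
        rw [e1, map_sub, hy]
        field_simp
      constructor
      · intro hm
        obtain ⟨b, hb⟩ := S3.mem_PP_iff.1 hm
        refine ⟨b, ?_⟩
        apply RingOfIntegers.ext
        apply embK.toRingHom.injective
        have e2 : ((a * b : 𝓞 K) : K) = (a : K) * (b : K) := rfl
        show embK ((y - ρ i : 𝓞 K) : K) = embK ((a * b : 𝓞 K) : K)
        rw [e, e2, map_mul, hb]
      · rintro ⟨b, hb⟩
        rw [hb] at e
        have e2 : ((a * b : 𝓞 K) : K) = (a : K) * (b : K) := rfl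
        rw [e2, map_mul] at e
        have e3 := mul_left_cancel₀ ha0 e
        rw [← e3]
        exact S3.embK_mem b
    obtain ⟨i, hi, hiu⟩ := h y
    exact ⟨i, (key i).2 hi, fun j hj => hiu j ((key j).1 hj)⟩

/-- The product over the nonzero classes of an odd element. -/
theorem norm_prod {ι : Type*} [Fintype ι] [DecidableEq ι] {a : 𝓞 K} {ρ : ι → 𝓞 K} (ha : a ≠ 0)
    (ho : (2 : 𝓞 K) ∣ a - 1) (h : ∀ x : 𝓞 K, ∃! i, a ∣ x - ρ i) {k : ι} (hk : ρ k = 0) :
    (‖embK (a : K)‖ ^ 3 * ‖∏ i ∈ Finset.univ.erase k, Y (embK (ρ i : K) / embK (a : K))‖) ^ 2 =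
      (√3 ^ 3) ^ (Fintype.card ι - 1) := by
  have ha0 : embK (a : K) ≠ 0 := by
    intro h0
    apply ha
    have h1 : (a : K) = 0 := by
      apply embK.toRingHom.injective
      rw [map_zero]
      exact h0
    exact RingOfIntegers.ext h1
  have hoα : (embK (a : K) - 1) / 2 ∈ PP.lattice := by
    obtain ⟨b, hb⟩ := ho
    have e : (embK (a : K) - 1) / 2 = embK (b : K) := by
      have e1 : (a : K) = 1 + 2 * (b : K) := by
        have e2 : a = 1 + 2 * b := by linear_combination hb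
        rw [e2]
        simp only [map_add, map_mul, map_one, map_ofNat]
      rw [e1, map_add, map_mul, map_one, map_ofNat]
      ring
    rw [e]
    exact S3.embK_mem b
  have hk' : embK (ρ k : K) / embK (a : K) ∈ PP.lattice := by
    rw [hk]
    simp [zero_mem]
  have h1 := cY_sq (S3.embK_mem a) ha0 hoα (rp_of ha h) hk'
  have h2 := congrArg norm h1
  rw [norm_pow, cY, norm_mul, norm_pow, norm_pow, norm_neg, norm_pow] at h2
  have h3 : ‖sq3‖ = √3 := by
    have h4 := congrArg norm sq3_sq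
    rw [norm_pow, norm_neg] at h4
    norm_num at h4
    rw [← h4, Real.sqrt_sq (norm_nonneg _)]
  rw [h3] at h2
  exact h2

end

end Pool.Agent.Lib.MP_1a91b9_ntH.RatP
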