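import Pool.Agent.Lib.MP_1a91b9_ntH.A.RatDefs
import Pool.Agent.Lib.MP_1a91b9_ntH.A.RatP

/-!
# TwistDensity, part A, file RatC: the absolute value of the product of `Y` over a half system

The classes `0`, `c i`, `- c i` form a system of representatives modulo `q`; the statement follows from
`RatP.norm_prod` (product formula for `Y`).
-/

set_option autoImplicit false

namespace Pool.Agent.Lib.MP_1a91b9_ntH

open NumberField Pool.Agent.Lib.MP_1a91b9_ntT

noncomputable section

/-- The system of representatives of a half system. -/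
def rhoH {ι : Type} (c : ι → 𝓞 K) : Option (ι ⊕ ι) → 𝓞 K
  | none => 0
  | some (Sum.inl i) => c i
  | some (Sum.inr i) => - c i

theorem rhoH_reps {q : 𝓞 K} (hq : (2 : 𝓞 K) ∣ q - 1) {ι : Type} {c : ι → 𝓞 K}
    (h : HalfSys q c) (x : 𝓞 K) : ∃! i, q ∣ x - rhoH c i := by
  have h2 : ∀ i, ¬ q ∣ c i + c i := by
    intro i hi
    apply h.nz i
    obtain ⟨b, hb⟩ := hq
    have e : c i = q * c i - b * (c i + c i) := by linear_combination -(c i) * hb
    rw [e]
    exact dvd_sub (dvd_mul_right _ _) (Dvd.dvd.mul_left hi _)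
  have uniq : ∀ i j, q ∣ rhoH c i - rhoH c j → i = j := by
    intro i j hij
    rcases i with _ | (i | i) <;> rcases j with _ | (j | j) <;> simp only [rhoH] at hij
    · rfl
    · exact absurd (by simpa using (dvd_neg.2 hij)) (h.nz j)
    · exact absurd (by simpa using hij) (h.nz j)
    · exact absurd (by simpa using hij) (h.nz i)
    · rw [h.inj i j (Or.inl hij)]
    · exfalso
      rw [sub_neg_eq_add] at hij
      have := h.inj i j (Or.inr hij)
      subst this
      exact h2 i hij
    · exact absurd (by simpa using hij) (h.nz i)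
    · exfalso
      have e : -c i - c j = -(c i + c j) := by ring
      rw [e, dvd_neg] at hij
      have := h.inj i j (Or.inr hij)
      subst this
      exact h2 i hij
    · have e : -c i - -c j = -(c i - c j) := by ring
      rw [e, dvd_neg] at hij
      rw [h.inj i j (Or.inl hij)]
  obtain ⟨i, hi⟩ : ∃ i, q ∣ x - rhoH c i := by
    by_cases hx : q ∣ x
    · exact ⟨none, by simpa [rhoH] using hx⟩
    · obtain ⟨i, hi | hi⟩ := h.ex x hx
      · exact ⟨some (Sum.inl i), hi⟩
      · refine ⟨some (Sum.inr i), ?_⟩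
        show q ∣ x - -c i
        rwa [sub_neg_eq_add]
  refine ⟨i, hi, fun j hj => uniq j i ?_⟩
  have e : rhoH c j - rhoH c i = (x - rhoH c i) - (x - rhoH c j) := by ring
  rw [e]
  exact dvd_sub hi hj

theorem half_prod {q : 𝓞 K} (hq0 : q ≠ 0) (hq : (2 : 𝓞 K) ∣ q - 1) {ι : Type} [Fintype ι]
    {c : ι → 𝓞 K} (h : HalfSys q c) :
    ‖∏ i, S3.Y (em (c i) / em q)‖ ^ 2 * ‖em q‖ ^ 3 = √3 ^ (3 * Fintype.card ι) := by
  classical
  have h1 := RatP.norm_prod (ρ := rhoH c) hq0 hq (rhoH_reps hq h) (k := none) rfl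
  have hcard : Fintype.card (Option (ι ⊕ ι)) - 1 = 2 * Fintype.card ι := by
    rw [Fintype.card_option, Fintype.card_sum]
    omega
  have herase : (Finset.univ.erase none : Finset (Option (ι ⊕ ι))) =
      Finset.univ.map Function.Embedding.some := by
    ext x
    cases x <;> simp
  have hprod : ∏ i ∈ (Finset.univ.erase none : Finset (Option (ι ⊕ ι))),
      S3.Y (embK (rhoH c i : K) / embK (q : K)) =
      (∏ i, S3.Y (em (c i) / em q)) * ∏ i, - S3.Y (em (c i) / em q) := by
    rw [herase, Finset.prod_map, Fintype.prod_sum_type]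
    congr 1
    refine Finset.prod_congr rfl fun i _ => ?_
    rw [← RatP.Y_neg]
    congr 1
    show embK ((-c i : 𝓞 K) : K) / embK (q : K) = -(embK (c i : K) / embK (q : K))
    have e : ((-c i : 𝓞 K) : K) = -(c i : K) := rfl
    rw [e, map_neg, neg_div]
  rw [hcard, hprod, norm_mul] at h1
  have e2 : ‖∏ i, - S3.Y (em (c i) / em q)‖ = ‖∏ i, S3.Y (em (c i) / em q)‖ := by
    rw [norm_prod, norm_prod]
    simp only [norm_neg]
  rw [e2] at h1
  have h3 : 0 ≤ ‖∏ i, S3.Y (em (c i) / em q)‖ ^ 2 * ‖em q‖ ^ 3 := by positivity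
  have h4 : (0 : ℝ) ≤ √3 ^ (3 * Fintype.card ι) := by positivity
  rw [← abs_of_nonneg h3, ← abs_of_nonneg h4, ← sq_eq_sq_iff_abs_eq_abs]
  have e5 : (√3 ^ 3) ^ (2 * Fintype.card ι) = (√3 ^ (3 * Fintype.card ι)) ^ 2 := by
    rw [← pow_mul, ← pow_mul]
    congr 1
    ring
  rw [← e5, ← h1]
  show _ = (‖em q‖ ^ 3 * _) ^ 2
  ring
end

end Pool.Agent.Lib.MP_1a91b9_ntH
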