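import Pool.Agent.Lib.MP_1a91b9_ntH.A.RatDefs

/-!
# TwistDensity, part A, file RatG: the action of the automorphisms on `Y` at odd torsion
-/

set_option autoImplicit false

namespace Pool.Agent.Lib.MP_1a91b9_ntH

open NumberField Pool.Agent.Lib.MP_1a91b9_ntT

noncomputable section

private theorem RG_mul (a b : 𝓞 K) : em (a * b) = em a * em b := by
  rw [em, em, em, ← map_mul]
  rfl

private theorem RG_sub (a b : 𝓞 K) : em (a - b) = em a - em b := by
  rw [em, em, em, ← map_sub]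
  rfl

private theorem RG_one : em 1 = 1 := by
  rw [em]
  exact map_one embK

private theorem RG_nat (n : ℕ) : em (n : 𝓞 K) = n := by
  rw [em, ← map_natCast embK n]
  rfl

/-- the action of `τ` on the points of order dividing `M` is the multiplication by `χ` -/
theorem exists_Rel {τ : ℂ ≃+* ℂ} (hτ : Rq.Fix τ) (M : ℕ) (hM : Odd M) (h3 : 3 ∣ M) :
    ∃ χ : 𝓞 K, (3 : 𝓞 K) ∣ χ - 1 ∧ IsCoprime χ (M : 𝓞 K) ∧
      ∀ a : 𝓞 K, Rq.Rel τ (em a / M) (em (χ * a) / M) := by
  have hM0 : (M : ℂ) ≠ 0 := by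
    have := hM.pos
    exact_mod_cast this.ne'
  obtain ⟨w, hw⟩ : ∃ w, Rq.Rel τ (1 / M) w := by
    by_cases h : (1 / M : ℂ) ∈ PP.lattice
    · exact ⟨0, Or.inl ⟨h, zero_mem _⟩⟩
    · exact Rq.rel_exists τ h
  have hMw : (M : ℂ) * w ∈ PP.lattice := by
    have h1 := Rq.relSub_top hτ hM hw (S3.nat_mem M)
    rw [div_self hM0] at h1
    rcases h1 with ⟨-, h1⟩ | ⟨h1, -⟩
    · exact h1
    · exact absurd S3.one_mem h1
  obtain ⟨χ, hχ⟩ := S3.mem_PP_iff.1 hMw
  have hw' : w = em χ / M := by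
    rw [em, hχ]
    field_simp
  have hrel : ∀ a : 𝓞 K, Rq.Rel τ (em a / M) (em (χ * a) / M) := by
    intro a
    have h1 := Rq.relSub_top hτ hM hw (S3.embK_mem a)
    rw [hw'] at h1
    have e : embK (a : K) * (em χ / M) = em (χ * a) / M := by
      rw [RG_mul]
      rw [em, em]
      ring
    rwa [e] at h1
  refine ⟨χ, ?_, ?_, hrel⟩
  · obtain ⟨k, rfl⟩ := h3
    have hk0 : (k : ℂ) ≠ 0 := by
      intro h
      apply hM0
      push_cast
      rw [h, mul_zero]
    have h1 := hrel (k : 𝓞 K)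
    have e1 : em (k : 𝓞 K) / ((3 * k : ℕ) : ℂ) = 1 / 3 := by
      rw [RG_nat]
      push_cast
      field_simp
    have e2 : em (χ * (k : 𝓞 K)) / ((3 * k : ℕ) : ℂ) = em χ * (1 / 3) := by
      rw [RG_mul, mul_div_assoc, e1]
    rw [e1, e2] at h1
    have hg : Rq.Good (1 / 3) := by
      have := Rq.good_odd (m := 3) (by decide) S3.one_mem
      simpa using this
    have h2 := Rq.rel_unique hg (Rq.rel_third hτ) h1
    refine Rq.embK_dvd (M := 3) (by norm_num) ?_
    have e3 : embK ((χ - 1 : 𝓞 K) : K) / ((3 : ℕ) : ℂ) = em χ * (1 / 3) - 1 / 3 := by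
      have h4 := RG_sub χ 1
      rw [RG_one] at h4
      rw [← em, h4]
      push_cast
      ring
    rw [e3]
    exact h2
  · -- multiplication by `χ` is injective modulo `M`
    have hinj : ∀ a : 𝓞 K, (M : 𝓞 K) ∣ χ * a → (M : 𝓞 K) ∣ a := by
      rintro a ⟨y, hy⟩
      have h1 : em (χ * a) / M ∈ PP.lattice := by
        rw [hy, RG_mul, RG_nat, mul_div_cancel_left₀ _ hM0]
        exact S3.embK_mem y
      rcases hrel a with ⟨h2, -⟩ | ⟨-, h2, -⟩
      · exact Rq.embK_dvd hM.pos h2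
      · exact absurd h1 h2
    have hfin : Finite (𝓞 K ⧸ Ideal.span {(M : 𝓞 K)}) :=
      Ideal.finiteQuotientOfFreeOfNeBot _ (by
        rw [Ne, Ideal.span_singleton_eq_bot]
        intro h
        have : (M : 𝓞 K) ≠ 0 := by
          have := hM.pos
          exact_mod_cast this.ne'
        exact this h)
    have hinj2 : Function.Injective
        (fun x : 𝓞 K ⧸ Ideal.span {(M : 𝓞 K)} => Ideal.Quotient.mk _ χ * x) := by
      intro x y hxy
      obtain ⟨a, rfl⟩ := Ideal.Quotient.mk_surjective x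
      obtain ⟨b, rfl⟩ := Ideal.Quotient.mk_surjective y
      simp only at hxy
      rw [← map_mul, ← map_mul, Ideal.Quotient.eq, Ideal.mem_span_singleton, ← mul_sub] at hxy
      rw [Ideal.Quotient.eq, Ideal.mem_span_singleton]
      exact hinj _ hxy
    obtain ⟨x, hx⟩ := (Finite.injective_iff_surjective.1 hinj2) 1
    obtain ⟨a, rfl⟩ := Ideal.Quotient.mk_surjective x
    simp only at hx
    rw [← map_mul, ← map_one (Ideal.Quotient.mk _), Ideal.Quotient.eq,
      Ideal.mem_span_singleton] at hx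
    obtain ⟨y, hy⟩ := hx
    exact ⟨a, -y, by linear_combination hy⟩

/-- `Y` and `X` vanish by definition at the points of the lattice -/
private theorem RG_zero {l : ℂ} (hl : l ∈ PP.lattice) : S3.Y l = 0 := by
  have h : (2 : ℂ) * l ∈ PP.lattice := by
    rw [two_mul]
    exact add_mem hl hl
  rw [S3.Y, S3.Q_half h, zero_div]

theorem exists_rel {τ : ℂ ≃+* ℂ} (hτ : Rq.Fix τ) (M : ℕ) (hM : Odd M) (h3 : 3 ∣ M) :
    ∃ χ : 𝓞 K, (3 : 𝓞 K) ∣ χ - 1 ∧ IsCoprime χ (M : 𝓞 K) ∧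
      ∀ a : 𝓞 K, S3.Y (em (χ * a) / M) = τ (S3.Y (em a / M)) := by
  obtain ⟨χ, h1, h2, h4⟩ := exists_Rel hτ M hM h3
  refine ⟨χ, h1, h2, fun a => ?_⟩
  rcases h4 a with ⟨h5, h6⟩ | ⟨-, -, -, h5⟩
  · rw [RG_zero h5, RG_zero h6, map_zero]
  · exact h5

end

end Pool.Agent.Lib.MP_1a91b9_ntH
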