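import Pool.Agent.Lib.MP_1a91b9_ntH.A.Eul
import Pool.Agent.Lib.MP_1a91b9_ntH.A.RatA
import Pool.Agent.Lib.MP_1a91b9_ntH.A.RatB
import Pool.Agent.Lib.MP_1a91b9_ntH.A.RatC
import Pool.Agent.Lib.MP_1a91b9_ntH.A.RatG
import Pool.Agent.Lib.MP_1a91b9_ntT.Rg.Fx

/-!
# TwistDensity, part A, file RatD: the rationality of the L-quotient
-/

set_option autoImplicit false

namespace Pool.Agent.Lib.MP_1a91b9_ntH

open NumberField Pool.Agent.Lib.MP_1a91b9_ntT

noncomputable section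

theorem RatD_two_dvd {q : 𝓞 K} (hq : (2 : 𝓞 K) ∣ q - 1) : IsCoprime q 2 := by
  obtain ⟨d, hd⟩ := hq
  exact ⟨1, -d, by linear_combination hd⟩

theorem RatD_two (q : Pq) : (2 : 𝓞 K) ∣ q.1 - 1 := (dvd_mul_right _ _).trans q.2.2

theorem RatD_notMem {q a : 𝓞 K} (hq0 : q ≠ 0) (hq : IsCoprime q 2) (ha : ¬ q ∣ a) :
    2 * (em a / em q) ∉ PP.lattice := by
  intro h
  apply ha
  have e : 2 * (em a / em q) = em (((2 : ℕ) : 𝓞 K) * a) / em q := by
    rw [RatA_mul, RatA_ofNat]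
    push_cast
    ring
  rw [e] at h
  have h1 := RatA_dvd hq0 h
  push_cast at h1
  exact hq.dvd_of_dvd_mul_left h1

/-- `Y` at the multiples of `1 / q` depends only on the class. -/
theorem RatD_per {q a b : 𝓞 K} (hq0 : q ≠ 0) (h : q ∣ a - b) :
    S3.Y (em a / em q) = S3.Y (em b / em q) := by
  have h1 := RatA_lat hq0 h
  have e : em a / em q = em b / em q + (em a / em q - em b / em q) := by ring
  rw [e, Rq.Y_add h1]

/-- The number attached to a primary prime: the product of `Y` over a half system. -/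
theorem RatD_exists (q : Pq) : ∃ h : ℂ, h ≠ 0 ∧
    (∃ n : ℕ, Nz q.1 = 2 * n + 1 ∧ ‖h‖ ^ 2 * ‖em q.1‖ ^ 3 = √3 ^ (3 * n)) ∧
    ∀ (τ : ℂ ≃+* ℂ) (χ : 𝓞 K) (M : ℕ), M ≠ 0 → q.1 ∣ (M : 𝓞 K) →
      (∀ a : 𝓞 K, S3.Y (em (χ * a) / M) = τ (S3.Y (em a / M))) → ¬ q.1 ∣ χ →
        τ h = (qs q χ : ℂ) * h := by
  obtain ⟨ι, _, c, hc, hn⟩ := exists_half q
  have hq0 := q.2.1.ne_zero
  have hq2 := RatD_two_dvd (RatD_two q)
  refine ⟨∏ i, S3.Y (em (c i) / em q.1), ?_, ⟨Fintype.card ι, hn, half_prod hq0 (RatD_two q) hc⟩, ?_⟩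
  · exact Finset.prod_ne_zero_iff.2 fun i _ => Rq.Y_ne (RatD_notMem hq0 hq2 (hc.nz i))
  · rintro τ χ M hM ⟨d, hd⟩ hY hχ
    have hM0 : (M : ℂ) ≠ 0 := by exact_mod_cast hM
    have hdM : em q.1 * em d = M := by
      rw [← RatA_mul, ← hd, RatA_ofNat]
    have hd0 : em d ≠ 0 := right_ne_zero_of_mul (hdM ▸ hM0)
    have hf : ∀ a : 𝓞 K, em a / em q.1 = em (a * d) / M := by
      intro a
      rw [← hdM, RatA_mul, mul_div_mul_right _ _ hd0]
    have h1 : ∀ a : 𝓞 K, τ (S3.Y (em a / em q.1)) = S3.Y (em (χ * a) / em q.1) := by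
      intro a
      rw [hf, ← hY, hf, mul_assoc]
    rw [map_prod]
    simp only [h1]
    refine gauss_half q hc (fun a => S3.Y (em a / em q.1)) (fun a b h => RatD_per hq0 h) ?_ hχ
    intro a
    have e : em (-a) / em q.1 = -(em a / em q.1) := by
      have : em (-a) = -em a := by
        have h2 := RatA_sub 0 a
        have h3 := RatA_sub 0 (0 : 𝓞 K)
        rw [zero_sub] at h2
        rw [sub_self, sub_self] at h3
        rw [h2, h3, zero_sub]
      rw [this, neg_div]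
    simp only [e, Rq.Y_neg]

/-- A number is a divisor of its norm. -/
theorem RatD_dvd_Nz (x : 𝓞 K) : x ∣ ((Nz x : ℕ) : 𝓞 K) := by
  have h := Ideal.absNorm_mem (Ideal.span {x})
  rw [Ideal.absNorm_span_singleton, Ideal.mem_span_singleton] at h
  exact h

theorem RatD_Nz_odd (S : Finset Pq) : Odd (Nz (DD S)) := by
  classical
  rw [DD]
  induction S using Finset.induction_on with
  | empty => rw [Finset.prod_empty, Nz_one]; exact odd_one
  | insert q S hq ih =>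
    rw [Finset.prod_insert hq, Nz_mul]
    obtain ⟨_, _, ⟨n, hn, -⟩, -⟩ := RatD_exists q
    exact Odd.mul ⟨n, hn⟩ ih

theorem RatD_em_DD (S : Finset Pq) : em (DD S) = ∏ q ∈ S, em q.1 := by
  classical
  rw [DD]
  induction S using Finset.induction_on with
  | empty => rw [Finset.prod_empty, Finset.prod_empty, RatA_one]
  | insert q S hq ih => rw [Finset.prod_insert hq, Finset.prod_insert hq, RatA_mul, ih]

/-- **The Galois action on the sum.** -/
theorem RatD_sum {S : Finset Pq} {ι : Type} [Fintype ι] {c : ι → 𝓞 K}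
    (h : Reps (6 * DD S) c) {τ : ℂ ≃+* ℂ} {χ : 𝓞 K} (h3 : (3 : 𝓞 K) ∣ χ - 1)
    (hχ : IsCoprime χ ((3 * Nz (DD S) : ℕ) : 𝓞 K))
    (hY : ∀ a : 𝓞 K, S3.Y (em (χ * a) / (3 * Nz (DD S) : ℕ)) =
      τ (S3.Y (em a / (3 * Nz (DD S) : ℕ)))) :
    τ (∑ i, (chi S (c i) : ℂ) / S3.Y (em (c i) / em (6 * DD S) - 1 / 2)) =
      (chi S χ : ℂ) * ∑ i, (chi S (c i) : ℂ) / S3.Y (em (c i) / em (6 * DD S) - 1 / 2) := by
  obtain ⟨m, hm⟩ : Odd (3 * Nz (DD S)) := Odd.mul (by decide) (RatD_Nz_odd S)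
  obtain ⟨M, hM⟩ : ∃ M : ℕ, M = 3 * Nz (DD S) := ⟨_, rfl⟩
  rw [← hM] at hχ hY hm
  have hD0 := DD_ne S
  have hM0 : (M : ℂ) ≠ 0 := by
    have : M ≠ 0 := by omega
    exact_mod_cast this
  have hMO : (M : 𝓞 K) = 2 * m + 1 := by
    rw [hm]
    push_cast
    rfl
  obtain ⟨d, hd⟩ := RatD_dvd_Nz (DD S)
  have hMd : (M : 𝓞 K) = 3 * DD S * d := by
    rw [hM]
    push_cast
    rw [hd]
    ring
  have h3D : (3 * DD S : 𝓞 K) ≠ 0 := mul_ne_zero (by norm_num) hD0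
  have h3Dd : (3 * DD S : 𝓞 K) ∣ (M : 𝓞 K) := ⟨d, hMd⟩
  obtain ⟨e0, he0⟩ := h3
  -- the multiplier
  have hu : IsCoprime (χ + M * (1 - χ)) (6 * DD S) := by
    have h1 : IsCoprime (χ + M * (1 - χ)) (3 * DD S) := by
      refine IsCoprime.of_isCoprime_of_dvd_right ?_ h3Dd
      have h2 : χ + (M : 𝓞 K) * (1 - χ) = χ + (M : 𝓞 K) * (1 - χ) := rfl
      exact hχ.add_mul_left_left (1 - χ)
    have h2 : IsCoprime (χ + M * (1 - χ)) (2 : 𝓞 K) := by
      refine ⟨1, -(m * (1 - χ)), ?_⟩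
      rw [hMO]
      ring
    have e : (6 * DD S : 𝓞 K) = 2 * (3 * DD S) := by ring
    rw [e]
    exact h2.mul_right h1
  have huf : f0 ∣ χ + M * (1 - χ) - 1 := by
    rw [f0]
    refine s3_odd.mul_dvd ?_ ?_
    · refine ⟨m * (1 - χ), ?_⟩
      rw [hMO]
      ring
    · have e : χ + M * (1 - χ) - 1 = (χ - 1) * (1 - M) := by ring
      rw [e, he0]
      exact (s3_dvd_three.mul_right _).mul_right _
  obtain ⟨σ, hσ⟩ := h.perm hu huf
  have hchi : ∀ i, chi S (c (σ i)) = chi S χ * chi S (c i) := by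
    intro i
    have h1 : DD S ∣ (χ + M * (1 - χ)) * c i - c (σ i) := (dvd_mul_left _ _).trans (hσ i)
    have h2 : DD S ∣ (χ + M * (1 - χ)) - χ := by
      have e : (χ + M * (1 - χ)) - χ = M * (1 - χ) := by ring
      rw [e]
      exact ((dvd_mul_left _ _).trans h3Dd).mul_right _
    rw [← chi_congr h1, chi_mul, chi_congr h2]
  have hsq : chi S χ * chi S χ = 1 := by
    have h1 : ¬ chi S χ = 0 := by
      rw [chi_coprime, not_not]
      exact IsCoprime.of_isCoprime_of_dvd_right hχ ((dvd_mul_left _ _).trans h3Dd)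
    rcases chi_cases S χ with h2 | h2 | h2
    · exact absurd h2 h1
    · rw [h2]; norm_num
    · rw [h2]; norm_num
  -- the points
  have hb : ∀ i, ∃ b : 𝓞 K, c i - 3 * DD S = 2 * b := by
    intro i
    obtain ⟨k, hk⟩ : (2 : 𝓞 K) ∣ c i - 1 := (dvd_mul_right _ _).trans (h.fx i)
    obtain ⟨l, hl⟩ := DD_two S
    exact ⟨k - 3 * l - 1, by linear_combination hk - 3 * hl⟩
  choose b hb using hb
  have hQ : ∀ i, em (c i) / em (6 * DD S) - 1 / 2 = em (b i) / em (3 * DD S) := by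
    intro i
    have e1 : c i = 3 * DD S + ((2 : ℕ) : 𝓞 K) * b i := by
      push_cast
      linear_combination hb i
    have e6 : em (6 * DD S) = 2 * em (3 * DD S) := by
      have e : (6 * DD S : 𝓞 K) = ((2 : ℕ) : 𝓞 K) * (3 * DD S) := by push_cast; ring
      rw [e, RatA_mul, RatA_ofNat]
      norm_num
    have h0 := RatA_ne h3D
    rw [e6, e1, RatA_add, RatA_mul ((2 : ℕ) : 𝓞 K) (b i), RatA_ofNat]
    push_cast
    field_simp
    ring
  have hdM : em (3 * DD S) * em d = M := by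
    rw [← RatA_mul, ← hMd, RatA_ofNat]
  have hd0 : em d ≠ 0 := right_ne_zero_of_mul (hdM ▸ hM0)
  have hf : ∀ a : 𝓞 K, em a / em (3 * DD S) = em (a * d) / M := by
    intro a
    rw [← hdM, RatA_mul a d, mul_div_mul_right _ _ hd0]
  have hτ : ∀ i, τ (S3.Y (em (c i) / em (6 * DD S) - 1 / 2)) =
      S3.Y (em (c (σ i)) / em (6 * DD S) - 1 / 2) := by
    intro i
    rw [hQ, hQ, hf, ← hY, ← mul_assoc, ← hf]
    refine RatD_per h3D ?_
    have h1 : (3 * DD S : 𝓞 K) ∣ 2 * (χ * b i - b (σ i)) := by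
      have e : 2 * (χ * b i - b (σ i)) = ((χ + M * (1 - χ)) * c i - c (σ i)) -
          M * ((1 - χ) * c i) + 3 * DD S * (1 - χ) := by
        linear_combination hb (σ i) - χ * hb i
      rw [e]
      refine dvd_add (dvd_sub ?_ (h3Dd.mul_right _)) (dvd_mul_right _ _)
      refine Dvd.dvd.trans ⟨2, ?_⟩ (hσ i)
      ring
    have h2 : IsCoprime (3 * DD S : 𝓞 K) 2 := by
      refine IsCoprime.mul_left ⟨1, -1, by norm_num⟩ ?_
      exact RatD_two_dvd (DD_two S)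
    exact h2.dvd_of_dvd_mul_left h1
  rw [map_sum, Finset.mul_sum, ← Equiv.sum_comp σ (fun i => (chi S χ : ℂ) *
    ((chi S (c i) : ℂ) / S3.Y (em (c i) / em (6 * DD S) - 1 / 2)))]
  refine Finset.sum_congr rfl fun i _ => ?_
  rw [map_div₀, hτ, hchi]
  have h1 : τ (chi S (c i) : ℂ) = (chi S (c i) : ℂ) := map_intCast τ _
  rw [h1, ← mul_div_assoc]
  congr 1
  have h2 : (chi S χ : ℂ) * (chi S χ : ℂ) = 1 := by exact_mod_cast hsq
  push_cast
  linear_combination -(chi S (c i) : ℂ) * h2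

theorem RatD_norm_s3 : ‖em s3‖ = √3 := by
  have h1 := Nz_eq s3
  have h2 : Nz s3 = 3 := by
    have h := Nz_coords 1 2
    have e : ((1 : ℤ) : 𝓞 K) + ((2 : ℤ) : 𝓞 K) * wO = s3 := by
      rw [s3]
      push_cast
      ring
    rw [e] at h
    norm_num at h
    exact_mod_cast h
  rw [h2] at h1
  have h3 : ‖em s3‖ ^ 2 = 3 := by
    rw [em, ← h1]
    norm_num
  rw [← h3, Real.sqrt_sq (norm_nonneg _)]

theorem RatD_Nz (x : 𝓞 K) : (Nz x : ℝ) = ‖em x‖ ^ 2 := Nz_eq x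

/-- the absolute value of the twisting element -/
theorem RatD_dl (S : Finset Pq) :
    ‖em (dl S)‖ = √3 ^ (if (qd.A S).b = 0 then 0 else 1) * ‖em (DD S)‖ := by
  rw [dl, RatA_mul, RatA_mul, norm_mul, norm_mul]
  have h1 : ‖em (if (qd.A S).a = 0 then 1 else -1)‖ = 1 := by
    split_ifs
    · rw [RatA_one, norm_one]
    · have : em (-1) = -1 := by
        have h2 := RatA_sub 0 (1 : 𝓞 K)
        have h3 := RatA_sub 0 (0 : 𝓞 K)
        rw [zero_sub] at h2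
        rw [sub_self, sub_self] at h3
        rw [h2, h3, RatA_one, zero_sub]
      rw [this, norm_neg, norm_one]
  rw [h1, mul_one]
  congr 1
  split_ifs
  · rw [RatA_one, norm_one, pow_zero]
  · rw [RatD_norm_s3, pow_one]

/-- the parity of the sum of the `(N q - 1) / 2` -/
theorem RatD_parity (S : Finset Pq) (n : Pq → ℕ) (hn : ∀ q : Pq, Nz q.1 = 2 * n q + 1) :
    Even (3 * (∑ q ∈ S, n q) + if (qd.A S).b = 0 then 0 else 1) := by
  have h1 : ((∑ q ∈ S, n q : ℕ) : F4) = F4.cj (qd.A S) + qd.A S := by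
    have hcj : ∀ x y : F4, F4.cj (x + y) = F4.cj x + F4.cj y := by decide
    have hs : ∀ T : Finset Pq, F4.cj (∑ q ∈ T, qd.a q) = ∑ q ∈ T, F4.cj (qd.a q) := by
      classical
      intro T
      induction T using Finset.induction_on with
      | empty => rw [Finset.sum_empty, Finset.sum_empty]; rfl
      | insert q T hq ih => rw [Finset.sum_insert hq, Finset.sum_insert hq, hcj, ih]
    rw [Dat.A, hs, ← Finset.sum_add_distrib, Nat.cast_sum]
    refine Finset.sum_congr rfl fun q _ => ?_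
    obtain ⟨m, hm, hm'⟩ := half_norm q
    have e : m = (n q : ℤ) := by
      rw [hn q] at hm
      push_cast at hm
      linarith
    rw [← hm', e]
    push_cast
    rfl
  have h2 : ∀ k : ℕ, Even k ∨ (k : F4) = 1 := by
    intro k
    rcases Nat.even_or_odd k with h | ⟨m, rfl⟩
    · exact Or.inl h
    · right
      push_cast
      have h2 : (2 : F4) = 0 := CharTwo.two_eq_zero
      rw [h2, zero_mul, zero_add]
  have h3 : ∀ k : ℕ, Odd k ∨ (k : F4) = 0 := by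
    intro k
    rcases Nat.even_or_odd k with ⟨m, rfl⟩ | h
    · right
      push_cast
      exact CharTwo.add_self_eq_zero _
    · exact Or.inl h
  by_cases hb : (qd.A S).b = 0
  · rw [if_pos hb, add_zero]
    have h5 : ∀ x : F4, x.b = 0 → F4.cj x + x = 0 := by decide
    have h4 := h5 _ hb
    rcases h2 (∑ q ∈ S, n q) with h | h
    · exact h.mul_left 3
    · rw [h1, h4] at h
      exact absurd h (by decide)
  · rw [if_neg hb]
    have h5 : ∀ x : F4, ¬ x.b = 0 → F4.cj x + x = 1 := by decide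
    have h4 := h5 _ hb
    rcases h3 (∑ q ∈ S, n q) with h | h
    · exact (Odd.mul (by decide) h).add_odd odd_one
    · rw [h1, h4] at h
      exact absurd h (by decide)

/-- **The rationality of the L-quotient.** -/
theorem crat (S : Finset Pq) :
    ∃ q : ℚ, ‖LS S 1‖ ^ 2 * ‖em (dl S)‖ = (q : ℝ) * (‖Om‖ * ‖ep‖) ^ 2 := by
  classical
  choose hh hh0 hhn hhτ using RatD_exists
  choose n hn hn' using hhn
  obtain ⟨ι, _, c, hc, -⟩ := exists_reps S
  obtain ⟨H, hH⟩ : ∃ H : ℂ, H =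
    ∑ i, (chi S (c i) : ℂ) / S3.Y (em (c i) / em (6 * DD S) - 1 / 2) := ⟨_, rfl⟩
  have hLS : LS S 1 = (em (6 * DD S))⁻¹ * (Om * ep * H) := by
    have h1 := euler_id (subset_refl S) hc
    rw [Finset.sdiff_self, Finset.prod_empty, mul_one] at h1
    rw [h1, sum_E1_eq hc, ← hH]
  obtain ⟨P, hP⟩ : ∃ P : ℂ, P = ∏ q ∈ S, hh q := ⟨_, rfl⟩
  have hP0 : P ≠ 0 := by
    rw [hP]
    exact Finset.prod_ne_zero_iff.2 fun q _ => hh0 q
  -- the quotient is in `K`
  obtain ⟨x, hx⟩ : ∃ x : K, embK x = H / P := by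
    refine Rg.mem_K fun τ hτ => ?_
    obtain ⟨χ, h3, hχ, hY⟩ := exists_rel hτ (3 * Nz (DD S)) (Odd.mul (by decide) (RatD_Nz_odd S))
      (dvd_mul_right _ _)
    have h1 := RatD_sum hc h3 hχ hY
    rw [← hH] at h1
    have hM : (3 * Nz (DD S) : ℕ) ≠ 0 := by
      have := (RatD_Nz_odd S).pos
      omega
    have hdM : ∀ q ∈ S, q.1 ∣ ((3 * Nz (DD S) : ℕ) : 𝓞 K) := by
      intro q hq
      have h2 : q.1 ∣ DD S := Finset.dvd_prod_of_mem _ hq
      push_cast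
      exact (h2.trans (RatD_dvd_Nz _)).mul_left _
    have hqχ : ∀ q ∈ S, ¬ q.1 ∣ χ := by
      intro q hq h2
      exact q.2.1.not_isUnit (hχ.isUnit_of_dvd' h2 (hdM q hq))
    have h2 : τ P = (chi S χ : ℂ) * P := by
      rw [hP, map_prod, chi]
      push_cast
      rw [← Finset.prod_mul_distrib]
      exact Finset.prod_congr rfl fun q hq => hhτ q τ χ _ hM (hdM q hq) hY (hqχ q hq)
    have h4 : (chi S χ : ℂ) ≠ 0 := by
      rw [chi]
      push_cast
      refine Finset.prod_ne_zero_iff.2 fun q hq => ?_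
      have h5 : qs q χ ≠ 0 := fun h5 => hqχ q hq (qs_eq_zero.1 h5)
      exact_mod_cast h5
    rw [map_div₀, h1, h2, mul_div_mul_left _ _ h4]
  have hHn : ‖H‖ ^ 2 = ((Algebra.norm ℚ x : ℚ) : ℝ) * ‖P‖ ^ 2 := by
    have h1 : H = embK x * P := by
      rw [hx, div_mul_cancel₀ _ hP0]
    have h2 := norm_K x
    rw [Complex.mul_conj, Complex.normSq_eq_norm_sq] at h2
    have h3 : ((Algebra.norm ℚ x : ℚ) : ℝ) = ‖embK x‖ ^ 2 := by exact_mod_cast h2
    rw [h1, norm_mul, mul_pow, h3]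
  -- the absolute value of the product
  have hPn : ‖P‖ ^ 2 * ‖em (DD S)‖ ^ 3 = √3 ^ (3 * ∑ q ∈ S, n q) := by
    rw [hP, RatD_em_DD, norm_prod, norm_prod, ← Finset.prod_pow, ← Finset.prod_pow,
      ← Finset.prod_mul_distrib, Finset.mul_sum, ← Finset.prod_pow_eq_pow_sum]
    exact Finset.prod_congr rfl fun q _ => hn' q
  obtain ⟨k, hk⟩ := RatD_parity S n hn
  have hD0 : ‖em (DD S)‖ ≠ 0 := norm_ne_zero_iff.2 (RatA_ne (DD_ne S))
  have h60 : ‖em (6 * DD S)‖ ≠ 0 := norm_ne_zero_iff.2 (RatA_ne (RatA_six S))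
  refine ⟨(Algebra.norm ℚ x) * 3 ^ k / ((Nz (6 * DD S) : ℕ) * (Nz (DD S) : ℕ)), ?_⟩
  have h1 : √3 ^ (3 * ∑ q ∈ S, n q) * √3 ^ (if (qd.A S).b = 0 then 0 else 1) = 3 ^ k := by
    rw [← pow_add, hk, ← two_mul, pow_mul, Real.sq_sqrt (by norm_num)]
  have h2 : ‖P‖ ^ 2 * ‖em (dl S)‖ = 3 ^ k / ‖em (DD S)‖ ^ 2 := by
    rw [RatD_dl, eq_div_iff (pow_ne_zero 2 hD0), ← h1, ← hPn]
    ring
  rw [hLS, norm_mul, norm_inv, norm_mul, norm_mul, mul_pow, mul_pow, hHn]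
  push_cast
  rw [RatD_Nz, RatD_Nz]
  have h3 : (‖em (6 * DD S)‖⁻¹) ^ 2 * ((‖Om‖ * ‖ep‖) ^ 2 * (((Algebra.norm ℚ x : ℚ) : ℝ) * ‖P‖ ^ 2)) *
      ‖em (dl S)‖ = ((Algebra.norm ℚ x : ℚ) : ℝ) * (‖P‖ ^ 2 * ‖em (dl S)‖) /
        (‖em (6 * DD S)‖ ^ 2) * (‖Om‖ * ‖ep‖) ^ 2 := by
    field_simp
  rw [h3, h2]
  field_simp

end

end Pool.Agent.Lib.MP_1a91b9_ntH
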