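import Pool.Agent.Lib.MP_1a91b9_ntG.Psi
import Pool.Agent.Lib.MP_1a91b9_ntT.S3.Main
import Pool.Agent.Lib.MP_1a91b9_ntH.R.Defs

/-!
# MP_1a91b9_nt (TwistDensity), part A: the modulus `f0 = 2 √-3` and the places

`f0 = 2 s3`, `IsMod f0`, `em x = embK x`, `plc q` the place of the primary prime `q`.
-/

set_option autoImplicit false

namespace Pool.Agent.Lib.MP_1a91b9_ntH

open NumberField IsDedekindDomain Pool.Agent.Lib.MP_1a91b9_ntT Pool.Agent.Lib.MP_1a91b9_ntG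

noncomputable section

/-- The conductor `2 √-3` of the Hecke character of `y² = x³ + 1`. -/
def f0 : 𝓞 K := 2 * s3

/-- The embedding in `ℂ`. -/
def em (x : 𝓞 K) : ℂ := embK (x : K)

theorem s3_ne : s3 ≠ 0 := by
  intro h
  have h1 := s3_sq
  rw [h] at h1
  norm_num at h1

theorem f0_ne : f0 ≠ 0 := mul_ne_zero two_ne_zero s3_ne

theorem s3_dvd_three : s3 ∣ (3 : 𝓞 K) := ⟨-s3, by linear_combination s3_sq⟩

theorem three_eq : (3 : 𝓞 K) = -s3 ^ 2 := by linear_combination s3_sq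

theorem six_eq : (6 : 𝓞 K) = -(f0 * s3) := by
  rw [f0]
  linear_combination 2 * s3_sq

theorem f0_dvd_six : f0 ∣ (6 : 𝓞 K) := ⟨-s3, by rw [six_eq]; ring⟩

theorem coord (a : 𝓞 K) : ∃ p q : ℤ, a = (p : 𝓞 K) + (q : 𝓞 K) * wO :=
  ⟨(cp a).1, (cp a).2, eq_cp a⟩

theorem red_coord (p q : ℤ) : red ((p : 𝓞 K) + (q : 𝓞 K) * wO) = ⟨(p : ZMod 2), (q : ZMod 2)⟩ := by
  change (⟨_, _⟩ : F4) = _
  rw [cp_coords]

/-- the unit `ω` -/
def omU : (𝓞 K)ˣ where
  val := wO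
  inv := wO ^ 2
  val_inv := by linear_combination (wO - 1) * wO_quad
  inv_val := by linear_combination (wO - 1) * wO_quad

theorem omU_val : (omU : 𝓞 K) = wO := rfl

theorem red_eq_zero {x : 𝓞 K} : red x = 0 ↔ (2 : 𝓞 K) ∣ x := by
  constructor
  · intro h
    obtain ⟨p, q, rfl⟩ := coord x
    rw [red_coord] at h
    have h1 : (p : ZMod 2) = 0 := congrArg F4.a h
    have h2 : (q : ZMod 2) = 0 := congrArg F4.b h
    rw [ZMod.intCast_zmod_eq_zero_iff_dvd] at h1 h2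
    obtain ⟨p', rfl⟩ := h1
    obtain ⟨q', rfl⟩ := h2
    exact ⟨(p' : 𝓞 K) + (q' : 𝓞 K) * wO, by push_cast; ring⟩
  · rintro ⟨y, rfl⟩
    rw [map_mul, map_ofNat]
    have h2 : (2 : F4) = 0 := CharTwo.two_eq_zero
    rw [h2, zero_mul]

theorem red_eq {x y : 𝓞 K} : red x = red y ↔ (2 : 𝓞 K) ∣ x - y := by
  rw [← red_eq_zero, map_sub, sub_eq_zero]

/-- the units of `𝓞 K` are `± ω ^ j`: a unit congruent to `1` modulo `2 √-3` is `1` -/
theorem unit_f0 (u : (𝓞 K)ˣ) (hu : f0 ∣ (u : 𝓞 K) - 1) : u = 1 := by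
  obtain ⟨c, hc⟩ := hu
  obtain ⟨p, q, hpq⟩ := coord c
  have e : (u : 𝓞 K) = ((1 + 2 * (p - 2 * q) : ℤ) : 𝓞 K) + ((2 * (2 * p - q) : ℤ) : 𝓞 K) * wO := by
    rw [hpq, f0, s3] at hc
    push_cast
    linear_combination hc + 4 * (q : 𝓞 K) * wO_quad
  have h2 := Nz_coords (1 + 2 * (p - 2 * q)) (2 * (2 * p - q))
  rw [← e] at h2
  have h3 : Nz (u : 𝓞 K) = 1 := by
    have h4 := Nz_mul (u : 𝓞 K) ((u⁻¹ : (𝓞 K)ˣ) : 𝓞 K)
    rw [Units.mul_inv, Nz_one] at h4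
    exact Nat.eq_one_of_mul_eq_one_right h4.symm
  rw [h3] at h2
  have h4 : (1 + 3 * (p : ℤ) - 3 * q - 3 * q) ^ 2 * 0 = 0 := by ring
  have h5 : (12 : ℤ) * (p ^ 2 - p * q + q ^ 2) - 6 * q = 0 := by
    push_cast at h2
    linear_combination -h2
  have h6 : p = 0 ∧ q = 0 := by
    have h7 : 2 * (p ^ 2 - p * q + q ^ 2) = q := by linarith
    have h8 : 0 ≤ q := by nlinarith [sq_nonneg (2 * p - q), sq_nonneg q]
    have h9 : q ≤ 0 := by
      by_contra hq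
      push Not at hq
      nlinarith [sq_nonneg (2 * p - q), sq_nonneg q]
    have h10 : q = 0 := le_antisymm h9 h8
    subst h10
    have h11 : p ^ 2 = 0 := by linarith
    exact ⟨pow_eq_zero_iff two_ne_zero |>.1 h11, rfl⟩
  apply Units.ext
  rw [e, h6.1, h6.2]
  simp

/-- every element is congruent to `0`, `1` or `-1` modulo `√-3` -/
theorem exists_mod_s3 (a : 𝓞 K) : s3 ∣ a ∨ s3 ∣ a - 1 ∨ s3 ∣ a + 1 := by
  obtain ⟨p, q, rfl⟩ := coord a
  have h1 : ∀ n : ℤ, (p + q) % 3 = n → s3 ∣ (p : 𝓞 K) + (q : 𝓞 K) * wO - (n : 𝓞 K) := by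
    intro n hn
    have h2 := Int.emod_add_mul_ediv (p + q) 3
    rw [hn] at h2
    have h3 := congrArg (fun z : ℤ => (z : 𝓞 K)) h2
    push_cast at h3
    refine ⟨(q : 𝓞 K) * (1 + wO) * 1 - s3 * (((p + q) / 3 : ℤ) : 𝓞 K), ?_⟩
    have h4 := s3_sq
    have h5 : s3 * (1 + wO) = wO - 1 := by
      rw [s3]
      linear_combination 2 * wO_quad
    linear_combination -h3 - (q : 𝓞 K) * h5 + (((p + q) / 3 : ℤ) : 𝓞 K) * h4
  have h2 : (p + q) % 3 = 0 ∨ (p + q) % 3 = 1 ∨ (p + q) % 3 = 2 := by omega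
  rcases h2 with h | h | h
  · left
    have := h1 0 h
    rwa [Int.cast_zero, sub_zero] at this
  · right; left
    have := h1 1 h
    rwa [Int.cast_one] at this
  · right; right
    have := h1 2 h
    have h3 : (p : 𝓞 K) + (q : 𝓞 K) * wO + 1 = ((p : 𝓞 K) + (q : 𝓞 K) * wO - ((2 : ℤ) : 𝓞 K)) + 3 := by
      push_cast
      ring
    rw [h3]
    exact dvd_add this s3_dvd_three

theorem s3_odd : IsCoprime (2 : 𝓞 K) s3 := ⟨2, s3, by linear_combination s3_sq⟩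

theorem two_not_isUnit : ¬ IsUnit (2 : 𝓞 K) := by
  intro h
  have h1 := S4.u4_absNorm_p (K := K) 2
  rw [Nat.cast_ofNat, Ideal.span_singleton_eq_top.2 h, Ideal.absNorm_top] at h1
  omega

theorem s3_not_isUnit : ¬ IsUnit s3 := by
  intro h
  have h1 := S4.u4_absNorm_p (K := K) 3
  have h2 : IsUnit (3 : 𝓞 K) := by
    rw [three_eq]
    exact (h.pow 2).neg
  rw [Nat.cast_ofNat, Ideal.span_singleton_eq_top.2 h2, Ideal.absNorm_top] at h1
  omega

instance isMod_f0 : IsMod f0 where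
  ne := f0_ne
  inj := unit_f0
  surj := by
    intro a ha
    have ha2 : ¬ (2 : 𝓞 K) ∣ a := by
      intro h
      exact two_not_isUnit (ha.isUnit_of_dvd' h (dvd_mul_right _ _))
    have hal : ¬ s3 ∣ a := by
      intro h
      exact s3_not_isUnit (ha.isUnit_of_dvd' h (dvd_mul_left _ _))
    -- the unit modulo 2
    have h1 : ∃ v : (𝓞 K)ˣ, (2 : 𝓞 K) ∣ (v : 𝓞 K) * a - 1 ∧ s3 ∣ (v : 𝓞 K) - 1 := by
      have h2 : red a ≠ 0 := fun h => ha2 (red_eq_zero.1 h)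
      have hw : s3 ∣ wO - 1 := ⟨1 + wO, by rw [s3]; linear_combination -2 * wO_quad⟩
      have hw2 : s3 ∣ wO ^ 2 - 1 := by
        have e : wO ^ 2 - 1 = (wO + 1) * (wO - 1) := by ring
        rw [e]
        exact hw.mul_left _
      have h3 : ∀ y : F4, y ≠ 0 → y = 1 ∨ F4.w * y = 1 ∨ F4.w ^ 2 * y = 1 := by decide
      rcases h3 _ h2 with h | h | h
      · refine ⟨1, ?_, by simp⟩
        rw [← red_eq, map_mul, Units.val_one, map_one, h, one_mul]
      · refine ⟨omU, ?_, ?_⟩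
        · rw [← red_eq, map_mul, omU_val, red_w, h, map_one]
        · rw [omU_val]; exact hw
      · refine ⟨omU ^ 2, ?_, ?_⟩
        · rw [← red_eq, map_mul, Units.val_pow_eq_pow_val, omU_val, map_pow, red_w, h, map_one]
        · rw [Units.val_pow_eq_pow_val, omU_val]; exact hw2
    obtain ⟨v, hv2, hvl⟩ := h1
    have hva : ¬ s3 ∣ (v : 𝓞 K) * a := by
      rintro ⟨c, hc⟩
      apply hal
      refine ⟨((v⁻¹ : (𝓞 K)ˣ) : 𝓞 K) * c, ?_⟩
      have h4 : ((v⁻¹ : (𝓞 K)ˣ) : 𝓞 K) * (v : 𝓞 K) = 1 := Units.inv_mul v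
      linear_combination ((v⁻¹ : (𝓞 K)ˣ) : 𝓞 K) * hc - a * h4
    rcases exists_mod_s3 ((v : 𝓞 K) * a) with h | h | h
    · exact absurd h hva
    · exact ⟨v, s3_odd.mul_dvd hv2 h⟩
    · refine ⟨-v, s3_odd.mul_dvd ?_ ?_⟩
      · rw [Units.val_neg]
        obtain ⟨c, hc⟩ := hv2
        exact ⟨-c - 1, by linear_combination -hc⟩
      · rw [Units.val_neg]
        obtain ⟨c, hc⟩ := h
        exact ⟨-c, by linear_combination -hc⟩


/-- The place of a primary prime. -/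
def plc (q : Pq) : HeightOneSpectrum (𝓞 K) where
  asIdeal := Ideal.span {q.1}
  isPrime := (Ideal.span_singleton_prime q.2.1.ne_zero).2 q.2.1
  ne_bot := by
    rw [Ne, Ideal.span_singleton_eq_bot]
    exact q.2.1.ne_zero

theorem f0_dvd (q : Pq) : f0 ∣ q.1 - 1 := q.2.2

theorem psK_plc (q : Pq) : psK f0 (plc q).asIdeal = q.1 := psK_span _ (f0_dvd q)

theorem plc_inj {p q : Pq} (h : plc p = plc q) : p = q := by
  apply Subtype.ext
  rw [← psK_plc, h, psK_plc]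

theorem mem_plc {q : Pq} {x : 𝓞 K} : x ∈ (plc q).asIdeal ↔ q.1 ∣ x := Ideal.mem_span_singleton

theorem coprime_of_six (v : HeightOneSpectrum (𝓞 K)) (h : (6 : 𝓞 K) ∉ v.asIdeal) :
    IsCoprime v.asIdeal (Ideal.span {f0}) := by
  rw [Ideal.isCoprime_iff_sup_eq]
  by_contra hc
  have h1 : v.asIdeal = v.asIdeal ⊔ Ideal.span {f0} :=
    v.isMaximal.eq_of_le hc le_sup_left
  have h2 : f0 ∈ v.asIdeal := by
    rw [h1]
    exact Ideal.mem_sup_right (Ideal.mem_span_singleton_self _)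
  exact h (Ideal.mem_of_dvd _ f0_dvd_six h2)

/-- Every place prime to `6` is the place of a primary prime. -/
theorem exists_plc (v : HeightOneSpectrum (𝓞 K)) (h : (6 : 𝓞 K) ∉ v.asIdeal) :
    ∃ q : Pq, plc q = v := by
  obtain ⟨h1, h2⟩ := psK_of_coprime _ (coprime_of_six v h)
  have hp : Prime (psK f0 v.asIdeal) := by
    rw [← Ideal.span_singleton_prime, h2]
    · exact v.isPrime
    · intro h0
      apply v.ne_bot
      rw [← h2, h0, Ideal.span_singleton_eq_bot]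
  exact ⟨⟨psK f0 v.asIdeal, hp, h1⟩, HeightOneSpectrum.ext h2⟩

/-- A primary prime is prime to `6`. -/
theorem six_notMem (q : Pq) : (6 : 𝓞 K) ∉ (plc q).asIdeal := by
  rw [mem_plc]
  intro h
  obtain ⟨c, hc⟩ := f0_dvd q
  have h1 : q.1 ∣ f0 * s3 := by
    have h2 : f0 * s3 = -6 := by rw [six_eq]; ring
    rw [h2]
    exact h.neg_right
  have h3 : q.1 ∣ s3 ∨ q.1 ∣ f0 := (q.2.1.dvd_or_dvd h1).symm
  have h4 : q.1 ∣ f0 := by
    rcases h3 with h3 | h3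
    · exact h3.mul_left _
    · exact h3
  apply q.2.1.not_isUnit
  refine isUnit_of_dvd_one ?_
  have h5 : q.1 ∣ q.1 - f0 * c := dvd_sub dvd_rfl (h4.mul_right c)
  have h6 : q.1 - f0 * c = 1 := by linear_combination hc
  obtain ⟨d, hd⟩ := h5
  exact ⟨d, h6.symm.trans hd⟩

theorem ps_self (I : Ideal (𝓞 K)) : ps f0 K I = psK f0 I := by
  obtain ⟨g, hg⟩ := (IsPrincipalIdealRing.principal I).principal
  have hg' : I = Ideal.span {g} := hg
  subst hg'
  have h1 : (S4.nK (F := K) g : 𝓞 K) = g := by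
    apply RingOfIntegers.ext
    rw [S4.nK_coe, Algebra.norm_self]
    rfl
  rw [ps, S4.relNorm_span, h1]

theorem psC_self (I : Ideal (𝓞 K)) : psC f0 K I = em (psK f0 I) := by
  rw [psC, ps_self]
  rfl

theorem psbC_self (I : Ideal (𝓞 K)) : psbC f0 K I = (starRingEnd ℂ) (em (psK f0 I)) := by
  rw [psbC, psC_self]

theorem psbC_plc (q : Pq) : psbC f0 K (plc q).asIdeal = (starRingEnd ℂ) (em q.1) := by
  rw [psbC_self, psK_plc]

end

end Pool.Agent.Lib.MP_1a91b9_ntH
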