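import Pool.Agent.Lib.MP_1a91b9_ntH.A.Base
import Pool.Agent.Lib.MP_1a91b9_ntH.R.Cnt

/-!
# TwistDensity, part A, file Chi: the quadratic symbols

(`qs_one`, `qs_mul`, `qs_congr`, `chi_empty`, `chi_one`, `chi_mul`, `chi_congr` are in `R.Qd`.)
-/

set_option autoImplicit false

namespace Pool.Agent.Lib.MP_1a91b9_ntH

open NumberField IsDedekindDomain Pool.Agent.Lib.MP_1a91b9_ntT Pool.Agent.Lib.MP_1a91b9_ntG

noncomputable section

theorem qs_cases (p : Pq) (x : 𝓞 K) : qs p x = 0 ∨ qs p x = 1 ∨ qs p x = -1 := by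
  by_cases h : p.1 ∣ x
  · exact Or.inl (qs_of_dvd h)
  · exact Or.inr (qs_one_or h)

theorem qs_eq_zero {p : Pq} {x : 𝓞 K} : qs p x = 0 ↔ p.1 ∣ x := qs_eq_zero_iff

/-- the sum over a system of representatives of the nonzero classes modulo `p` of `1 + qs` -/
theorem qs_sum (p : Pq) {ι : Type*} [Fintype ι] (c : ι → 𝓞 K) (h0 : ∀ i, ¬ p.1 ∣ c i)
    (hex : ∀ a : 𝓞 K, ¬ p.1 ∣ a → ∃ i, p.1 ∣ a - c i) (hinj : ∀ i j, p.1 ∣ c i - c j → i = j) :
    ∑ i, (1 + qs p (c i)) = (Nz p.1 : ℤ) - 1 := by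
  classical
  have e1 : ∀ i, (1 + qs p (c i)) = if qs p (c i) = 1 then (2 : ℤ) else 0 := by
    intro i
    rcases qs_one_or (h0 i) with h | h <;> rw [h] <;> norm_num
  rw [Finset.sum_congr rfl fun i _ => e1 i, ← Finset.sum_filter, Finset.sum_const, nsmul_eq_mul]
  have e2 : (Finset.univ.filter fun i => qs p (c i) = 1).card = (Nz p.1 - 1) / 2 := by
    rw [← card_squares p, ← Fintype.card_subtype, ← Nat.card_eq_fintype_card]
    apply Nat.card_congr
    refine Equiv.ofBijective (fun i => ⟨Ideal.Quotient.mk (Ideal.span {p.1}) (c i.1),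
      qs_eq_one_iff.1 i.2⟩) ⟨?_, ?_⟩
    · rintro ⟨i, hi⟩ ⟨j, hj⟩ h
      have h1 := congrArg Subtype.val h
      change Ideal.Quotient.mk (Ideal.span {p.1}) (c i) = Ideal.Quotient.mk _ (c j) at h1
      rw [Ideal.Quotient.eq, Ideal.mem_span_singleton] at h1
      exact Subtype.ext (hinj i j h1)
    · rintro ⟨x, hx⟩
      obtain ⟨a, rfl⟩ := Ideal.Quotient.mk_surjective x
      have ha : ¬ p.1 ∣ a := by
        intro hd
        exact hx.1 (Ideal.Quotient.eq_zero_iff_mem.2 (Ideal.mem_span_singleton.2 hd))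
      obtain ⟨i, hi⟩ := hex a ha
      have h1 : Ideal.Quotient.mk (Ideal.span {p.1}) a = Ideal.Quotient.mk _ (c i) := by
        rw [Ideal.Quotient.eq, Ideal.mem_span_singleton]
        exact hi
      refine ⟨⟨i, ?_⟩, ?_⟩
      · rw [← qs_congr hi]
        exact qs_eq_one_iff.2 hx
      · apply Subtype.ext
        exact h1.symm
  rw [e2]
  have h1 := Nz_q_odd p
  have h2 := Nz_two_le p.prime
  omega

theorem chi_cases (S : Finset Pq) (x : 𝓞 K) : chi S x = 0 ∨ chi S x = 1 ∨ chi S x = -1 :=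
  chi_sq_or S x

theorem chi_eq_zero {S : Finset Pq} {x : 𝓞 K} : chi S x = 0 ↔ ∃ p ∈ S, p.1 ∣ x :=
  chi_eq_zero_iff

theorem Pq_coprime {p : Pq} {x : 𝓞 K} : IsCoprime x p.1 ↔ ¬ p.1 ∣ x := by
  constructor
  · intro h hd
    exact p.prime.not_isUnit (h.isUnit_of_dvd' hd dvd_rfl)
  · intro h
    obtain ⟨y, i, hi, h1⟩ := (RF_max p).exists_inv (x := x)
      (fun hm => h (Ideal.mem_span_singleton.1 hm))
    obtain ⟨z, rfl⟩ := Ideal.mem_span_singleton.1 hi
    exact ⟨y, z, by linear_combination h1⟩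

theorem chi_coprime {S : Finset Pq} {x : 𝓞 K} : chi S x = 0 ↔ ¬ IsCoprime x (DD S) := by
  rw [chi_eq_zero, DD, IsCoprime.prod_right_iff]
  push Not
  constructor
  · rintro ⟨p, hp, hd⟩
    exact ⟨p, hp, fun h => (Pq_coprime.1 h) hd⟩
  · rintro ⟨p, hp, hd⟩
    refine ⟨p, hp, ?_⟩
    by_contra h
    exact hd (Pq_coprime.2 h)

/-- the symbols of the system `qd` -/
theorem chi_qd {S : Finset Pq} {q : Pq} (h : q ∉ S) :
    ∃ n : ℤ, chi S q.1 = 1 - 2 * n ∧ (n : F4) = ∑ p ∈ S, F4.of (qd.s q p) := by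
  classical
  have e1 : ∑ p ∈ S, F4.of (qd.s q p) = F4.of (∑ p ∈ S, qd.s q p) := by
    clear h
    induction S using Finset.induction_on with
    | empty => rw [Finset.sum_empty, Finset.sum_empty]; rfl
    | insert a S ha ih =>
      rw [Finset.sum_insert ha, Finset.sum_insert ha, ih]
      rfl
  rw [e1, chi_prime h]
  generalize ∑ p ∈ S, qd.s q p = x
  have hx : x = 0 ∨ x = 1 := by revert x; decide
  rcases hx with rfl | rfl
  · refine ⟨0, ?_, ?_⟩
    · have : sgz 0 = 1 := rfl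
      rw [this]; norm_num
    · have : F4.of 0 = 0 := rfl
      rw [this]; norm_num
  · refine ⟨1, ?_, ?_⟩
    · have : sgz 1 = -1 := rfl
      rw [this]; norm_num
    · have : F4.of 1 = 1 := rfl
      rw [this]; norm_num

/-- from the reciprocity law: the symbols of `-1` -/
theorem chi_neg_one' (S : Finset Pq) : chi S (-1) = if (qd.A S).b = 0 then 1 else -1 :=
  chi_neg_one S

/-- from the reciprocity law: `dl S` is a square modulo `q` iff `chi S q = 1` -/
theorem chi_recip {S : Finset Pq} {q : Pq} (_h : q ∉ S) : qs q (dl S) = chi S q.1 :=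
  qs_dl S q

theorem Pq_ndvd {p q : Pq} (h : p ≠ q) : ¬ p.1 ∣ q.1 := Pq.not_dvd h

theorem DD_f0 (S : Finset Pq) : f0 ∣ DD S - 1 := by
  classical
  rw [DD]
  induction S using Finset.induction_on with
  | empty => rw [Finset.prod_empty, sub_self]; exact dvd_zero _
  | insert a S ha ih =>
    rw [Finset.prod_insert ha]
    have e : a.1 * ∏ q ∈ S, q.1 - 1 = (a.1 - 1) * ∏ q ∈ S, q.1 + (∏ q ∈ S, q.1 - 1) := by ring
    rw [e]
    exact dvd_add ((f0_dvd a).mul_right _) ih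

theorem DD_two (S : Finset Pq) : (2 : 𝓞 K) ∣ DD S - 1 := by
  have h : (2 : 𝓞 K) ∣ f0 := ⟨s3, rfl⟩
  exact h.trans (DD_f0 S)

theorem DD_ne (S : Finset Pq) : DD S ≠ 0 := by
  rw [DD, Finset.prod_ne_zero_iff]
  exact fun q _ => q.prime.ne_zero

theorem DD_cls (S : Finset Pq) : ∃ c : 𝓞 K, DD S = 1 + 2 * c ∧ red c = qd.A S := by
  classical
  rw [DD]
  change ∃ c : 𝓞 K, _ = 1 + 2 * c ∧ red c = ∑ q ∈ S, qd.a q
  induction S using Finset.induction_on with
  | empty => exact ⟨0, by rw [Finset.prod_empty]; ring, by rw [Finset.sum_empty, map_zero]⟩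
  | insert a S ha ih =>
    obtain ⟨c, hc, hc'⟩ := ih
    refine ⟨half a.1 + c + 2 * (half a.1 * c), ?_, ?_⟩
    · rw [Finset.prod_insert ha, hc]
      linear_combination (1 + 2 * c) * half_spec a.two_dvd
    · rw [Finset.sum_insert ha, map_add, map_add, hc', red_eq_zero.2 (dvd_mul_right _ _), add_zero]
      rfl

theorem dl_four (S : Finset Pq) : (4 : 𝓞 K) ∣ dl S - 1 := by
  obtain ⟨c, hc, hc'⟩ := DD_cls S
  unfold dl
  rw [hc, ← hc']
  obtain ⟨p, q, rfl⟩ := coord c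
  rw [red_coord]
  have hz : ∀ n : ℤ, ((n : ZMod 2) = 0) ↔ n % 2 = 0 := by
    intro n
    rw [ZMod.intCast_zmod_eq_zero_iff_dvd]
    omega
  simp only [hz]
  have hp : p = 2 * (p / 2) + p % 2 := by omega
  have hq : q = 2 * (q / 2) + q % 2 := by omega
  rcases Int.emod_two_eq_zero_or_one p with h1 | h1 <;>
    rcases Int.emod_two_eq_zero_or_one q with h2 | h2 <;>
    rw [h1, h2] <;> rw [h1] at hp <;> rw [h2] at hq <;>
    (rw [hp, hq]; generalize p / 2 = p'; generalize q / 2 = q')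
  · refine ⟨(p' : 𝓞 K) + q' * wO, ?_⟩
    rw [if_pos rfl, if_pos rfl]
    push_cast
    ring
  · refine ⟨s3 * ((p' : 𝓞 K) + q' * wO) - 1, ?_⟩
    rw [if_neg one_ne_zero, if_pos rfl]
    push_cast
    have e : s3 = 1 + 2 * wO := rfl
    linear_combination s3_sq - s3 * e
  · refine ⟨-((p' : 𝓞 K) + q' * wO) - 1, ?_⟩
    rw [if_pos rfl, if_neg one_ne_zero]
    push_cast
    ring
  · refine ⟨-s3 * ((p' : 𝓞 K) + q' * wO) - wO, ?_⟩
    rw [if_neg one_ne_zero, if_neg one_ne_zero]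
    push_cast
    have e : s3 = 1 + 2 * wO := rfl
    linear_combination -s3_sq + (s3 - 2) * e

theorem half_norm (q : Pq) :
    ∃ n : ℤ, (Nz q.1 : ℤ) - 1 = 2 * n ∧ (n : F4) = F4.cj (qd.a q) + qd.a q := by
  refine ⟨q.c1 + 2 * (q.c0 + q.c0 ^ 2 - q.c1 - q.c0 * q.c1 + q.c1 ^ 2), ?_, ?_⟩
  · rw [Nz_q]; ring
  · have h2 : (2 : F4) = 0 := CharTwo.two_eq_zero
    have h3 : ∀ x : F4, F4.cj x + x = F4.of x.b := by decide
    have h4 : ∀ n : ℤ, (n : F4) = F4.of (n : ZMod 2) := by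
      intro n
      have e1 : ((n : 𝓞 K) : 𝓞 K) = (n : 𝓞 K) + ((0 : ℤ) : 𝓞 K) * wO := by push_cast; ring
      have e2 := congrArg red e1
      rw [red_coord, map_intCast] at e2
      rw [e2]
      simp [F4.of]
    rw [h3, h4]
    rw [q.a_eq]
    change _ = F4.of (q.c1 : ZMod 2)
    congr 1
    push_cast
    have h5 : (2 : ZMod 2) = 0 := rfl
    rw [h5, zero_mul, add_zero]

end

end Pool.Agent.Lib.MP_1a91b9_ntH
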