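import Pool.Agent.Lib.MP_1a91b9_ntH.A.Sum
import Pool.Agent.Lib.MP_1a91b9_ntT.S4.Compare
import Pool.Agent.Lib.MP_1a91b9_ntT.S4.TwoAdic

/-!
# TwistDensity, part A, file Eul: the L-series of the twists and the averaging identity at `s = 1`
-/

set_option autoImplicit false

namespace Pool.Agent.Lib.MP_1a91b9_ntH

open NumberField IsDedekindDomain Pool.Agent.Lib.MP_1a91b9_ntT Pool.Agent.Lib.MP_1a91b9_ntG
open Pool.Agent.Lib.MP_1a91b9_ntT.S4 (Lf)

noncomputable section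

/-- the coefficients of the L-series of `ψbar χ_S` -/
def pX (S : Finset Pq) (I : Ideal (𝓞 K)) : ℂ := psbC f0 K I * (chi S (psK f0 I) : ℂ)

theorem pX_one (S : Finset Pq) : pX S 1 = 1 := by
  rw [pX, psbC_one, psK_one, chi_one]
  simp

theorem pX_mul (S : Finset Pq) (I J : Ideal (𝓞 K)) : pX S (I * J) = pX S I * pX S J := by
  rw [pX, psbC_mul, psK_mul, chi_mul, pX, pX]
  push_cast
  ring

theorem Eul_norm_chi (S : Finset Pq) (x : 𝓞 K) : ‖(chi S x : ℂ)‖ ≤ 1 := by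
  rcases chi_cases S x with h | h | h <;> rw [h] <;> simp

theorem pX_le (S : Finset Pq) (I : Ideal (𝓞 K)) :
    ‖pX S I‖ ≤ (Ideal.absNorm I : ℝ) ^ (1 / 2 : ℝ) := by
  have h1 := norm_psbC_le (f := f0) I
  have h2 := Eul_norm_chi S (psK f0 I)
  rw [pX, norm_mul]
  calc ‖psbC f0 K I‖ * ‖(chi S (psK f0 I) : ℂ)‖ ≤ (Ideal.absNorm I : ℝ) ^ (1 / 2 : ℝ) * 1 :=
        mul_le_mul h1 h2 (norm_nonneg _) (by positivity)
    _ = _ := mul_one _

theorem pX_plc (S : Finset Pq) (q : Pq) :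
    pX S (plc q).asIdeal = (starRingEnd ℂ) (em q.1) * (chi S q.1 : ℂ) := by
  rw [pX, psbC_plc, psK_plc]

theorem Eul_not_coprime {v : HeightOneSpectrum (𝓞 K)} (h : f0 ∈ v.asIdeal) :
    ¬ IsCoprime v.asIdeal (Ideal.span {f0}) := by
  intro hc
  have h1 := Ideal.isCoprime_iff_sup_eq.mp hc
  have h2 : v.asIdeal ⊔ Ideal.span {f0} ≤ v.asIdeal :=
    sup_le le_rfl ((Ideal.span_singleton_le_iff_mem _).2 h)
  rw [h1, top_le_iff] at h2
  exact v.isPrime.ne_top h2

theorem Eul_psbC_bad {v : HeightOneSpectrum (𝓞 K)} (h : f0 ∈ v.asIdeal) :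
    psbC f0 K v.asIdeal = 0 := by
  rw [psbC_self, psK_of_not_coprime _ (Eul_not_coprime h)]
  simp [em]

theorem pX_bad (S : Finset Pq) (v : HeightOneSpectrum (𝓞 K)) (h : f0 ∈ v.asIdeal) :
    pX S v.asIdeal = 0 := by
  rw [pX, Eul_psbC_bad h, zero_mul]

/-! ### The restricted coefficients -/

open Classical in
/-- `χ_S` restricted to the elements prime to `6 DD D` -/
def EulX (S D : Finset Pq) (a : 𝓞 K) : ℂ := if IsCoprime a (6 * DD D) then (chi S a : ℂ) else 0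

theorem EulX_pos {S D : Finset Pq} {a : 𝓞 K} (h : IsCoprime a (6 * DD D)) :
    EulX S D a = (chi S a : ℂ) := by
  unfold EulX
  exact if_pos h

theorem EulX_neg {S D : Finset Pq} {a : 𝓞 K} (h : ¬ IsCoprime a (6 * DD D)) :
    EulX S D a = 0 := by
  unfold EulX
  exact if_neg h

theorem Eul_DD_dvd {S D : Finset Pq} (h : S ⊆ D) : DD S ∣ DD D := Finset.prod_dvd_prod_of_subset _ _ _ h

theorem Eul_cop {ν a b : 𝓞 K} (h : ν ∣ a - b) (hb : IsCoprime b ν) : IsCoprime a ν := by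
  obtain ⟨e, he⟩ := h
  obtain ⟨p, q, hpq⟩ := hb
  exact ⟨p, q - p * e, by linear_combination p * he + hpq⟩

theorem EulX_congr {S D : Finset Pq} (hS : S ⊆ D) {a b : 𝓞 K} (h : 6 * DD D ∣ a - b) :
    EulX S D a = EulX S D b := by
  by_cases hb : IsCoprime b (6 * DD D)
  · have ha := Eul_cop h hb
    rw [EulX_pos ha, EulX_pos hb, chi_congr]
    exact (Eul_DD_dvd hS).trans ((dvd_mul_left _ _).trans h)
  · have ha : ¬ IsCoprime a (6 * DD D) := by
      intro ha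
      apply hb
      refine Eul_cop ?_ ha
      rw [← neg_sub, dvd_neg]
      exact h
    rw [EulX_neg ha, EulX_neg hb]

theorem EulX_one (S D : Finset Pq) : EulX S D 1 = 1 := by
  rw [EulX_pos isCoprime_one_left, chi_one]
  simp

theorem EulX_mul (S D : Finset Pq) (a b : 𝓞 K) : EulX S D (a * b) = EulX S D a * EulX S D b := by
  by_cases ha : IsCoprime a (6 * DD D)
  · by_cases hb : IsCoprime b (6 * DD D)
    · rw [EulX_pos (IsCoprime.mul_left ha hb), EulX_pos ha, EulX_pos hb, chi_mul]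
      push_cast
      ring
    · rw [EulX_neg hb, mul_zero, EulX_neg]
      intro h
      exact hb (IsCoprime.of_mul_left_right h)
  · rw [EulX_neg ha, zero_mul, EulX_neg]
    intro h
    exact ha (IsCoprime.of_mul_left_left h)

theorem EulX_le (S D : Finset Pq) (a : 𝓞 K) : ‖EulX S D a‖ ≤ 1 := by
  by_cases ha : IsCoprime a (6 * DD D)
  · rw [EulX_pos ha]
    exact Eul_norm_chi S a
  · rw [EulX_neg ha, norm_zero]
    exact zero_le_one

/-- an element congruent to `1` modulo `f0` is prime to `6` -/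
theorem Eul_cop_six {a : 𝓞 K} (h : f0 ∣ a - 1) : IsCoprime a 6 := by
  obtain ⟨c, hc⟩ := h
  have h1 : IsCoprime a f0 := ⟨1, -c, by linear_combination hc⟩
  have h2 : IsCoprime a s3 := h1.of_isCoprime_of_dvd_right (dvd_mul_left _ _)
  rw [six_eq]
  exact (IsCoprime.mul_right h1 h2).neg_right

theorem Eul_Pq_six (q : Pq) : IsCoprime q.1 6 := Eul_cop_six (f0_dvd q)

/-- the restricted coefficients -/
def EulG (S D : Finset Pq) (I : Ideal (𝓞 K)) : ℂ := psbC f0 K I * EulX S D (psK f0 I)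

theorem EulG_self (S : Finset Pq) : EulG S S = pX S := by
  funext I
  rw [EulG, pX]
  by_cases hc : IsCoprime I (Ideal.span {f0})
  · by_cases ha : IsCoprime (psK f0 I) (6 * DD S)
    · rw [EulX_pos ha]
    · have h1 : ¬ IsCoprime (psK f0 I) (DD S) := fun h =>
        ha (IsCoprime.mul_right (Eul_cop_six (psK_of_coprime _ hc).1) h)
      rw [EulX_neg ha, chi_coprime.2 h1]
      simp
  · rw [psbC_self, psK_of_not_coprime _ hc]
    simp [em]

theorem EulG_one (S D : Finset Pq) : EulG S D 1 = 1 := by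
  rw [EulG, psbC_one, psK_one, EulX_one, mul_one]

theorem EulG_mul (S D : Finset Pq) (I J : Ideal (𝓞 K)) :
    EulG S D (I * J) = EulG S D I * EulG S D J := by
  rw [EulG, psbC_mul, psK_mul, EulX_mul, EulG, EulG]
  ring

theorem EulG_le (S D : Finset Pq) (I : Ideal (𝓞 K)) :
    ‖EulG S D I‖ ≤ (Ideal.absNorm I : ℝ) ^ (1 / 2 : ℝ) := by
  have h1 := norm_psbC_le (f := f0) I
  have h2 := EulX_le S D (psK f0 I)
  rw [EulG, norm_mul]
  calc ‖psbC f0 K I‖ * ‖EulX S D (psK f0 I)‖ ≤ (Ideal.absNorm I : ℝ) ^ (1 / 2 : ℝ) * 1 :=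
        mul_le_mul h1 h2 (norm_nonneg _) (by positivity)
    _ = _ := mul_one _

/-- the continuation -/
theorem EulG_exists {S D : Finset Pq} (hS : S ⊆ D) {ι : Type} [Fintype ι] {c : ι → 𝓞 K}
    (h : Reps (6 * DD D) c) : ∃ A : ℂ → ℂ, Differentiable ℂ A ∧
      (∀ s : ℂ, 2 < s.re → A s = Lf (EulG S D) s) ∧
      A 1 = (em (6 * DD D))⁻¹ * ∑ i, (chi S (c i) : ℂ) * E1 (em (c i) / em (6 * DD D)) := by
  obtain ⟨A, h1, h2, h3⟩ := exists_sum h (EulX S D) (fun a ha => EulX_neg ha)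
    (fun a b hab => EulX_congr hS hab)
  refine ⟨A, h1, h2, ?_⟩
  rw [h3]
  have h4 : ∀ i, EulX S D (c i) = (chi S (c i) : ℂ) := fun i => EulX_pos (h.cop i)
  simp only [h4]

theorem exists_LS (S : Finset Pq) : ∃ L : ℂ → ℂ, Differentiable ℂ L ∧
    ∀ s : ℂ, 2 < s.re → L s = Lf (pX S) s := by
  obtain ⟨ι, _, c, h, -⟩ := exists_reps S
  obtain ⟨A, h1, h2, -⟩ := EulG_exists (subset_refl S) h
  refine ⟨A, h1, fun s hs => ?_⟩
  rw [h2 s hs, EulG_self]

/-- the entire continuation of the L-series of `ψbar χ_S` -/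
def LS (S : Finset Pq) : ℂ → ℂ := (exists_LS S).choose

theorem LS_diff (S : Finset Pq) : Differentiable ℂ (LS S) := (exists_LS S).choose_spec.1

theorem LS_eq (S : Finset Pq) (s : ℂ) (hs : 2 < s.re) : LS S s = Lf (pX S) s :=
  (exists_LS S).choose_spec.2 s hs

/-- the Euler factors are entire -/
theorem Eul_diff (T : Finset (HeightOneSpectrum (𝓞 K))) (f : HeightOneSpectrum (𝓞 K) → ℂ) :
    Differentiable ℂ fun s : ℂ => ∏ v ∈ T, (1 - f v * (Ideal.absNorm v.asIdeal : ℂ) ^ (-s)) := by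
  have h : ∀ v : HeightOneSpectrum (𝓞 K), Differentiable ℂ
      fun s : ℂ => (1 - f v * (Ideal.absNorm v.asIdeal : ℂ) ^ (-s)) := by
    intro v
    refine (differentiable_const _).sub ((differentiable_const _).mul ?_)
    refine differentiable_neg.const_cpow (Or.inl ?_)
    have := Ideal.absNorm_ne_zero_iff_mem_nonZeroDivisors.mpr
      (mem_nonZeroDivisors_iff_ne_zero.mpr v.ne_bot)
    exact_mod_cast this
  exact Differentiable.fun_finsetProd fun v _ => h v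

/-- the primary primes dividing `DD D` -/
theorem Eul_mem {D : Finset Pq} {q : Pq} (h : ¬ IsCoprime q.1 (6 * DD D)) : q ∈ D := by
  have h1 : ¬ IsCoprime q.1 (DD D) := fun h1 => h (IsCoprime.mul_right (Eul_Pq_six q) h1)
  obtain ⟨p, hp, hd⟩ := chi_eq_zero.1 (chi_coprime.2 h1)
  by_contra hq
  exact Pq_ndvd (fun e : p = q => hq (by rw [← e]; exact hp)) hd

theorem Eul_not_cop {D : Finset Pq} {q : Pq} (h : q ∈ D) : ¬ IsCoprime q.1 (6 * DD D) := by
  intro h1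
  have h2 : IsCoprime q.1 q.1 :=
    h1.of_isCoprime_of_dvd_right ((Finset.dvd_prod_of_mem (fun q : Pq => q.1) h).mul_left _)
  exact q.2.1.not_isUnit (isCoprime_self.1 h2)

/-- the places of the primary primes -/
def Eul_emb : Pq ↪ HeightOneSpectrum (𝓞 K) := ⟨plc, fun _ _ h => plc_inj h⟩

/-- every place is bad or the place of a primary prime -/
theorem Eul_place (v : HeightOneSpectrum (𝓞 K)) : f0 ∈ v.asIdeal ∨ ∃ q : Pq, plc q = v := by
  by_cases h : (6 : 𝓞 K) ∈ v.asIdeal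
  · left
    rw [six_eq, neg_mem_iff] at h
    rcases v.isPrime.mem_or_mem h with h1 | h1
    · exact h1
    · exact Ideal.mul_mem_left _ _ h1
  · right
    exact exists_plc v h

theorem EulG_plc (S D : Finset Pq) (q : Pq) :
    EulG S D (plc q).asIdeal = (starRingEnd ℂ) (em q.1) * EulX S D q.1 := by
  rw [EulG, psbC_plc, psK_plc]

theorem EulG_eq {S D : Finset Pq} (v : HeightOneSpectrum (𝓞 K))
    (hv : v ∉ (D \ S).map Eul_emb) : pX S v.asIdeal = EulG S D v.asIdeal := by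
  rcases Eul_place v with h | ⟨q, rfl⟩
  · rw [pX_bad S v h, EulG, Eul_psbC_bad h, zero_mul]
  · rw [pX_plc, EulG_plc]
    by_cases hc : IsCoprime q.1 (6 * DD D)
    · rw [EulX_pos hc]
    · rw [EulX_neg hc]
      have h1 := Eul_mem hc
      have h2 : q ∈ S := by
        by_contra h2
        exact hv (Finset.mem_map_of_mem Eul_emb (Finset.mem_sdiff.2 ⟨h1, h2⟩))
      rw [chi_eq_zero.2 ⟨q, h2, dvd_rfl⟩]
      simp

theorem EulG_zero {S D : Finset Pq} {v : HeightOneSpectrum (𝓞 K)}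
    (hv : v ∈ (D \ S).map Eul_emb) : EulG S D v.asIdeal = 0 := by
  obtain ⟨q, hq, rfl⟩ := Finset.mem_map.1 hv
  change EulG S D (plc q).asIdeal = 0
  rw [EulG_plc, EulX_neg (Eul_not_cop (Finset.mem_sdiff.1 hq).1), mul_zero]

theorem Eul_absNorm_plc (q : Pq) : (Ideal.absNorm (plc q).asIdeal : ℂ) =
    em q.1 * (starRingEnd ℂ) (em q.1) := by
  have h1 := Sum_absNorm q.1
  have h2 : (Ideal.absNorm (plc q).asIdeal : ℝ) = ‖em q.1‖ ^ 2 := h1
  rw [Complex.mul_conj, Complex.normSq_eq_norm_sq, ← h2]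
  norm_cast

theorem Eul_em_ne {x : 𝓞 K} (h : x ≠ 0) : em x ≠ 0 := by
  rw [em, Ne, map_eq_zero]
  intro h1
  exact h (RingOfIntegers.ext h1)

theorem euler_id {S D : Finset Pq} (hS : S ⊆ D) {ι : Type} [Fintype ι] {c : ι → 𝓞 K}
    (h : Reps (6 * DD D) c) :
    LS S 1 * ∏ q ∈ D \ S, (1 - (chi S q.1 : ℂ) / em q.1) =
      (em (6 * DD D))⁻¹ * ∑ i, (chi S (c i) : ℂ) * E1 (em (c i) / em (6 * DD D)) := by
  obtain ⟨A, h1, h2, h3⟩ := EulG_exists hS h
  have e : A = fun s => LS S s * ∏ v ∈ (D \ S).map Eul_emb, (1 - pX S v.asIdeal *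
      (Ideal.absNorm v.asIdeal : ℂ) ^ (-s)) := by
    refine S4.entire_eq h1 ((LS_diff S).mul (Eul_diff _ _)) fun s hs => ?_
    have h4 := S4.compare_Lf (pX S) (EulG S D) (pX_one S) (pX_mul S) (pX_le S) (EulG_one S D)
      (EulG_mul S D) (EulG_le S D) ((D \ S).map Eul_emb) (fun v hv => EulG_eq v hv) s hs
    rw [h2 s hs, LS_eq S s hs, h4]
    have h5 : ∏ v ∈ (D \ S).map Eul_emb, (1 - EulG S D v.asIdeal *
        (Ideal.absNorm v.asIdeal : ℂ) ^ (-s)) = 1 := by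
      refine Finset.prod_eq_one fun v hv => ?_
      rw [EulG_zero hv, zero_mul, sub_zero]
    rw [h5, mul_one]
  rw [← h3, e]
  change _ = LS S 1 * ∏ v ∈ (D \ S).map Eul_emb, (1 - pX S v.asIdeal *
      (Ideal.absNorm v.asIdeal : ℂ) ^ (-(1 : ℂ)))
  rw [Finset.prod_map]
  congr 1
  refine Finset.prod_congr rfl fun q _ => ?_
  change _ = 1 - pX S (plc q).asIdeal * (Ideal.absNorm (plc q).asIdeal : ℂ) ^ (-(1 : ℂ))
  rw [pX_plc, Eul_absNorm_plc, Complex.cpow_neg_one]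
  have h6 : em q.1 ≠ 0 := Eul_em_ne q.2.1.ne_zero
  have h7 : (starRingEnd ℂ) (em q.1) ≠ 0 := (_root_.map_ne_zero _).2 h6
  field_simp

theorem euler_sum {D : Finset Pq} {ι : Type} [Fintype ι] {c : ι → 𝓞 K} (h : Reps (6 * DD D) c) :
    ∑ S ∈ D.powerset, LS S 1 * ∏ q ∈ D \ S, (1 - (chi S q.1 : ℂ) / em q.1) =
      (em (6 * DD D))⁻¹ * ∑ i, ((∏ q ∈ D, (1 + qs q (c i)) : ℤ) : ℂ) *
        E1 (em (c i) / em (6 * DD D)) := by
  have h1 : ∑ S ∈ D.powerset, LS S 1 * ∏ q ∈ D \ S, (1 - (chi S q.1 : ℂ) / em q.1) =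
      ∑ S ∈ D.powerset, (em (6 * DD D))⁻¹ * ∑ i, (chi S (c i) : ℂ) *
        E1 (em (c i) / em (6 * DD D)) :=
    Finset.sum_congr rfl fun S hS => euler_id (Finset.mem_powerset.1 hS) h
  rw [h1, ← Finset.mul_sum, Finset.sum_comm]
  congr 1
  refine Finset.sum_congr rfl fun i _ => ?_
  rw [← Finset.sum_mul]
  congr 1
  rw [Finset.prod_one_add]
  push_cast
  refine Finset.sum_congr rfl fun S _ => ?_
  rw [chi]
  push_cast
  rfl

end

end Pool.Agent.Lib.MP_1a91b9_ntH
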