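import Pool.Agent.Lib.MP_1a91b9_ntH.A.Chi
import Pool.Agent.Lib.MP_1a91b9_ntX.LF.Ser

/-!
# TwistDensity, part A, file LocDef: the curve `y² = x³ + δ_S³`
-/

set_option autoImplicit false

namespace Pool.Agent.Lib.MP_1a91b9_ntH

open NumberField IsDedekindDomain Polynomial Pool.Agent.Lib.MP_1a91b9_ntT
  Pool.Agent.Lib.MP_1a91b9_ntG Pool.Agent.Lib.MP_1a91b9_nt

noncomputable section

/-- `y² = x³ + δ_S³` -/
def Wd (S : Finset Pq) : WeierstrassCurve K := ⟨0, 0, 0, 0, ((dl S : 𝓞 K) : K) ^ 3⟩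

end

end Pool.Agent.Lib.MP_1a91b9_ntH
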