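import Pool.Agent.Lib.MP_1a91b9_ntH.A.Eul

/-!
# TwistDensity, part A, file Prim: the primitive L-series (the Euler factor at `√-3`)
-/

set_option autoImplicit false

namespace Pool.Agent.Lib.MP_1a91b9_ntH

open NumberField IsDedekindDomain Pool.Agent.Lib.MP_1a91b9_ntT Pool.Agent.Lib.MP_1a91b9_ntG
open Pool.Agent.Lib.MP_1a91b9_ntT.S4 (Lf)
open Pool.Agent.Lib.MP_1a91b9_ntT.DG (ZS exists_Z summable_Z summable_all)

noncomputable section

theorem Prim_Nz_s3 : Nz s3 = 3 := by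
  have h := Nz_coords 1 2
  have e : ((1 : ℤ) : 𝓞 K) + ((2 : ℤ) : 𝓞 K) * wO = s3 := by
    rw [s3]
    push_cast
    ring
  rw [e] at h
  norm_num at h
  exact_mod_cast h

theorem Prim_absNorm_s3 : Ideal.absNorm (Ideal.span {s3}) = 3 := by
  rw [Ideal.absNorm_span_singleton]
  exact Prim_Nz_s3

/-- the place `(√-3)` -/
def p3 : HeightOneSpectrum (𝓞 K) where
  asIdeal := Ideal.span {s3}
  isPrime := by
    apply Ideal.isPrime_of_irreducible_absNorm
    rw [Prim_absNorm_s3]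
    exact Nat.prime_three
  ne_bot := by
    rw [Ne, Ideal.span_singleton_eq_bot]
    exact s3_ne

theorem mem_p3 {x : 𝓞 K} : x ∈ p3.asIdeal ↔ s3 ∣ x := Ideal.mem_span_singleton

theorem eq_p3 (v : HeightOneSpectrum (𝓞 K)) (h : s3 ∈ v.asIdeal) : v = p3 := by
  have h1 : p3.asIdeal ≤ v.asIdeal := (Ideal.span_singleton_le_iff_mem _).2 h
  exact (HeightOneSpectrum.ext (p3.isMaximal.eq_of_le v.isPrime.ne_top h1)).symm

theorem norm_p3 : Ideal.absNorm p3.asIdeal = 3 := Prim_absNorm_s3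

theorem Prim_f0_mem : f0 ∈ p3.asIdeal := mem_p3.2 (dvd_mul_left _ _)

/-! ### Units and generators modulo `2` -/

theorem Prim_unit_two {u : (𝓞 K)ˣ} (h : (2 : 𝓞 K) ∣ (u : 𝓞 K) - 1) : u = 1 ∨ u = -1 := by
  rcases exists_mod_s3 (u : 𝓞 K) with h1 | h1 | h1
  · exact absurd (isUnit_of_dvd_unit h1 u.isUnit) s3_not_isUnit
  · left
    exact unit_f0 u (s3_odd.mul_dvd h h1)
  · right
    have h2 : (-u) = 1 := by
      apply unit_f0
      rw [Units.val_neg]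
      refine s3_odd.mul_dvd ?_ ?_
      · obtain ⟨c, hc⟩ := h
        exact ⟨-c - 1, by linear_combination -hc⟩
      · obtain ⟨c, hc⟩ := h1
        exact ⟨-c, by linear_combination -hc⟩
    rw [← h2, neg_neg]

theorem Prim_exists_unit {a : 𝓞 K} (ha : ¬ (2 : 𝓞 K) ∣ a) :
    ∃ v : (𝓞 K)ˣ, (2 : 𝓞 K) ∣ (v : 𝓞 K) * a - 1 := by
  have h2 : red a ≠ 0 := fun h => ha (red_eq_zero.1 h)
  have h3 : ∀ y : F4, y ≠ 0 → y = 1 ∨ F4.w * y = 1 ∨ F4.w ^ 2 * y = 1 := by decide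
  rcases h3 _ h2 with h | h | h
  · refine ⟨1, ?_⟩
    rw [← red_eq, map_mul, Units.val_one, map_one, h, one_mul]
  · refine ⟨omU, ?_⟩
    rw [← red_eq, map_mul, omU_val, red_w, h, map_one]
  · refine ⟨omU ^ 2, ?_⟩
    rw [← red_eq, map_mul, Units.val_pow_eq_pow_val, omU_val, map_pow, red_w, h, map_one]

open Classical in
/-- a generator congruent to `1` modulo `2` -/
def PrimGen (I : Ideal (𝓞 K)) : 𝓞 K :=
  if h : ∃ a : 𝓞 K, (2 : 𝓞 K) ∣ a - 1 ∧ Ideal.span {a} = I then h.choose else 0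

theorem PrimGen_spec {I : Ideal (𝓞 K)} (h : ∃ a : 𝓞 K, (2 : 𝓞 K) ∣ a - 1 ∧ Ideal.span {a} = I) :
    (2 : 𝓞 K) ∣ PrimGen I - 1 ∧ Ideal.span {PrimGen I} = I := by
  rw [PrimGen, dif_pos h]
  exact h.choose_spec

theorem PrimGen_neg {I : Ideal (𝓞 K)}
    (h : ¬ ∃ a : 𝓞 K, (2 : 𝓞 K) ∣ a - 1 ∧ Ideal.span {a} = I) : PrimGen I = 0 := by
  rw [PrimGen, dif_neg h]

theorem PrimGen_span {a : 𝓞 K} (h : (2 : 𝓞 K) ∣ a - 1) :
    PrimGen (Ideal.span {a}) = a ∨ PrimGen (Ideal.span {a}) = -a := by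
  obtain ⟨h1, h2⟩ := PrimGen_spec ⟨a, h, rfl⟩
  rw [Ideal.span_singleton_eq_span_singleton] at h2
  obtain ⟨u, hu⟩ := h2.symm
  have h3 : (2 : 𝓞 K) ∣ (u : 𝓞 K) - 1 := by
    rw [← hu] at h1
    obtain ⟨c, hc⟩ := h1
    obtain ⟨d, hd⟩ := h
    exact ⟨c - u * d, by linear_combination hc - (u : 𝓞 K) * hd⟩
  rcases Prim_unit_two h3 with h4 | h4
  · left
    rw [← hu, h4, Units.val_one, mul_one]
  · right
    rw [← hu, h4, Units.val_neg, Units.val_one, mul_neg, mul_one]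

theorem PrimGen_exists {I : Ideal (𝓞 K)} (h : IsCoprime I (Ideal.span {(2 : 𝓞 K)})) :
    ∃ a : 𝓞 K, (2 : 𝓞 K) ∣ a - 1 ∧ Ideal.span {a} = I := by
  obtain ⟨g, hg⟩ := (IsPrincipalIdealRing.principal I).principal
  have hg' : I = Ideal.span {g} := hg
  subst hg'
  rw [Ideal.isCoprime_span_singleton_iff] at h
  have h1 : ¬ (2 : 𝓞 K) ∣ g := fun h1 => two_not_isUnit (h.isUnit_of_dvd' h1 dvd_rfl)
  obtain ⟨v, hv⟩ := Prim_exists_unit h1
  refine ⟨v * g, hv, ?_⟩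
  rw [Ideal.span_singleton_eq_span_singleton]
  refine ⟨v⁻¹, ?_⟩
  rw [mul_comm, ← mul_assoc, Units.inv_mul, one_mul]

theorem PrimGen_coprime {I : Ideal (𝓞 K)}
    (h : ∃ a : 𝓞 K, (2 : 𝓞 K) ∣ a - 1 ∧ Ideal.span {a} = I) :
    IsCoprime I (Ideal.span {(2 : 𝓞 K)}) := by
  obtain ⟨a, ⟨c, hc⟩, rfl⟩ := h
  rw [Ideal.isCoprime_span_singleton_iff]
  exact ⟨1, -c, by linear_combination hc⟩

/-! ### The primitive character -/

/-- the primitive Hecke character in the case `√-3 ∣ δ_S` -/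
def Prim_pp (S : Finset Pq) (I : Ideal (𝓞 K)) : ℂ :=
  (starRingEnd ℂ) (em (PrimGen I)) * (chi S (PrimGen I) : ℂ)

theorem Prim_em_neg (a : 𝓞 K) : em (-a) = -em a := by simp [em]

theorem Prim_em_mul (a b : 𝓞 K) : em (a * b) = em a * em b := by simp [em]

theorem Prim_em_zero : em 0 = 0 := by simp [em]

theorem Prim_em_one : em 1 = 1 := by simp [em]

theorem Prim_chi_neg {S : Finset Pq} (h : (qd.A S).b ≠ 0) (a : 𝓞 K) : chi S (-a) = -chi S a := by
  rw [← neg_one_mul, chi_mul, chi_neg_one', if_neg h, neg_one_mul]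

theorem Prim_pp_span {S : Finset Pq} (h : (qd.A S).b ≠ 0) {a : 𝓞 K} (ha : (2 : 𝓞 K) ∣ a - 1) :
    Prim_pp S (Ideal.span {a}) = (starRingEnd ℂ) (em a) * (chi S a : ℂ) := by
  rw [Prim_pp]
  rcases PrimGen_span ha with h1 | h1
  · rw [h1]
  · rw [h1, Prim_em_neg, Prim_chi_neg h, map_neg]
    push_cast
    ring

theorem Prim_pp_zero {S : Finset Pq} {I : Ideal (𝓞 K)}
    (h : ¬ ∃ a : 𝓞 K, (2 : 𝓞 K) ∣ a - 1 ∧ Ideal.span {a} = I) : Prim_pp S I = 0 := by
  rw [Prim_pp, PrimGen_neg h, Prim_em_zero, map_zero, zero_mul]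

theorem Prim_pp_one {S : Finset Pq} (h : (qd.A S).b ≠ 0) : Prim_pp S 1 = 1 := by
  have h1 := Prim_pp_span h (a := 1) (by simp)
  rw [Ideal.span_singleton_one, ← Ideal.one_eq_top] at h1
  rw [h1, Prim_em_one, chi_one]
  simp

theorem Prim_pp_mul {S : Finset Pq} (h : (qd.A S).b ≠ 0) (I J : Ideal (𝓞 K)) :
    Prim_pp S (I * J) = Prim_pp S I * Prim_pp S J := by
  by_cases hI : ∃ a : 𝓞 K, (2 : 𝓞 K) ∣ a - 1 ∧ Ideal.span {a} = I
  · by_cases hJ : ∃ a : 𝓞 K, (2 : 𝓞 K) ∣ a - 1 ∧ Ideal.span {a} = J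
    · obtain ⟨a, ha, rfl⟩ := hI
      obtain ⟨b, hb, rfl⟩ := hJ
      rw [Ideal.span_singleton_mul_span_singleton, Prim_pp_span h ha, Prim_pp_span h hb, Prim_pp_span h, Prim_em_mul,
        chi_mul, map_mul]
      · push_cast
        ring
      · have e : a * b - 1 = (a - 1) * b + (b - 1) := by ring
        rw [e]
        exact dvd_add (ha.mul_right _) hb
    · rw [Prim_pp_zero hJ, mul_zero, Prim_pp_zero]
      intro hc
      exact hJ (PrimGen_exists (IsCoprime.of_mul_left_right (PrimGen_coprime hc)))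
  · rw [Prim_pp_zero hI, zero_mul, Prim_pp_zero]
    intro hc
    exact hI (PrimGen_exists (IsCoprime.of_mul_left_left (PrimGen_coprime hc)))

theorem Prim_pp_le {S : Finset Pq} (h : (qd.A S).b ≠ 0) (I : Ideal (𝓞 K)) :
    ‖Prim_pp S I‖ ≤ (Ideal.absNorm I : ℝ) ^ (1 / 2 : ℝ) := by
  by_cases hI : ∃ a : 𝓞 K, (2 : 𝓞 K) ∣ a - 1 ∧ Ideal.span {a} = I
  · obtain ⟨a, ha, rfl⟩ := hI
    rw [Prim_pp_span h ha, norm_mul, RCLike.norm_conj, Sum_absNorm, ← Real.sqrt_eq_rpow,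
      Real.sqrt_sq (norm_nonneg _)]
    calc ‖em a‖ * ‖(chi S a : ℂ)‖ ≤ ‖em a‖ * 1 :=
          mul_le_mul_of_nonneg_left (Eul_norm_chi S a) (norm_nonneg _)
      _ = _ := mul_one _
  · rw [Prim_pp_zero hI, norm_zero]
    positivity

theorem Prim_pp_place {S : Finset Pq} (h : (qd.A S).b ≠ 0) (v : HeightOneSpectrum (𝓞 K)) (hv : v ≠ p3) :
    Prim_pp S v.asIdeal = pX S v.asIdeal := by
  rcases Eul_place v with h1 | ⟨q, rfl⟩
  · rw [pX_bad S v h1]
    apply Prim_pp_zero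
    rintro ⟨a, ⟨c, hc⟩, h2⟩
    rcases v.isPrime.mem_or_mem h1 with h3 | h3
    · apply v.isPrime.ne_top
      rw [Ideal.eq_top_iff_one]
      have h4 : a ∈ v.asIdeal := by
        rw [← h2]
        exact Ideal.mem_span_singleton_self a
      have e : (1 : 𝓞 K) = a - c * 2 := by linear_combination -hc
      rw [e]
      exact Ideal.sub_mem _ h4 (Ideal.mul_mem_left _ _ h3)
    · exact hv (eq_p3 v h3)
  · rw [pX_plc]
    exact Prim_pp_span h ((dvd_mul_right (2 : 𝓞 K) s3).trans (f0_dvd q))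

theorem Prim_s3_two : (2 : 𝓞 K) ∣ s3 - 1 := ⟨wO, by rw [s3]; ring⟩

theorem Prim_em_s3_sq : em s3 ^ 2 = -3 := by
  have h1 : em (s3 ^ 2) = em s3 ^ 2 := by rw [pow_two, pow_two, Prim_em_mul]
  rw [← h1, s3_sq, Prim_em_neg]
  have h2 : em (3 : 𝓞 K) = 3 := by
    have h3 : ((3 : 𝓞 K) : K) = 3 := map_ofNat (algebraMap (𝓞 K) K) 3
    rw [em, h3, map_ofNat embK 3]
  rw [h2]

theorem Prim_pp_p3 {S : Finset Pq} (h : (qd.A S).b ≠ 0) : (Prim_pp S p3.asIdeal) ^ 2 = -3 := by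
  have h1 : Prim_pp S p3.asIdeal = (starRingEnd ℂ) (em s3) * (chi S s3 : ℂ) := Prim_pp_span h Prim_s3_two
  rw [h1, mul_pow, ← map_pow, Prim_em_s3_sq]
  have h2 : chi S s3 ≠ 0 := by
    intro h0
    obtain ⟨q, -, hd⟩ := chi_eq_zero.1 h0
    apply six_notMem q
    rw [mem_plc, six_eq]
    exact (hd.mul_left _).neg_right
  have h3 : ((chi S s3 : ℤ) : ℂ) ^ 2 = 1 := by
    rcases chi_cases S s3 with h4 | h4 | h4
    · exact absurd h4 h2
    · rw [h4]; norm_num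
    · rw [h4]; norm_num
  rw [h3, mul_one, map_neg, map_ofNat (starRingEnd ℂ) 3]

/-! ### The continuation -/

/-- the term of the lattice sum -/
def PrimT (s : ℂ) (a : 𝓞 K) : ℂ := (starRingEnd ℂ) (em a) * ((‖em a‖ : ℝ) : ℂ) ^ (-2 * s)

theorem PrimT_summable {s : ℂ} (hs : 2 < s.re) : Summable fun a => PrimT s a := summable_all hs

theorem PrimT_neg (s : ℂ) (a : 𝓞 K) : PrimT s (-a) = -PrimT s a := by
  rw [PrimT, PrimT, Prim_em_neg, norm_neg, map_neg, neg_mul]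

/-- the continuation of lattice sums with periodic coefficients -/
theorem Prim_exists_cont {ν : 𝓞 K} (h0 : ν ≠ 0) (h3 : (3 : 𝓞 K) ∣ ν) (x : 𝓞 K → ℂ)
    (hx : ∀ a b, ν ∣ a - b → x a = x b) (hx0 : x 0 = 0) :
    ∃ A : ℂ → ℂ, Differentiable ℂ A ∧ ∀ s : ℂ, 2 < s.re → A s = ∑' a, x a * PrimT s a := by
  classical
  have hne : Ideal.span {ν} ≠ ⊥ := by rwa [Ne, Ideal.span_singleton_eq_bot]
  have : Finite (𝓞 K ⧸ Ideal.span {ν}) := Ideal.finiteQuotientOfFreeOfNeBot _ hne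
  have : Fintype (𝓞 K ⧸ Ideal.span {ν}) := Fintype.ofFinite _
  let c : (𝓞 K ⧸ Ideal.span {ν}) → 𝓞 K := fun i => (Ideal.Quotient.mk_surjective i).choose
  have hc : ∀ i, Ideal.Quotient.mk (Ideal.span {ν}) (c i) = i :=
    fun i => (Ideal.Quotient.mk_surjective i).choose_spec
  have hmk : ∀ a i, Ideal.Quotient.mk (Ideal.span {ν}) a = i ↔ ν ∣ a - c i := by
    intro a i
    rw [← Ideal.mem_span_singleton, ← Ideal.Quotient.mk_eq_mk_iff_sub_mem, hc]
  have hex : ∀ i, ∃ A : ℂ → ℂ, Differentiable ℂ A ∧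
      ∀ s : ℂ, 2 < s.re → A s = x (c i) * ZS ν (c i) s := by
    intro i
    by_cases hd : ν ∣ c i
    · refine ⟨fun _ => 0, differentiable_const _, fun s _ => ?_⟩
      rw [hx (c i) 0 (by rwa [sub_zero]), hx0, zero_mul]
    · obtain ⟨A, h1, h2, -⟩ := exists_Z h0 hd h3
      exact ⟨fun s => x (c i) * A s, (differentiable_const _).mul h1, fun s hs => by
        rw [← h2 s hs]⟩
  choose A hA hA1 using hex
  refine ⟨fun s => ∑ i, A i s, Differentiable.fun_sum fun i _ => hA i, fun s hs => ?_⟩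
  have h1 : ∀ i ∈ (Finset.univ : Finset (𝓞 K ⧸ Ideal.span {ν})),
      Summable fun a : 𝓞 K => x (c i) * SumT ν (c i) s a :=
    fun i _ => (SumT_summable ν (c i) hs).mul_left _
  have h2 : ∑ i, A i s = ∑' a : 𝓞 K, ∑ i, x (c i) * SumT ν (c i) s a := by
    rw [Summable.tsum_finsetSum h1]
    refine Finset.sum_congr rfl (fun i _ => ?_)
    rw [tsum_mul_left, SumT_tsum, hA1 i s hs]
  change ∑ i, A i s = _
  rw [h2]
  refine tsum_congr fun a => ?_
  rw [Finset.sum_eq_single (Ideal.Quotient.mk (Ideal.span {ν}) a)]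
  · have h3 := (hmk a _).1 rfl
    rw [SumT_pos s h3, ← hx a _ h3]
    rfl
  · intro i _ hi
    rw [SumT_neg s, mul_zero]
    intro hd
    exact hi ((hmk a i).2 hd).symm
  · intro hh
    exact absurd (Finset.mem_univ _) hh

open Classical in
/-- `χ_S` restricted to the elements congruent to `1` modulo `2` -/
def PrimX (S : Finset Pq) (a : 𝓞 K) : ℂ := if (2 : 𝓞 K) ∣ a - 1 then (chi S a : ℂ) else 0

theorem PrimX_pos {S : Finset Pq} {a : 𝓞 K} (h : (2 : 𝓞 K) ∣ a - 1) : PrimX S a = (chi S a : ℂ) := by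
  unfold PrimX
  exact if_pos h

theorem PrimX_neg {S : Finset Pq} {a : 𝓞 K} (h : ¬ (2 : 𝓞 K) ∣ a - 1) : PrimX S a = 0 := by
  unfold PrimX
  exact if_neg h

theorem Prim_two_neg {a : 𝓞 K} : (2 : 𝓞 K) ∣ -a - 1 ↔ (2 : 𝓞 K) ∣ a - 1 := by
  constructor
  · rintro ⟨c, hc⟩
    exact ⟨-c - 1, by linear_combination -hc⟩
  · rintro ⟨c, hc⟩
    exact ⟨-c - 1, by linear_combination -hc⟩

theorem PrimX_odd {S : Finset Pq} (h : (qd.A S).b ≠ 0) (a : 𝓞 K) : PrimX S (-a) = -PrimX S a := by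
  by_cases ha : (2 : 𝓞 K) ∣ a - 1
  · rw [PrimX_pos ha, PrimX_pos (Prim_two_neg.2 ha), Prim_chi_neg h]
    push_cast
    ring
  · rw [PrimX_neg ha, PrimX_neg (fun hc => ha (Prim_two_neg.1 hc)), neg_zero]

theorem Prim_not_two_zero : ¬ (2 : 𝓞 K) ∣ 0 - 1 := by
  rw [zero_sub, dvd_neg]
  exact fun h => two_not_isUnit (isUnit_of_dvd_one h)

theorem Prim_Lf_pp {S : Finset Pq} (h : (qd.A S).b ≠ 0) {s : ℂ} (hs : 2 < s.re) :
    2 * Lf (Prim_pp S) s = ∑' a, PrimX S a * PrimT s a := by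
  classical
  have hsum : Summable fun a => PrimX S a * PrimT s a := by
    refine Summable.of_norm_bounded (PrimT_summable hs).norm fun a => ?_
    rw [norm_mul]
    have h1 : ‖PrimX S a‖ ≤ 1 := by
      by_cases ha : (2 : 𝓞 K) ∣ a - 1
      · rw [PrimX_pos ha]
        exact Eul_norm_chi S a
      · rw [PrimX_neg ha, norm_zero]
        exact zero_le_one
    calc ‖PrimX S a‖ * ‖PrimT s a‖ ≤ 1 * ‖PrimT s a‖ :=
          mul_le_mul_of_nonneg_right h1 (norm_nonneg _)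
      _ = _ := one_mul _
  let F : 𝓞 K → ℂ := fun a => if PrimGen (Ideal.span {a}) = a then PrimX S a * PrimT s a else 0
  have hF : Summable F := by
    refine Summable.of_norm_bounded hsum.norm fun a => ?_
    by_cases ha : PrimGen (Ideal.span {a}) = a
    · simp only [F, if_pos ha]
      exact le_rfl
    · simp only [F, if_neg ha, norm_zero]
      exact norm_nonneg _
  have h1 : Lf (Prim_pp S) s = ∑' a, F a := by
    unfold S4.Lf
    refine Sum_gen PrimGen ?_ ?_ ?_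
    · intro I hI
      by_cases hc : ∃ a : 𝓞 K, (2 : 𝓞 K) ∣ a - 1 ∧ Ideal.span {a} = I
      · exact (PrimGen_spec hc).2
      · exact absurd (by rw [Prim_pp_zero hc, zero_mul]) hI
    · intro a ha
      by_contra hc
      exact ha (if_neg hc)
    · intro a ha
      have e : F a = PrimX S a * PrimT s a := if_pos ha
      rw [e]
      by_cases h2 : (2 : 𝓞 K) ∣ a - 1
      · rw [PrimX_pos h2, Prim_pp_span h h2, PrimT, Sum_norm]
        ring
      · rw [PrimX_neg h2, zero_mul]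
        by_cases hc : ∃ b : 𝓞 K, (2 : 𝓞 K) ∣ b - 1 ∧ Ideal.span {b} = Ideal.span {a}
        · have h3 := (PrimGen_spec hc).1
          rw [ha] at h3
          exact absurd h3 h2
        · rw [Prim_pp_zero hc, zero_mul]
  have h2 : ∀ a, PrimX S a * PrimT s a = F a + F (-a) := by
    intro a
    have e : Ideal.span {-a} = Ideal.span {a} := by
      rw [Ideal.span_singleton_neg]
    by_cases ha : (2 : 𝓞 K) ∣ a - 1
    · have ha0 : a ≠ 0 := by
        rintro rfl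
        exact Prim_not_two_zero ha
      have hna : -a ≠ a := by
        intro h3
        apply ha0
        have h4 : (2 : 𝓞 K) * a = 0 := by linear_combination -h3
        exact (mul_eq_zero.1 h4).resolve_left two_ne_zero
      rcases PrimGen_span ha with h3 | h3
      · have e1 : F a = PrimX S a * PrimT s a := if_pos h3
        have e2 : F (-a) = 0 := by
          refine if_neg ?_
          rw [e, h3]
          exact hna.symm
        rw [e1, e2, add_zero]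
      · have e1 : F (-a) = PrimX S (-a) * PrimT s (-a) := if_pos (by rw [e, h3])
        have e2 : F a = 0 := by
          refine if_neg ?_
          rw [h3]
          exact hna
        rw [e1, e2, zero_add, PrimX_odd h, PrimT_neg]
        ring
    · have e1 : F a = 0 := by
        simp only [F]
        rw [PrimX_neg ha, zero_mul, ite_self]
      have e2 : F (-a) = 0 := by
        simp only [F]
        rw [PrimX_neg (fun hc => ha (Prim_two_neg.1 hc)), zero_mul, ite_self]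
      rw [e1, e2, PrimX_neg ha]
      ring
  have h3 : Summable fun a => F (-a) := (Equiv.neg (𝓞 K)).summable_iff.2 hF
  have h4 : ∑' a, F (-a) = ∑' a, F a := (Equiv.neg (𝓞 K)).tsum_eq F
  rw [h1, tsum_congr h2, hF.tsum_add h3, h4]
  ring

theorem Prim_pp_exists {S : Finset Pq} (h : (qd.A S).b ≠ 0) :
    ∃ L : ℂ → ℂ, Differentiable ℂ L ∧ ∀ s : ℂ, 2 < s.re → L s = Lf (Prim_pp S) s := by
  have h3 : (3 : 𝓞 K) ∣ 6 * DD S :=
    (show (3 : 𝓞 K) ∣ 6 from ⟨2, by norm_num⟩).trans (dvd_mul_right _ _)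
  have h2 : (2 : 𝓞 K) ∣ 6 * DD S :=
    (show (2 : 𝓞 K) ∣ 6 from ⟨3, by norm_num⟩).trans (dvd_mul_right _ _)
  have h0 : 6 * DD S ≠ 0 := mul_ne_zero (by norm_num) (DD_ne S)
  obtain ⟨A, hA, hA1⟩ := Prim_exists_cont h0 h3 (PrimX S) (fun a b hab => by
    by_cases hb : (2 : 𝓞 K) ∣ b - 1
    · have ha : (2 : 𝓞 K) ∣ a - 1 := by
        have e : a - 1 = (a - b) + (b - 1) := by ring
        rw [e]
        exact dvd_add (h2.trans hab) hb
      rw [PrimX_pos ha, PrimX_pos hb, chi_congr ((dvd_mul_left _ _).trans hab)]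
    · have ha : ¬ (2 : 𝓞 K) ∣ a - 1 := by
        intro ha
        apply hb
        have e : b - 1 = (a - 1) - (a - b) := by ring
        rw [e]
        exact dvd_sub ha (h2.trans hab)
      rw [PrimX_neg ha, PrimX_neg hb]) (PrimX_neg Prim_not_two_zero)
  refine ⟨fun s => 1 / 2 * A s, (differentiable_const _).mul hA, fun s hs => ?_⟩
  change 1 / 2 * A s = _
  rw [hA1 s hs, ← Prim_Lf_pp h hs]
  ring

/-- the primitive Hecke character in the case `√-3 ∣ δ_S` -/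
theorem exists_prim {S : Finset Pq} (h : (qd.A S).b ≠ 0) : ∃ p : Ideal (𝓞 K) → ℂ,
    p 1 = 1 ∧ (∀ I J, p (I * J) = p I * p J) ∧
    (∀ I, ‖p I‖ ≤ (Ideal.absNorm I : ℝ) ^ (1 / 2 : ℝ)) ∧
    (∀ v : HeightOneSpectrum (𝓞 K), v ≠ p3 → p v.asIdeal = pX S v.asIdeal) ∧
    (p p3.asIdeal) ^ 2 = -3 ∧
    ∃ L : ℂ → ℂ, Differentiable ℂ L ∧ ∀ s : ℂ, 2 < s.re → L s = Lf p s :=
  ⟨Prim_pp S, Prim_pp_one h, Prim_pp_mul h, Prim_pp_le h, Prim_pp_place h, Prim_pp_p3 h, Prim_pp_exists h⟩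

/-- the primitive L-series in all cases -/
theorem exists_full (S : Finset Pq) : ∃ (p : Ideal (𝓞 K) → ℂ) (L : ℂ → ℂ),
    p 1 = 1 ∧ (∀ I J, p (I * J) = p I * p J) ∧
    (∀ I, ‖p I‖ ≤ (Ideal.absNorm I : ℝ) ^ (1 / 2 : ℝ)) ∧
    (∀ v : HeightOneSpectrum (𝓞 K), v ≠ p3 → p v.asIdeal = pX S v.asIdeal) ∧
    ((qd.A S).b = 0 → p p3.asIdeal = 0) ∧ ((qd.A S).b ≠ 0 → (p p3.asIdeal) ^ 2 = -3) ∧
    Differentiable ℂ L ∧ (∀ s : ℂ, 2 < s.re → L s = Lf p s) ∧
    L 1 * (1 - p p3.asIdeal / 3) = LS S 1 := by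
  by_cases h : (qd.A S).b = 0
  · refine ⟨pX S, LS S, pX_one S, pX_mul S, pX_le S, fun v _ => rfl,
      fun _ => pX_bad S p3 Prim_f0_mem, fun h1 => absurd h h1, LS_diff S, LS_eq S, ?_⟩
    rw [pX_bad S p3 Prim_f0_mem]
    ring
  · obtain ⟨p, h1, h2, h3, h4, h5, L, h6, h7⟩ := exists_prim h
    refine ⟨p, L, h1, h2, h3, h4, fun h8 => absurd h8 h, fun _ => h5, h6, h7, ?_⟩
    have e : LS S = fun s => L s * ∏ v ∈ ({p3} : Finset (HeightOneSpectrum (𝓞 K))),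
        (1 - p v.asIdeal * (Ideal.absNorm v.asIdeal : ℂ) ^ (-s)) := by
      refine S4.entire_eq (LS_diff S) (h6.mul (Eul_diff _ _)) fun s hs => ?_
      have h8 := S4.compare_Lf p (pX S) h1 h2 h3 (pX_one S) (pX_mul S) (pX_le S) {p3}
        (fun v hv => h4 v (fun hc => hv (Finset.mem_singleton.2 hc))) s hs
      rw [h7 s hs, LS_eq S s hs, h8, Finset.prod_singleton, pX_bad S p3 Prim_f0_mem]
      ring
    rw [e]
    change _ = L 1 * ∏ v ∈ ({p3} : Finset (HeightOneSpectrum (𝓞 K))),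
        (1 - p v.asIdeal * (Ideal.absNorm v.asIdeal : ℂ) ^ (-(1 : ℂ)))
    rw [Finset.prod_singleton, norm_p3, Complex.cpow_neg_one]
    push_cast
    ring

end

end Pool.Agent.Lib.MP_1a91b9_ntH
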