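import Pool.Agent.Lib.MP_1a91b9_ntH.A.Base

/-!
# TwistDensity, part A, file Res: residue classes at a place of `ℂ` above `2`

`Rs A z y`: `z` is integral at `A` and congruent to the elements of `𝓞 K` with class `y` modulo `2`.
-/

set_option autoImplicit false

namespace Pool.Agent.Lib.MP_1a91b9_ntH

open NumberField IsDedekindDomain Pool.Agent.Lib.MP_1a91b9_ntT Pool.Agent.Lib.MP_1a91b9_ntG

noncomputable section

/-- `z` is integral at `A` and its residue is the class `y`. -/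
def Rs (A : ValuationSubring ℂ) (z : ℂ) (y : F4) : Prop :=
  ∃ x : 𝓞 K, red x = y ∧ A.valuation (z - em x) < 1

theorem Res_em_zero : em 0 = 0 := map_zero embK

theorem Res_em_one : em 1 = 1 := map_one embK

theorem Res_em_add (x y : 𝓞 K) : em (x + y) = em x + em y := by
  rw [em, em, em, ← map_add]
  rfl

theorem Res_em_sub (x y : 𝓞 K) : em (x - y) = em x - em y := by
  rw [em, em, em, ← map_sub]
  rfl

theorem Res_em_neg (x : 𝓞 K) : em (-x) = -em x := by
  rw [em, em, ← map_neg]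
  rfl

theorem Res_em_mul (x y : 𝓞 K) : em (x * y) = em x * em y := by
  rw [em, em, em, ← map_mul]
  rfl

theorem Res_em_int (n : ℤ) : em (n : 𝓞 K) = n := by
  have h : ((n : 𝓞 K) : K) = (n : K) := map_intCast (algebraMap (𝓞 K) K) n
  rw [em, h, map_intCast]

theorem Res_em_two : em 2 = 2 := by
  have h := Res_em_int 2
  simpa using h

section
variable {A : ValuationSubring ℂ}

theorem em_le (x : 𝓞 K) : A.valuation (em x) ≤ 1 := by
  rw [A.valuation_le_one_iff]
  refine mem_of_isIntegral ?_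
  have h : IsIntegral ℤ (x : K) := x.2
  exact h.map embK.toIntAlgHom

theorem em_lt (hA : Two A) {x : 𝓞 K} (h : (2 : 𝓞 K) ∣ x) : A.valuation (em x) < 1 := by
  obtain ⟨y, rfl⟩ := h
  rw [Res_em_mul, Res_em_two, map_mul]
  exact mul_lt_one_of_lt_of_le (S3.v_two_lt hA) (em_le y)

theorem Res_coprime {x : 𝓞 K} (h : ¬ (2 : 𝓞 K) ∣ x) : IsCoprime x 2 := by
  have h1 : red x ≠ 0 := fun h0 => h (red_eq_zero.1 h0)
  have h2 : ∀ y : F4, y ≠ 0 → ∃ z : F4, y * z = 1 := by decide
  obtain ⟨z, hz⟩ := h2 _ h1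
  obtain ⟨t, ht⟩ : ∃ t : 𝓞 K, red t = z := by
    refine ⟨(z.a.val : ℤ) + (z.b.val : ℤ) * wO, ?_⟩
    rw [red_coord]
    have h4 : ∀ u : F4, (⟨((u.a.val : ℤ) : ZMod 2), ((u.b.val : ℤ) : ZMod 2)⟩ : F4) = u := by decide
    exact h4 z
  have h3 : (2 : 𝓞 K) ∣ x * t - 1 := by
    rw [← red_eq, map_mul, ht, hz, map_one]
  obtain ⟨c, hc⟩ := h3
  exact ⟨t, -c, by linear_combination hc⟩

theorem em_unit (hA : Two A) {x : 𝓞 K} (h : ¬ (2 : 𝓞 K) ∣ x) : A.valuation (em x) = 1 := by
  obtain ⟨m, d, hm, e⟩ := exists_odd_multiple (Res_coprime h)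
  refine le_antisymm (em_le x) ?_
  have h1 : A.valuation (em d) * A.valuation (em x) = 1 := by
    rw [← map_mul, ← Res_em_mul, ← e, Res_em_int]
    exact S3.v_odd hA hm
  rw [← h1]
  exact mul_le_of_le_one_left' (em_le d)

theorem Rs.of (x : 𝓞 K) : Rs A (em x) (red x) := ⟨x, rfl, by
  rw [sub_self, map_zero]
  exact zero_lt_one⟩

theorem Rs.int (n : ℤ) : Rs A (n : ℂ) (n : F4) := by
  have h := Rs.of (A := A) (n : 𝓞 K)
  rwa [Res_em_int, map_intCast] at h

theorem Rs.eq (hA : Two A) {z : ℂ} {y : F4} (h : Rs A z y) (x : 𝓞 K) (hx : red x = y) :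
    A.valuation (z - em x) < 1 := by
  obtain ⟨x', hx', h'⟩ := h
  have h1 : A.valuation (em (x' - x)) < 1 := em_lt hA (red_eq.1 (hx'.trans hx.symm))
  have e : z - em x = (z - em x') + em (x' - x) := by
    rw [Res_em_sub]
    ring
  rw [e]
  exact A.valuation.map_add_lt h' h1

theorem Rs.le {z : ℂ} {y : F4} (h : Rs A z y) : A.valuation z ≤ 1 := by
  obtain ⟨x, _, h'⟩ := h
  have e : z = (z - em x) + em x := by ring
  rw [e]
  exact A.valuation.map_add_le h'.le (em_le x)

theorem Rs.unit (hA : Two A) {z : ℂ} {y : F4} (h : Rs A z y) (hy : y ≠ 0) :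
    A.valuation z = 1 := by
  obtain ⟨x, hx, h'⟩ := h
  have h2 : A.valuation (em x) = 1 := em_unit hA fun h0 => hy (by
    rw [← hx]
    exact red_eq_zero.2 h0)
  have e : z = (z - em x) + em x := by ring
  rw [e, A.valuation.map_add_eq_of_lt_right (by rw [h2]; exact h'), h2]

theorem Rs.zero_iff (hA : Two A) {z : ℂ} : Rs A z 0 ↔ A.valuation z < 1 := by
  constructor
  · intro h
    have h1 := h.eq hA 0 (map_zero red)
    rwa [Res_em_zero, sub_zero] at h1
  · intro h
    exact ⟨0, map_zero red, by rwa [Res_em_zero, sub_zero]⟩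

theorem Rs.one : Rs A 1 1 := ⟨1, map_one red, by
  rw [Res_em_one, sub_self, map_zero]
  exact zero_lt_one⟩

theorem Rs.add {z z' : ℂ} {y y' : F4} (h : Rs A z y) (h' : Rs A z' y') :
    Rs A (z + z') (y + y') := by
  obtain ⟨x, hx, hv⟩ := h
  obtain ⟨x', hx', hv'⟩ := h'
  refine ⟨x + x', by rw [map_add, hx, hx'], ?_⟩
  have e : z + z' - em (x + x') = (z - em x) + (z' - em x') := by
    rw [Res_em_add]
    ring
  rw [e]
  exact A.valuation.map_add_lt hv hv'

theorem Rs.sub {z z' : ℂ} {y y' : F4} (h : Rs A z y) (h' : Rs A z' y') :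
    Rs A (z - z') (y - y') := by
  obtain ⟨x, hx, hv⟩ := h
  obtain ⟨x', hx', hv'⟩ := h'
  refine ⟨x - x', by rw [map_sub, hx, hx'], ?_⟩
  have e : z - z' - em (x - x') = (z - em x) - (z' - em x') := by
    rw [Res_em_sub]
    ring
  rw [e]
  exact A.valuation.map_sub_lt hv hv'

theorem Rs.mul {z z' : ℂ} {y y' : F4} (h : Rs A z y) (h' : Rs A z' y') :
    Rs A (z * z') (y * y') := by
  have hz' := h'.le
  obtain ⟨x, hx, hv⟩ := h
  obtain ⟨x', hx', hv'⟩ := h'
  refine ⟨x * x', by rw [map_mul, hx, hx'], ?_⟩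
  have e : z * z' - em (x * x') = (z - em x) * z' + em x * (z' - em x') := by
    rw [Res_em_mul]
    ring
  rw [e]
  refine A.valuation.map_add_lt ?_ ?_
  · rw [map_mul]
    exact mul_lt_one_of_lt_of_le hv hz'
  · rw [map_mul, mul_comm]
    exact mul_lt_one_of_lt_of_le hv' (em_le x)

theorem Rs.sum {ι : Type*} (T : Finset ι) {z : ι → ℂ} {y : ι → F4} (h : ∀ i ∈ T, Rs A (z i) (y i)) :
    Rs A (∑ i ∈ T, z i) (∑ i ∈ T, y i) := by
  classical
  induction T using Finset.induction_on with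
  | empty =>
    rw [Finset.sum_empty, Finset.sum_empty]
    exact ⟨0, map_zero red, by
      rw [Res_em_zero, sub_zero, map_zero]
      exact zero_lt_one⟩
  | insert a T ha ih =>
    rw [Finset.sum_insert ha, Finset.sum_insert ha]
    exact (h a (Finset.mem_insert_self a T)).add
      (ih fun i hi => h i (Finset.mem_insert_of_mem hi))

theorem Rs.prod {ι : Type*} (T : Finset ι) {z : ι → ℂ} {y : ι → F4} (h : ∀ i ∈ T, Rs A (z i) (y i)) :
    Rs A (∏ i ∈ T, z i) (∏ i ∈ T, y i) := by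
  classical
  induction T using Finset.induction_on with
  | empty =>
    rw [Finset.prod_empty, Finset.prod_empty]
    exact Rs.one
  | insert a T ha ih =>
    rw [Finset.prod_insert ha, Finset.prod_insert ha]
    exact (h a (Finset.mem_insert_self a T)).mul
      (ih fun i hi => h i (Finset.mem_insert_of_mem hi))

theorem Rs.congr {z z' : ℂ} {y : F4} (h : Rs A z y) (h' : A.valuation (z' - z) < 1) :
    Rs A z' y := by
  obtain ⟨x, hx, hv⟩ := h
  refine ⟨x, hx, ?_⟩
  have e : z' - em x = (z' - z) + (z - em x) := by ring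
  rw [e]
  exact A.valuation.map_add_lt h' hv

theorem Rs.inv (hA : Two A) {z : ℂ} (h : Rs A z 1) : Rs A z⁻¹ 1 := by
  have h1 : A.valuation z = 1 := h.unit hA one_ne_zero
  have hz : z ≠ 0 := by
    rintro rfl
    rw [map_zero] at h1
    exact zero_ne_one h1
  have h2 : A.valuation (z - em 1) < 1 := h.eq hA 1 (map_one red)
  rw [Res_em_one] at h2
  refine Rs.congr Rs.one ?_
  have e : z⁻¹ - 1 = -((z - 1) * z⁻¹) := by
    field_simp
    ring
  rw [e, Valuation.map_neg, map_mul, map_inv₀, h1, inv_one, mul_one]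
  exact h2

end

end

end Pool.Agent.Lib.MP_1a91b9_ntH
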