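import Pool.Agent.Lib.MP_1a91b9_ntH.A.Rep
import Pool.Agent.Lib.MP_1a91b9_ntT.DG.ZA

/-!
# TwistDensity, part A, file Sum: the L-series as a sum of residual series

Port of `MP_1a91b9_ntX/AN/ESum.lean` (`Sum_Lf`, `exists_sum`).
-/

set_option autoImplicit false

namespace Pool.Agent.Lib.MP_1a91b9_ntH

open NumberField IsDedekindDomain Pool.Agent.Lib.MP_1a91b9_ntT Pool.Agent.Lib.MP_1a91b9_ntG
open Pool.Agent.Lib.MP_1a91b9_ntT.S4 (Lf)
open Pool.Agent.Lib.MP_1a91b9_ntT.DG (ZS exists_Z summable_Z summable_all)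

noncomputable section

/-- the summand of `ZS` -/
def SumT (c x : 𝓞 K) (s : ℂ) (a : 𝓞 K) : ℂ :=
  haveI := Classical.dec (c ∣ a - x)
  if c ∣ a - x then (starRingEnd ℂ) (em a) * ((‖em a‖ : ℝ) : ℂ) ^ (-2 * s) else 0

theorem SumT_pos {c x a : 𝓞 K} (s : ℂ) (h : c ∣ a - x) :
    SumT c x s a = (starRingEnd ℂ) (em a) * ((‖em a‖ : ℝ) : ℂ) ^ (-2 * s) := by
  unfold SumT
  exact if_pos h

theorem SumT_neg {c x a : 𝓞 K} (s : ℂ) (h : ¬ c ∣ a - x) : SumT c x s a = 0 := by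
  unfold SumT
  exact if_neg h

theorem SumT_summable (c x : 𝓞 K) {s : ℂ} (hs : 2 < s.re) : Summable fun a => SumT c x s a :=
  summable_Z c x hs

theorem SumT_tsum (c x : 𝓞 K) (s : ℂ) : ∑' a, SumT c x s a = ZS c x s := rfl

private theorem sum_cpow {x : ℝ} (hx : 0 ≤ x) (s : ℂ) :
    (((x ^ 2 : ℝ)) : ℂ) ^ (-s) = (x : ℂ) ^ (-2 * s) := by
  have h1 : (((x ^ 2 : ℝ)) : ℂ) = (x : ℂ) * (x : ℂ) := by
    push_cast
    ring
  rw [h1, Complex.mul_cpow_ofReal_nonneg hx hx, ← pow_two]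
  have h2 : (-2 * s : ℂ) = ((2 : ℕ) : ℂ) * (-s) := by
    push_cast
    ring
  rw [h2, Complex.cpow_nat_mul]

theorem Sum_absNorm (a : 𝓞 K) : (Ideal.absNorm (Ideal.span {a}) : ℝ) = ‖em a‖ ^ 2 := by
  rw [Ideal.absNorm_span_singleton]
  exact Nz_eq a

theorem Sum_norm (a : 𝓞 K) (s : ℂ) :
    (Ideal.absNorm (Ideal.span {a}) : ℂ) ^ (-s) = ((‖em a‖ : ℝ) : ℂ) ^ (-2 * s) := by
  have h1 := Sum_absNorm a
  rw [← sum_cpow (norm_nonneg _) s, ← h1]
  rw [Complex.ofReal_natCast]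

/-- A sum over ideals as a sum over distinguished generators. -/
theorem Sum_gen (gen : Ideal (𝓞 K) → 𝓞 K) {G : Ideal (𝓞 K) → ℂ} {F : 𝓞 K → ℂ}
    (hG : ∀ I, G I ≠ 0 → Ideal.span {gen I} = I)
    (hF : ∀ a, F a ≠ 0 → gen (Ideal.span {a}) = a)
    (h : ∀ a, gen (Ideal.span {a}) = a → F a = G (Ideal.span {a})) :
    ∑' I, G I = ∑' a, F a := by
  refine tsum_eq_tsum_of_ne_zero_bij
    (fun a : Function.support F => Ideal.span {(a : 𝓞 K)}) ?_ ?_ ?_
  · intro a b hab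
    apply Subtype.ext
    have h1 := hF a.1 a.2
    have h2 := hF b.1 b.2
    rw [← h1, ← h2]
    exact congrArg gen hab
  · intro I hI
    have h1 := hG I hI
    have h2 : gen (Ideal.span {gen I}) = gen I := by rw [h1]
    have h3 := h (gen I) h2
    rw [h1] at h3
    refine ⟨⟨gen I, ?_⟩, h1⟩
    change F (gen I) ≠ 0
    rw [h3]
    exact hI
  · intro a
    exact (h a.1 (hF a.1 a.2)).symm

section
variable {ν : 𝓞 K} {ι : Type} [Fintype ι] {c : ι → 𝓞 K}

omit [Fintype ι] in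
theorem Reps.Sum_f0_dvd (h : Reps ν c) : f0 ∣ ν := f0_dvd_six.trans h.dvd

omit [Fintype ι] in
theorem Reps.Sum_of_dvd (h : Reps ν c) {i : ι} {a : 𝓞 K} (ha : ν ∣ a - c i) :
    f0 ∣ a - 1 ∧ IsCoprime a ν := by
  constructor
  · have e : a - 1 = (a - c i) + (c i - 1) := by ring
    rw [e]
    exact dvd_add (h.Sum_f0_dvd.trans ha) (h.fx i)
  · obtain ⟨e, he⟩ := ha
    obtain ⟨p, q, hpq⟩ := h.cop i
    exact ⟨p, q - p * e, by linear_combination p * he + hpq⟩

omit [Fintype ι] in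
theorem Reps.Sum_not_unit (h : Reps ν c) : ¬ IsUnit ν := fun hu =>
  IsMod.not_isUnit f0 (isUnit_of_dvd_unit h.Sum_f0_dvd hu)

omit [Fintype ι] in
theorem Reps.Sum_not_dvd (h : Reps ν c) (i : ι) : ¬ ν ∣ c i := by
  rintro ⟨e, he⟩
  obtain ⟨p, q, hpq⟩ := h.cop i
  exact h.Sum_not_unit (IsUnit.of_mul_eq_one (p * e + q) (by linear_combination hpq - p * he))

theorem Sum_gen_iff {a : 𝓞 K} (ha : a ≠ 0) : psK f0 (Ideal.span {a}) = a ↔ f0 ∣ a - 1 := by
  constructor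
  · intro h
    by_cases hc : IsCoprime (Ideal.span {a}) (Ideal.span {f0})
    · have h1 := (psK_of_coprime _ hc).1
      rwa [h] at h1
    · rw [psK_of_not_coprime _ hc] at h
      exact absurd h.symm ha
  · exact psK_span a

/-- **The L-series over `K` as a finite sum of the residual series.** -/
theorem Sum_Lf (h : Reps ν c) (X : 𝓞 K → ℂ)
    (hX : ∀ a, ¬ IsCoprime a ν → X a = 0) (hx : ∀ a b, ν ∣ a - b → X a = X b) {s : ℂ}
    (hs : 2 < s.re) :
    Lf (fun I => psbC f0 K I * X (psK f0 I)) s = ∑ i, X (c i) * ZS ν (c i) s := by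
  classical
  have hR : ∑ i, X (c i) * ZS ν (c i) s = ∑' a : 𝓞 K, ∑ i, X (c i) * SumT ν (c i) s a := by
    have h1 : ∀ i ∈ (Finset.univ : Finset ι), Summable fun a : 𝓞 K => X (c i) * SumT ν (c i) s a :=
      fun i _ => (SumT_summable ν (c i) hs).mul_left _
    rw [Summable.tsum_finsetSum h1]
    refine Finset.sum_congr rfl (fun i _ => ?_)
    rw [tsum_mul_left, SumT_tsum]
  have hkey : ∀ a : 𝓞 K, f0 ∣ a - 1 → IsCoprime a ν →
      X a * ((starRingEnd ℂ) (em a) * ((‖em a‖ : ℝ) : ℂ) ^ (-2 * s)) =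
        ∑ i, X (c i) * SumT ν (c i) s a := by
    intro a ha hc
    obtain ⟨i0, hi0⟩ := h.ex a hc ha
    rw [Finset.sum_eq_single i0]
    · rw [hx a (c i0) hi0, SumT_pos s hi0]
    · intro i _ hi
      rw [SumT_neg s, mul_zero]
      intro hd
      apply hi
      apply h.inj
      have e : c i - c i0 = (a - c i0) - (a - c i) := by ring
      rw [e]
      exact dvd_sub hi0 hd
    · intro hh
      exact absurd (Finset.mem_univ _) hh
  rw [hR]
  have hsup : ∀ a : 𝓞 K, (∑ i, X (c i) * SumT ν (c i) s a) ≠ 0 → f0 ∣ a - 1 ∧ IsCoprime a ν := by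
    intro a ha
    obtain ⟨i, _, hi⟩ := Finset.exists_ne_zero_of_sum_ne_zero ha
    have hd : ν ∣ a - c i := by
      by_contra hd
      apply hi
      rw [SumT_neg s hd, mul_zero]
    exact h.Sum_of_dvd hd
  have hn0 : ∀ a : 𝓞 K, f0 ∣ a - 1 → a ≠ 0 := by
    rintro a ha rfl
    rw [zero_sub, dvd_neg] at ha
    exact IsMod.not_isUnit f0 (isUnit_of_dvd_one ha)
  unfold S4.Lf
  refine Sum_gen (psK f0) ?_ ?_ ?_
  · intro I hI
    by_cases hc : IsCoprime I (Ideal.span {f0})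
    · exact (psK_of_coprime _ hc).2
    · exfalso
      apply hI
      beta_reduce
      rw [psbC_self, psK_of_not_coprime _ hc]
      simp [em]
  · intro a ha
    exact psK_span a (hsup a ha).1
  · intro a ha
    by_cases ha0 : a = 0
    · subst ha0
      beta_reduce
      rw [psbC_self, ha]
      have h1 : ∑ i, X (c i) * SumT ν (c i) s 0 = 0 := by
        by_contra h2
        exact hn0 0 (hsup 0 h2).1 rfl
      rw [h1]
      simp [em]
    · have h1 := (Sum_gen_iff ha0).1 ha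
      beta_reduce
      rw [psbC_self, ha, Sum_norm]
      by_cases hc : IsCoprime a ν
      · rw [← hkey a h1 hc]
        ring
      · rw [hX a hc]
        have h2 : ∑ i, X (c i) * SumT ν (c i) s a = 0 := by
          by_contra h3
          exact hc (hsup a h3).2
        rw [h2]
        ring

end

/-- The entire continuation and the value at `1`. -/
theorem exists_sum {ν : 𝓞 K} {ι : Type} [Fintype ι] {c : ι → 𝓞 K} (h : Reps ν c) (X : 𝓞 K → ℂ)
    (hX : ∀ a, ¬ IsCoprime a ν → X a = 0) (hx : ∀ a b, ν ∣ a - b → X a = X b) :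
    ∃ A : ℂ → ℂ, Differentiable ℂ A ∧
      (∀ s : ℂ, 2 < s.re → A s = Lf (fun I => psbC f0 K I * X (psK f0 I)) s) ∧
      A 1 = (em ν)⁻¹ * ∑ i, X (c i) * E1 (em (c i) / em ν) := by
  have h3 : (3 : 𝓞 K) ∣ ν := (show (3 : 𝓞 K) ∣ 6 from ⟨2, by norm_num⟩).trans h.dvd
  choose A hA hA1 hA2 using fun i => exists_Z h.ne (h.Sum_not_dvd i) h3
  refine ⟨fun s => ∑ i, X (c i) * A i s, ?_, fun s hs => ?_, ?_⟩
  · exact Differentiable.fun_sum fun i _ => (differentiable_const _).mul (hA i)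
  · rw [Sum_Lf h X hX hx hs]
    exact Finset.sum_congr rfl fun i _ => by rw [hA1 i s hs]
  · change ∑ i, X (c i) * A i 1 = _
    rw [Finset.mul_sum]
    refine Finset.sum_congr rfl fun i _ => ?_
    rw [hA2 i]
    simp only [em]
    ring

end

end Pool.Agent.Lib.MP_1a91b9_ntH
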