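import Pool.Agent.Lib.MP_1a91b9_ntH.A.Ind
import Pool.Agent.Lib.MP_1a91b9_ntH.A.Ser

/-!
# TwistDensity, part A: the L-value of `y² = x³ + δ_S³`
-/

set_option autoImplicit false

namespace Pool.Agent.Lib.MP_1a91b9_ntH

open NumberField IsDedekindDomain Polynomial Pool.Agent.Lib.MP_1a91b9_ntT
  Pool.Agent.Lib.MP_1a91b9_ntG Pool.Agent.Lib.MP_1a91b9_nt
open Pool.Agent.Lib.MP_1a91b9_ntT.S4 (Lf)

noncomputable section

/-- **Q1**: the L-value is not zero if the determinant is not zero. -/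
theorem lvalue_main (S : Finset Pq) (h : (qd.M S).det ≠ 0) : ∃ g : ℂ → ℂ, Differentiable ℂ g ∧
    (∀ s : ℂ, 3 / 2 < s.re → g s = (Wd S).LSeries s) ∧ g 1 ≠ 0 := by
  obtain ⟨g, h1, h2, h3⟩ := lser_main S
  refine ⟨g, h1, h2, fun h0 => ?_⟩
  rw [h0, zero_mul] at h3
  have h4 := LS_ne h
  exact mul_ne_zero h4 ((_root_.map_ne_zero _).2 h4) h3.symm

end

end Pool.Agent.Lib.MP_1a91b9_ntH
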